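import Pool.Agent.H96.HK.Targets

/-!
# MP_e94f6f_an: small lemmas available to all modules
-/

open MeasureTheory Set Filter Topology
open scoped ContDiff

namespace Pool.Agent.H96.HK

lemma neg_one_zpow_add (j k : ℤ) : ((-1 : ℝ)) ^ (j + k) = (-1) ^ j * (-1) ^ k :=
  zpow_add₀ (by norm_num) j k

lemma neg_one_zpow_sq (k : ℤ) : ((-1 : ℝ) ^ k) ^ 2 = 1 := by
  rw [← zpow_natCast, ← zpow_mul, mul_comm, zpow_mul]; norm_num

lemma abs_neg_one_zpow (k : ℤ) : |(-1 : ℝ) ^ k| = 1 := by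
  have h := neg_one_zpow_sq k
  have h2 : ((-1 : ℝ) ^ k - 1) * ((-1 : ℝ) ^ k + 1) = 0 := by linear_combination h
  rcases mul_eq_zero.mp h2 with h3 | h3
  · rw [sub_eq_zero.mp h3, abs_one]
  · rw [eq_neg_of_add_eq_zero_left h3, abs_neg, abs_one]

@[simp] lemma gk_zero (p : X) : gk 0 p = p := by
  unfold gk; simp

lemma gk_one (p : X) : gk 1 p = g0 p := by
  unfold gk g0; simp

lemma gk_add (j k : ℤ) (p : X) : gk (j + k) p = gk j (gk k p) := by
  unfold gk
  ext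
  · simp only [neg_one_zpow_add]; ring
  · simp only [Int.cast_add]; ring

lemma gk_neg_gk (k : ℤ) (p : X) : gk (-k) (gk k p) = p := by
  rw [← gk_add]; simp

lemma gk_gk_neg (k : ℤ) (p : X) : gk k (gk (-k) p) = p := by
  rw [← gk_add]; simp

lemma continuous_gk (k : ℤ) : Continuous (gk k) := by
  unfold gk; fun_prop

lemma contDiff_gk (k : ℤ) {n : WithTop ℕ∞} : ContDiff ℝ n (gk k) := by
  unfold gk; fun_prop

@[simp] lemma gk_fst (k : ℤ) (p : X) : (gk k p).1 = (-1) ^ k * p.1 := rfl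
@[simp] lemma gk_snd (k : ℤ) (p : X) : (gk k p).2 = p.2 + k * (Real.pi / 2) := rfl

lemma abs_gk_fst (k : ℤ) (p : X) : |(gk k p).1| = |p.1| := by
  rw [gk_fst, abs_mul, abs_neg_one_zpow, one_mul]

lemma gk_injective (k : ℤ) : Function.Injective (gk k) := fun p q h => by
  rw [← gk_neg_gk k p, h, gk_neg_gk]

/-- `gk 2` is the translation by `π` -/
lemma gk_two (p : X) : gk 2 p = (p.1, p.2 + Real.pi) := by
  unfold gk
  ext
  · norm_num
  · push_cast; ring

lemma GInv.nat {f : X → ℝ} (h : GInv f) (n : ℕ) (p : X) : f (gk n p) = f p := by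
  induction n generalizing p with
  | zero => simp
  | succ n ih =>
    have : gk ((n + 1 : ℕ) : ℤ) p = gk 1 (gk n p) := by
      rw [← gk_add]; congr 1; push_cast; ring
    rw [this, gk_one, h, ih]

lemma GInv.gk {f : X → ℝ} (h : GInv f) (k : ℤ) (p : X) : f (gk k p) = f p := by
  obtain ⟨n, rfl | rfl⟩ := k.eq_nat_or_neg
  · exact h.nat n p
  · have := h.nat n (HK.gk (-n) p)
    rw [gk_gk_neg] at this
    exact this.symm

lemma GInv.pi {f : X → ℝ} (h : GInv f) (p : X) : f (p.1, p.2 + Real.pi) = f p := by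
  rw [← gk_two, h.gk]

lemma E2_pos' {t : ℝ} (ht : 0 < t) (z : ℝ) : 0 < E2 t z := by
  unfold E2
  have h4 : 0 < 4 * Real.pi * t := by positivity
  positivity

lemma E2_anti {t : ℝ} (ht : 0 < t) {a b : ℝ} (h : a ≤ b) : E2 t b ≤ E2 t a := by
  unfold E2
  have h4 : 0 < 4 * Real.pi * t := by positivity
  refine mul_le_mul_of_nonneg_left (Real.exp_le_exp.mpr ?_) (inv_nonneg.mpr h4.le)
  have h5 : 0 < 4 * t := by positivity
  rw [neg_le_neg_iff]
  exact div_le_div_of_nonneg_right h h5.le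

lemma E2_le {t : ℝ} (ht : 0 < t) {a : ℝ} (h : 0 ≤ a) : E2 t a ≤ (4 * Real.pi * t)⁻¹ := by
  have := E2_anti ht h
  refine this.trans ?_
  unfold E2
  simp

lemma Prof.continuous {F : ℝ → ℝ} (h : Prof F) : Continuous F := h.smooth.continuous

lemma Prof.eq_of_one_le {F : ℝ → ℝ} (h : Prof F) {s : ℝ} (hs : 1 ≤ s) : F s = s := by
  rw [h.far s (hs.trans (le_abs_self s)), abs_of_nonneg (by linarith)]

lemma Heat.inv_right {F : ℝ → ℝ} {H : ℝ → X → X → ℝ} (h : Heat F H) {t : ℝ} (ht : 0 < t)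
    (p q : X) (k : ℤ) : H t p (HK.gk k q) = H t p q := by
  rw [h.symm t ht, (h.inv t ht p).gk k q, h.symm t ht]

lemma Heat.inv_left {F : ℝ → ℝ} {H : ℝ → X → X → ℝ} (h : Heat F H) {t : ℝ} (ht : 0 < t)
    (p q : X) (k : ℤ) : H t (HK.gk k p) q = H t p q := (h.inv t ht q).gk k p

end Pool.Agent.H96.HK
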