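import Pool.Agent.H96.HK.Defs

/-!
# MP_e94f6f_an: targets of the modules

One `Prop` per module; the proofs are in table `hk_modules`, column `proof`.
-/

open MeasureTheory Set Filter Topology ProbabilityTheory
open scoped ContDiff

namespace Pool.Agent.H96.HK

/-! ### A. The profile and the geometry of `ds² + F(s)² dφ²` -/

/-- [PROF] a profile exists -/
def T_PROF : Prop := ∃ F, Prof F

/-- [FB] elementary facts about profiles -/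
def T_FB : Prop := ∀ F, Prof F → ∃ K, FB F K

/-- `dd F` is a distance invariant under the isometries -/
structure DD (F : ℝ → ℝ) : Prop where
  nn : ∀ p q, 0 ≤ dd F p q
  self : ∀ p, dd F p p = 0
  pos : ∀ p q, p ≠ q → 0 < dd F p q
  symm : ∀ p q, dd F p q = dd F q p
  tri : ∀ p q r, dd F p r ≤ dd F p q + dd F q r
  iso : ∀ k p q, dd F (gk k p) (gk k q) = dd F p q
  trans : ∀ (a : ℝ) (p q : X), dd F (p.1, p.2 + a) (q.1, q.2 + a) = dd F p q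
  refl : ∀ p q : X, dd F (p.1, -p.2) (q.1, -q.2) = dd F p q
  ge1 : ∀ p q : X, |p.1 - q.1| ≤ dd F p q
  ge2 : ∀ p q : X, F 0 * |p.2 - q.2| ≤ dd F p q
  le1 : ∀ p q : X, dd F p q ≤ |p.1 - q.1| + (1 + |p.1|) * |p.2 - q.2|
  le2 : ∀ p q : X, dd F p q ≤ |p.1| + |q.1| + F 0 * |p.2 - q.2|
  /-- reparametrised curves: length bounds the distance -/
  len : ∀ (c : ℝ → X) (a b : ℝ), a ≤ b → ContDiff ℝ 1 c →
    dd F (c a) (c b) ≤ ∫ t in a..b, spd F c t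

/-- [DD] -/
def T_DD : Prop := ∀ F, Prof F → DD F

/-- [LOW] two points at angle at least `π` -/
def T_LOW : Prop :=
  ∀ F, Prof F → ∀ p q : X, Real.pi ≤ |p.2 - q.2| →
    |p.1| + |q.1| + F 0 * (|p.2 - q.2| - Real.pi) ≤ dd F p q

/-- [CON] comparison with the plane -/
def T_CON : Prop :=
  ∀ F, Prof F → ∀ p q : X, cm p q ≤ dd F p q ^ 2 ∧
    (√2 ≤ p.1 → √2 ≤ q.1 → |p.2 - q.2| ≤ Real.pi / 2 → dd F p q ^ 2 ≤ cm p q)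

/-- norm of `p - y` in the metric frozen at `y` -/
noncomputable def nn (F : ℝ → ℝ) (y p : X) : ℝ :=
  √((p.1 - y.1) ^ 2 + F y.1 ^ 2 * (p.2 - y.2) ^ 2)

/-- [LOC] local comparison with the metric frozen at `y` -/
def T_LOC : Prop :=
  ∀ F, Prof F → ∀ y p : X,
    nn F y p * (1 - nn F y p / F 0) ≤ dd F y p ∧ dd F y p ≤ nn F y p * (1 + nn F y p / F 0) ∧
    (dd F y p < F 0 → nn F y p * (1 - dd F y p / F 0) ≤ dd F y p)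

/-- [GFL] global `C¹` flow of a bounded Lipschitz `C¹` vector field -/
def T_GFL : Prop :=
  ∀ (g : ℝ × ℝ × ℝ → ℝ × ℝ × ℝ) (K : NNReal) (C : ℝ), ContDiff ℝ 1 g → LipschitzWith K g →
    (∀ x, ‖g x‖ ≤ C) → ∃ α : ℝ → ℝ × ℝ × ℝ → ℝ × ℝ × ℝ, (∀ x, α 0 x = x) ∧
      (∀ x t, HasDerivAt (fun t => α t x) (g (α t x)) t) ∧
      ContDiff ℝ 1 (fun z : ℝ × (ℝ × ℝ × ℝ) => α z.1 z.2)

/-- [FLOW] the geodesic flow -/
def T_FLOW : Prop := ∀ F, Prof F → ∀ s1, ∃ S P A B, Fam F s1 S P A B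

/-- [JAC] Jacobi fields -/
def T_JAC : Prop :=
  ∀ F K, Prof F → FB F K → ∀ s1 S P A B, Fam F s1 S P A B → ∃ J J', Jac F s1 K S P A B J J'

/-- [MINI] all geodesics are minimal -/
def T_MINI : Prop :=
  ∀ F, Prof F → ∀ c a b, IsGeod F c a b → ∀ r1 r2, r1 ≤ r2 → dd F (c r1) (c r2) = r2 - r1

/-- [SURJ] every point is joined to the base point by a geodesic -/
def T_SURJ : Prop :=
  ∀ F K, Prof F → FB F K → ∀ s1 S P A B J J', Fam F s1 S P A B → Jac F s1 K S P A B J J' →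
    ∀ p : X, ∃ r θ, 0 ≤ r ∧ p = (S r θ, P r θ)

/-- [RHO] the distance function: regularity, eikonal equation, Laplacian -/
def T_RHO : Prop :=
  ∀ F K, Prof F → FB F K → ∀ y p : X, p ≠ y →
    ContDiffAt ℝ 2 (dd F y) p ∧
    ds (dd F y) p ^ 2 + dp (dd F y) p ^ 2 / F p.1 ^ 2 = 1 ∧
    1 / dd F y p ≤ LB F (dd F y) p ∧ LB F (dd F y) p ≤ 1 / dd F y p + K * dd F y p ∧
    |ds (ds (dd F y)) p| ≤ 1 / dd F y p + K * dd F y p ∧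
    |dp (dp (dd F y)) p| ≤ (1 + |p.1|) ^ 2 * (1 + 1 / dd F y p + K * dd F y p)

/-- [GEO] minimal geodesics between two points -/
def T_GEO : Prop :=
  ∀ F, Prof F → ∀ p q : X, ∃ c a b, IsGeod F c a b ∧ c 0 = p ∧ c (dd F p q) = q ∧
    ∀ r1 r2, 0 ≤ r1 → r1 ≤ r2 → dd F (c r1) (c r2) = r2 - r1

/-- first variation form at a point of a geodesic -/
noncomputable def ip (F : ℝ → ℝ) (c : ℝ → X) (a b : ℝ → ℝ) (r : ℝ) (δ : X) : ℝ :=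
  a r * δ.1 + F (c r).1 ^ 2 * b r * δ.2

/-- [ENER] upper bound for the distance of points close to a geodesic -/
def T_ENER : Prop :=
  ∀ F, Prof F → ∀ R > 0, ∃ C > 0, ∀ c a b, IsGeod F c a b → ∀ r0 r : ℝ, |(c r0).1| ≤ R →
    0 ≤ r → r ≤ R → ∀ δ0 δ1 : X, |δ0.1| ≤ 1 → |δ0.2| ≤ 1 → |δ1.1| ≤ 1 → |δ1.2| ≤ 1 →
    dd F (c r0 + δ0) (c (r0 + r) + δ1) ^ 2 ≤
      r ^ 2 + 2 * r * (ip F c a b (r0 + r) δ1 - ip F c a b r0 δ0) +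
        C * (δ0.1 ^ 2 + δ0.2 ^ 2 + δ1.1 ^ 2 + δ1.2 ^ 2)

/-- [FLAT] geodesics are straight in the flat part -/
def T_FLAT : Prop :=
  ∀ F, Prof F → ∀ c a b, IsGeod F c a b → ∀ r1 r2, r1 ≤ r2 →
    (∀ r ∈ Icc r1 r2, 1 ≤ (c r).1) →
    (c r2).1 * Real.cos ((c r2).2 - (c r1).2) = (c r1).1 + (r2 - r1) * a r1 ∧
    (c r2).1 * Real.sin ((c r2).2 - (c r1).2) = (r2 - r1) * ((c r1).1 * b r1)

/-- distance on the quotient -/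
structure DQ (F : ℝ → ℝ) : Prop where
  att : ∀ p q, ∃ k, dq F p q = dd F p (gk k q)
  le : ∀ p q k, dq F p q ≤ dd F p (gk k q)
  nn : ∀ p q, 0 ≤ dq F p q
  symm : ∀ p q, dq F p q = dq F q p
  tri : ∀ p q r, dq F p r ≤ dq F p q + dq F q r
  inv : ∀ k p q, dq F p (gk k q) = dq F p q
  inv' : ∀ k p q, dq F (gk k p) q = dq F p q
  up : ∀ p q : X, dq F p q ≤ |p.1| + |q.1| + 1
  lo : ∀ p q : X, |p.1| - |q.1| ≤ dq F p q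
  cone : ∀ p q : X, √2 ≤ p.1 → √2 ≤ q.1 → dq F p q ^ 2 = min (cm p q) (cp p q)

/-- [DQ] -/
def T_DQ : Prop := ∀ F, Prof F → DQ F

/-! ### B. Jets and comparison -/

/-- [JET] classical functions have jets; jets can be added, multiplied, translated -/
structure JetFacts : Prop where
  cls : ∀ (F : ℝ → ℝ) (u : ℝ → X → ℝ) (t : ℝ) (p : X) (D : ℝ), ContDiffAt ℝ 2 (u t) p →
    HasDerivAt (fun τ => u τ p) D t → D ≤ LB F (u t) p → SubJet F u t p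
  cls' : ∀ (F : ℝ → ℝ) (u : ℝ → X → ℝ) (t : ℝ) (p : X) (D : ℝ), ContDiffAt ℝ 2 (u t) p →
    HasDerivAt (fun τ => u τ p) D t → LB F (u t) p ≤ D → SupJet F u t p
  add : ∀ (F : ℝ → ℝ) (v w : ℝ → X → ℝ) (t : ℝ) (p : X), SubJet F v t p → SubJet F w t p →
    SubJet F (fun t p => v t p + w t p) t p
  smul : ∀ (F : ℝ → ℝ) (v : ℝ → X → ℝ) (a t : ℝ) (p : X), 0 ≤ a → SubJet F v t p →
    SubJet F (fun t p => a * v t p) t p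
  cst : ∀ (F : ℝ → ℝ) (a t : ℝ) (p : X), SubJet F (fun _ _ => a) t p
  /-- only the values near `(t,p)`, at times `≤ t`, matter, and only from one side -/
  mono : ∀ (F : ℝ → ℝ) (v w : ℝ → X → ℝ) (t : ℝ) (p : X), v t p = w t p →
    (∀ᶠ z in 𝓝[Iic t ×ˢ univ] (t, p), v z.1 z.2 ≤ w z.1 z.2) → SubJet F v t p → SubJet F w t p
  shift : ∀ (F : ℝ → ℝ) (v : ℝ → X → ℝ) (δ t : ℝ) (p : X), SubJet F v (δ + t) p →
    SubJet F (fun t p => v (δ + t) p) t p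
  g0 : ∀ (F : ℝ → ℝ) (v : ℝ → X → ℝ) (t : ℝ) (p : X) (k : ℤ), Prof F →
    SubJet F v t (gk k p) → SubJet F (fun t p => v t (gk k p)) t p

/-- [JET] -/
def T_JET : Prop := JetFacts

/-- [CMP] comparison on the whole surface -/
def T_CMP : Prop :=
  ∀ (F : ℝ → ℝ) (t0 T : ℝ) (v : ℝ → X → ℝ), (∀ s, 0 < F s) → t0 < T →
    ContinuousOn (fun z : ℝ × X => v z.1 z.2) (Icc t0 T ×ˢ univ) →
    (∀ t ∈ Icc t0 T, GInv (v t)) →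
    (∀ ε > 0, ∃ R, ∀ t ∈ Icc t0 T, ∀ p : X, R ≤ |p.1| → v t p ≤ ε) →
    (∀ p, v t0 p ≤ 0) →
    (∀ t ∈ Ioc t0 T, ∀ p, 0 < v t p → ∃ k, SubJet F v t (gk k p)) →
    ∀ t ∈ Icc t0 T, ∀ p, v t p ≤ 0

/-- [CMPE] comparison in the region `a ≤ s` -/
def T_CMPE : Prop :=
  ∀ (F : ℝ → ℝ) (a t0 T : ℝ) (v : ℝ → X → ℝ), (∀ s, 0 < F s) → t0 < T →
    ContinuousOn (fun z : ℝ × X => v z.1 z.2) (Icc t0 T ×ˢ {p | a ≤ p.1}) →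
    (∀ t ∈ Icc t0 T, ∀ p : X, v t (p.1, p.2 + Real.pi) = v t p) →
    (∀ ε > 0, ∃ R, ∀ t ∈ Icc t0 T, ∀ p : X, R ≤ p.1 → v t p ≤ ε) →
    (∀ p : X, a ≤ p.1 → v t0 p ≤ 0) →
    (∀ t ∈ Icc t0 T, ∀ φ, v t (a, φ) ≤ 0) →
    (∀ t ∈ Ioc t0 T, ∀ p : X, a < p.1 → 0 < v t p → SubJet F v t p) →
    ∀ t ∈ Icc t0 T, ∀ p : X, a ≤ p.1 → v t p ≤ 0

/-- [MIN] the heat kernel is below every supersolution with the same pole -/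
def T_MIN : Prop :=
  ∀ F H, Prof F → Heat F H → ∀ (y : X) (w : ℝ → X → ℝ),
    ContinuousOn (fun z : ℝ × X => w z.1 z.2) (Ioi 0 ×ˢ univ) →
    (∀ t > 0, ∀ p, 0 ≤ w t p) → (∀ t > 0, GInv (w t)) →
    (∀ t > 0, ∀ p, ∃ k, SupJet F w t (gk k p)) →
    (∀ ψ : X → ℝ, Continuous ψ → HasCompactSupport ψ → (∀ z, 0 ≤ ψ z) → ∀ η > 0,
      ∀ᶠ δ in 𝓝[>] (0 : ℝ), ψ y - η ≤ ∫ z : X, w δ z * ψ z * F z.1) →
    ∀ t > 0, ∀ p, H t p y ≤ w t p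

/-- [MAX] the heat kernel is above every subsolution with the same pole and small support -/
def T_MAX : Prop :=
  ∀ F H, Prof F → Heat F H → ∀ (y : X) (t1 : ℝ) (ψ : ℝ → X → ℝ) (Kc : Set X), 0 < t1 →
    IsCompact Kc → (∀ k : ℤ, k ≠ 0 → Disjoint (gk k '' Kc) Kc) →
    ContinuousOn (fun z : ℝ × X => ψ z.1 z.2) (Ioc 0 t1 ×ˢ univ) →
    (∀ t ∈ Ioc 0 t1, ∀ p, 0 ≤ ψ t p) → (∀ t ∈ Ioc 0 t1, ∀ p, p ∉ Kc → ψ t p = 0) →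
    (∀ t ∈ Ioc 0 t1, ∀ p, 0 < ψ t p → SubJet F ψ t p) →
    (∀ g : X → ℝ, Continuous g → (∀ z, 0 ≤ g z) → ∀ η > 0,
      ∀ᶠ δ in 𝓝[>] (0 : ℝ), ∫ z : X, ψ δ z * g z * F z.1 ≤ g y + η) →
    ∀ t ∈ Ioc 0 t1, ∀ p, ψ t p ≤ H t p y

/-- [SG] semigroup inequality -/
def T_SG : Prop :=
  ∀ F H, Prof F → Heat F H → ∀ t > 0, ∀ τ > 0, ∀ p q z0 : X, ∀ r, 0 < r → r ≤ 1 / 2 →
    ∀ m, 0 ≤ m → (∀ z : X, |z.1 - z0.1| ≤ r → |z.2 - z0.2| ≤ r → m ≤ H t p z * H τ z q) →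
    F 0 * r ^ 2 * m ≤ H (t + τ) p q

/-- [HCT] the heat semigroup is a contraction -/
def T_HCT : Prop :=
  ∀ F H, Prof F → Heat F H → ∀ ψ : X → ℝ, Continuous ψ → HasCompactSupport ψ → ∀ M,
    (∀ p, |∑' k : ℤ, ψ (gk k p)| ≤ M) → ∀ t > 0, ∀ p, |∫ z : X, H t p z * ψ z * F z.1| ≤ M

/-- [CONC] concentration -/
def T_CONC : Prop :=
  ∀ F, Prof F → ∀ (y : X) (Kc : Set X) (t1 : ℝ) (ψ : ℝ → X → ℝ), 0 < t1 → IsCompact Kc →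
    (∀ t ∈ Ioc 0 t1, Continuous (ψ t)) → (∀ t ∈ Ioc 0 t1, ∀ p, 0 ≤ ψ t p) →
    (∀ t ∈ Ioc 0 t1, ∀ p, p ∉ Kc → ψ t p = 0) →
    (∀ κ, 0 < κ → κ < 1 → ∃ r > 0, ∀ t ∈ Ioc 0 t1, ∀ z : X, nn F y z ≤ r →
      ψ t z ≤ E2 t ((1 - κ) * nn F y z ^ 2)) →
    (∀ r > 0, ∀ η > 0, ∀ᶠ t in 𝓝[>] (0 : ℝ), ∀ z ∈ Kc, r ≤ nn F y z → ψ t z ≤ η) →
    ∀ g : X → ℝ, Continuous g → (∀ z, 0 ≤ g z) → ∀ η > 0,
      ∀ᶠ δ in 𝓝[>] (0 : ℝ), ∫ z : X, ψ δ z * g z * F z.1 ≤ g y + η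

/-! ### C. Upper bound -/

/-- sum of the Gaussians over the lifts of the pole `q` -/
noncomputable def WS (F : ℝ → ℝ) (q : X) (t : ℝ) (p : X) : ℝ :=
  ∑' k : ℤ, E2 t (dd F p (gk k q) ^ 2)

/-- [WS1] convergence of the sum over the lifts -/
def T_WS1 : Prop :=
  ∀ F, Prof F → ∀ q : X,
    (∀ t > 0, ∀ p, Summable (fun k : ℤ => E2 t (dd F p (gk k q) ^ 2))) ∧
    ContinuousOn (fun z : ℝ × X => WS F q z.1 z.2) (Ioi 0 ×ˢ univ) ∧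
    (∀ t > 0, GInv (WS F q t)) ∧
    ∀ T > 0, ∀ ε > 0, ∃ R, ∀ t ∈ Ioc 0 T, ∀ p : X, R ≤ |p.1| → WS F q t p ≤ ε

/-- [WS2] it is a supersolution -/
def T_WS2 : Prop := ∀ F, Prof F → ∀ q t p, 0 < t → SupJet F (WS F q) t p

/-- [WS3] its initial value -/
def T_WS3 : Prop :=
  ∀ F, Prof F → ∀ y : X, ∀ ψ : X → ℝ, Continuous ψ → HasCompactSupport ψ → (∀ z, 0 ≤ ψ z) →
    ∀ η > 0, ∀ᶠ δ in 𝓝[>] (0 : ℝ), ψ y - η ≤ ∫ z : X, WS F y δ z * ψ z * F z.1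

/-- [U1] -/
def T_U1 : Prop := ∀ F H, Prof F → Heat F H → ∀ t > 0, ∀ p q, H t p q ≤ WS F q t p

/-- [U2] the sum over the lifts for short times -/
def T_U2 : Prop :=
  ∀ F, Prof F → ∀ A > 0, ∃ C > 0, ∀ p q t, 0 < t → t ≤ A * (1 + |p.1| + |q.1|) →
    WS F q t p ≤ C * E2 t (dq F p q ^ 2)

/-- [PSI] the barrier -/
def T_PSI : Prop :=
  ∀ F, Prof F → ∃ ψ : ℝ → ℝ, ∃ C, ContDiff ℝ 2 ψ ∧ (∀ s, ψ (-s) = ψ s) ∧
    (∀ s, deriv (deriv ψ) s + deriv F s / F s * deriv ψ s = 4) ∧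
    (∀ s, deriv ψ s ^ 2 ≤ 4 * ψ s) ∧ (∀ s, s ^ 2 ≤ ψ s) ∧ ∀ s, ψ s ≤ 3 / 2 * s ^ 2 + C

/-- [DEC] decay at infinity of the heat kernel -/
def T_DEC : Prop :=
  ∀ F H, Prof F → Heat F H → ∀ q, ∀ T > 0, ∀ ε > 0, ∃ R, ∀ t ∈ Ioc 0 T, ∀ p : X,
    R ≤ |p.1| → H t p q ≤ ε

/-- [U3] pole in the core, large times -/
def T_U3 : Prop :=
  ∀ F H, Prof F → Heat F H → ∃ C > 0, ∀ p q : X, |q.1| ≤ 3 → ∀ t ≥ 1,
    H t p q ≤ C / t * Real.exp (-(p.1 ^ 2 / (4 * (t + 1))))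

/-- [U4] pole in the core, all times -/
def T_U4 : Prop :=
  ∀ F H, Prof F → Heat F H → ∃ C > 0, ∀ p q : X, |q.1| ≤ 3 → ∀ t > 0,
    H t p q ≤ C * E2 t (dq F p q ^ 2)

/-- [CMH] Gaussians of the plane in polar coordinates solve the heat equation -/
def T_CMH : Prop :=
  ∀ F, Prof F → ∀ q p : X, 1 < p.1 → ∀ t > 0, ContDiffAt ℝ 2 (fun p => E2 t (cm p q)) p ∧
    HasDerivAt (fun τ => E2 τ (cm p q)) (LB F (fun p => E2 t (cm p q)) p) t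

/-- [ZH] the kernel of the cone: heat equation, symmetry, size -/
def T_ZH : Prop :=
  ∀ F, Prof F → (∀ q p : X, 1 < p.1 → ∀ t > 0, ContDiffAt ℝ 2 (ZZ t · q) p ∧
      HasDerivAt (fun τ => ZZ τ p q) (LB F (ZZ t · q) p) t) ∧
    (∀ t p q, ZZ t p q = ZZ t q p) ∧ (∀ t (p q : X), ZZ t (p.1, p.2 + Real.pi) q = ZZ t p q) ∧
    (∀ q, ContinuousOn (fun z : ℝ × X => ZZ z.1 z.2 q) (Ioi 0 ×ˢ univ)) ∧
    (∀ t > 0, ∀ p q : X, E2 t (min (cm p q) (cp p q)) ≤ ZZ t p q ∧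
      ZZ t p q ≤ 2 * E2 t (min (cm p q) (cp p q))) ∧
    ∀ q : X, ∀ t1 > 0, ∀ T > 0, ∀ ε > 0, ∃ R, ∀ t ∈ Icc t1 T, ∀ p : X, R ≤ p.1 → ZZ t p q ≤ ε

/-- [U5] both points in the flat part -/
def T_U5 : Prop :=
  ∀ F H, Prof F → Heat F H → ∃ C > 0, ∀ p q : X, 2 ≤ p.1 → 3 ≤ q.1 → ∀ t > 0,
    H t p q ≤ C * ZZ t p q

/-- [UPPER] -/
def T_UPPER : Prop :=
  ∀ F H, Prof F → Heat F H → ∃ C > 0, ∀ t > 0, ∀ p q, H t p q ≤ C * E2 t (dq F p q ^ 2)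

/-! ### D. Lower bound -/

/-- profile of the local subsolution, as a function of the squared distance -/
noncomputable def WL (K t r2 : ℝ) : ℝ :=
  Real.exp (-((K + K ^ 2) * t)) * E2 t r2 * Real.exp (-(K * r2 / 4))

/-- the local subsolution with pole `y` -/
noncomputable def psiL (F : ℝ → ℝ) (K ε : ℝ) (y : X) (t : ℝ) (p : X) : ℝ :=
  max 0 (WL K t (dd F y p ^ 2) - WL K t (ε ^ 2))

/-- [L1A] it is a subsolution -/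
def T_L1A : Prop :=
  ∀ F K, Prof F → FB F K → ∀ ε, 0 < ε → ε ≤ 1 → ∀ (y : X) (t : ℝ), 0 < t → t ≤ ε ^ 2 / 8 →
    t ≤ (K + K ^ 2)⁻¹ → ∀ p, 0 < psiL F K ε y t p → SubJet F (psiL F K ε y) t p

/-- [L1B] support and concentration -/
def T_L1B : Prop :=
  ∀ F K, Prof F → FB F K → ∀ ε, 0 < ε → ε ≤ 1 → ε ≤ F 0 / 2 → ∀ y : X,
    IsCompact {p | dd F y p ≤ ε} ∧
    (∀ k : ℤ, k ≠ 0 → Disjoint (gk k '' {p | dd F y p ≤ ε}) {p | dd F y p ≤ ε}) ∧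
    ContinuousOn (fun z : ℝ × X => psiL F K ε y z.1 z.2) (Ioi 0 ×ˢ univ) ∧
    (∀ t > 0, ∀ p, ε < dd F y p → psiL F K ε y t p = 0) ∧
    ∀ g : X → ℝ, Continuous g → (∀ z, 0 ≤ g z) → ∀ η > 0,
      ∀ᶠ δ in 𝓝[>] (0 : ℝ), ∫ z : X, psiL F K ε y δ z * g z * F z.1 ≤ g y + η

/-- [L1] short distances and times -/
def T_L1 : Prop :=
  ∀ F H, Prof F → Heat F H → ∃ ε > 0, ∃ c > 0, ∃ t0 > 0, ∀ p q, dd F p q ≤ ε →
    ∀ t ∈ Ioc 0 t0, c * E2 t (dd F p q ^ 2) ≤ H t p q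

/-- [L2] bounded points and times -/
def T_L2 : Prop :=
  ∀ F H, Prof F → Heat F H → ∀ R > 0, ∀ T > 0, ∃ c > 0, ∀ p q : X, |p.1| ≤ R → |q.1| ≤ R →
    ∀ t ∈ Ioc 0 T, c * E2 t (dq F p q ^ 2) ≤ H t p q

/-- [L3] pole in the core, large times -/
def T_L3 : Prop :=
  ∀ F H, Prof F → Heat F H → ∃ c > 0, ∀ p q : X, |q.1| ≤ 3 → ∀ t ≥ 1,
    c / t * Real.exp (-(p.1 ^ 2 / (4 * (t - 1 / 2)))) ≤ H t p q

/-- [L4A] the flat subsolution (product of two one-dimensional ones) -/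
def T_L4A : Prop :=
  ∀ F, Prof F → ∀ p q : X, 2 ≤ p.1 → 2 ≤ q.1 → |p.2 - q.2| ≤ Real.pi / 2 →
    ∃ (ψ : ℝ → X → ℝ) (Kc : Set X), IsCompact Kc ∧
    (∀ k : ℤ, k ≠ 0 → Disjoint (gk k '' Kc) Kc) ∧
    ContinuousOn (fun z : ℝ × X => ψ z.1 z.2) (Ioi 0 ×ˢ univ) ∧
    (∀ t > 0, ∀ z, 0 ≤ ψ t z) ∧ (∀ t > 0, ∀ z, z ∉ Kc → ψ t z = 0) ∧
    (∀ t > 0, ∀ z, 0 < ψ t z → SubJet F ψ t z) ∧
    (∀ g : X → ℝ, Continuous g → (∀ z, 0 ≤ g z) → ∀ η > 0,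
      ∀ᶠ δ in 𝓝[>] (0 : ℝ), ∫ z : X, ψ δ z * g z * F z.1 ≤ g q + η) ∧
    ∀ t ∈ Ioc (0 : ℝ) (1 / 50), E2 t (cm p q) / 4 ≤ ψ t p

/-- [L4] both points in the flat part, short times -/
def T_L4 : Prop :=
  ∀ F H, Prof F → Heat F H → ∃ c > 0, ∃ t4 > 0, ∀ p q : X, 2 ≤ p.1 → 2 ≤ q.1 →
    ∀ t ∈ Ioc 0 t4, c * ZZ t p q ≤ H t p q

/-- [L5] both points in the flat part, all times -/
def T_L5 : Prop :=
  ∀ F H, Prof F → Heat F H → ∃ c > 0, ∀ p q : X, 2 ≤ p.1 → 3 ≤ q.1 → ∀ t > 0,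
    c * ZZ t p q ≤ H t p q

/-- [L6] pole in the core, the other point far away, `t ≤ A * distance` -/
def T_L6 : Prop :=
  ∀ F H, Prof F → Heat F H → ∀ A > 0, ∃ R1, ∃ c > 0, ∀ p q : X, |q.1| ≤ 3 → R1 ≤ |p.1| →
    ∀ t, 0 < t → t ≤ A * (1 + |p.1|) → c * E2 t (dq F p q ^ 2) ≤ H t p q

/-- [LOWER] -/
def T_LOWER : Prop :=
  ∀ F H, Prof F → Heat F H → ∃ c > 0, ∀ t > 0, ∀ p q, c * E2 t (dq F p q ^ 2) ≤ H t p q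

/-! ### E. Existence: one-dimensional Schrödinger kernels -/

/-- [GG1] facts on the one-dimensional heat semigroup -/
structure GG1Facts : Prop where
  pos : ∀ t > 0, ∀ x, 0 < gg t x
  int : ∀ t > 0, Integrable (gg t) ∧ ∫ x, gg t x = 1
  semi : ∀ t > 0, ∀ τ > 0, ∀ s r, Integrable (fun x => gg t (s - x) * gg τ (x - r)) ∧
    ∫ x, gg t (s - x) * gg τ (x - r) = gg (t + τ) (s - r)
  bdd : ∀ t > 0, ∀ (g : ℝ → ℝ) (M : ℝ), Measurable g → (∀ x, |g x| ≤ M) → ∀ s, |GG t g s| ≤ M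
  init : ∀ (g : ℝ → ℝ) (M : ℝ), Continuous g → (∀ x, |g x| ≤ M) →
    ContinuousOn (fun z : ℝ × ℝ => if z.1 = 0 then g z.2 else GG z.1 g z.2) (Ici 0 ×ˢ univ)
  comp : ∀ t > 0, ∀ τ > 0, ∀ (g : ℝ → ℝ) (M : ℝ), Measurable g → (∀ x, |g x| ≤ M) →
    ∀ s, GG t (GG τ g) s = GG (t + τ) g s
  tail : ∀ t > 0, ∀ D ≥ 0, ∫ x in {x | D ≤ |x|}, gg t x ≤ 2 * Real.exp (-(D ^ 2 / (8 * t)))

/-- [GG1] -/
def T_GG1 : Prop := GG1Facts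

/-- [GG2] smoothing of the one-dimensional heat semigroup -/
structure GG2Facts : Prop where
  cont : ∀ (g : ℝ → ℝ) (M : ℝ), Measurable g → (∀ x, |g x| ≤ M) →
    ContinuousOn (fun z : ℝ × ℝ => GG z.1 g z.2) (Ioi 0 ×ˢ univ) ∧
    ContinuousOn (fun z : ℝ × ℝ => deriv (GG z.1 g) z.2) (Ioi 0 ×ˢ univ) ∧
    ContinuousOn (fun z : ℝ × ℝ => deriv (deriv (GG z.1 g)) z.2) (Ioi 0 ×ˢ univ)
  c2 : ∀ t > 0, ∀ (g : ℝ → ℝ) (M : ℝ), Measurable g → (∀ x, |g x| ≤ M) →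
    ContDiff ℝ 2 (GG t g) ∧ ∀ s, HasDerivAt (fun τ => GG τ g s) (deriv (deriv (GG t g)) s) t ∧
      |deriv (GG t g) s| ≤ M / √t ∧ |deriv (deriv (GG t g)) s| ≤ M / t
  lip : ∀ t > 0, ∀ (g : ℝ → ℝ) (M L : ℝ), Measurable g → (∀ x, |g x| ≤ M) →
    (∀ x y, |g x - g y| ≤ L * |x - y|) → ∀ s, |deriv (GG t g) s| ≤ L ∧
      |deriv (deriv (GG t g)) s| ≤ L / √t

/-- [GG2] -/
def T_GG2 : Prop := GG2Facts

/-- [DUH] Duhamel integrals are classical -/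
def T_DUH : Prop :=
  ∀ (T M L : ℝ) (g : ℝ → ℝ → ℝ), 0 < T → 0 ≤ M → 0 ≤ L →
    ContinuousOn (fun z : ℝ × ℝ => g z.1 z.2) (Icc 0 T ×ˢ univ) →
    (∀ τ ∈ Icc 0 T, ∀ x, |g τ x| ≤ M) →
    (∀ τ ∈ Icc 0 T, ∀ x y, |g τ x - g τ y| ≤ L * |x - y|) →
    let D : ℝ → ℝ → ℝ := fun t s => ∫ τ in (0 : ℝ)..t, GG (t - τ) (g τ) s
    ContinuousOn (fun z : ℝ × ℝ => D z.1 z.2) (Icc 0 T ×ˢ univ) ∧
    ContinuousOn (fun z : ℝ × ℝ => deriv (D z.1) z.2) (Ioo 0 T ×ˢ univ) ∧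
    ContinuousOn (fun z : ℝ × ℝ => deriv (deriv (D z.1)) z.2) (Ioo 0 T ×ˢ univ) ∧
    ∀ t ∈ Ioo 0 T, ContDiff ℝ 2 (D t) ∧ ∀ s, |D t s| ≤ M * t ∧ |deriv (D t) s| ≤ 2 * M * √t ∧
      |deriv (deriv (D t)) s| ≤ 2 * L * √t ∧
      HasDerivAt (fun τ => D τ s) (deriv (deriv (D t)) s + g t s) t

/-- classical solution of `v_t = v_ss - V v` for `a < t < b` -/
structure Cl1 (V : ℝ → ℝ) (a b : ℝ) (v : ℝ → ℝ → ℝ) : Prop where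
  c2 : ∀ t ∈ Ioo a b, ContDiff ℝ 2 (v t)
  heat : ∀ t ∈ Ioo a b, ∀ s, HasDerivAt (fun τ => v τ s) (deriv (deriv (v t)) s - V s * v t s) t
  cont0 : ContinuousOn (fun z : ℝ × ℝ => v z.1 z.2) (Ioo a b ×ˢ univ)
  cont1 : ContinuousOn (fun z : ℝ × ℝ => deriv (v z.1) z.2) (Ioo a b ×ˢ univ)
  cont2 : ContinuousOn (fun z : ℝ × ℝ => deriv (deriv (v z.1)) z.2) (Ioo a b ×ˢ univ)

/-- [MC] bounded mild solutions are classical, with estimates -/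
def T_MC : Prop :=
  ∃ C0 > 0, ∀ (V : ℝ → ℝ) (B L : ℝ), 1 ≤ B → 0 ≤ L → (∀ s, |V s| ≤ B) →
    (∀ s r, |V s - V r| ≤ L * |s - r|) → ∀ (a b M : ℝ) (v : ℝ → ℝ → ℝ), a < b →
    Mild1 V a v → (∀ t ∈ Ioo a b, ∀ s, |v t s| ≤ M) →
    Cl1 V a b v ∧ ∀ δ, 0 < δ → δ ≤ 1 → ∀ t ∈ Ioo (a + δ) b, ∀ s,
      |deriv (v t) s| ≤ C0 * B * M / δ ∧ |deriv (deriv (v t)) s| ≤ C0 * (B ^ 2 + L) * M / δ

/-- [CM1] comparison on the line -/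
def T_CM1 : Prop :=
  ∀ (V : ℝ → ℝ) (B t0 T : ℝ) (v : ℝ → ℝ → ℝ), (∀ s, -B ≤ V s) → t0 < T →
    ContinuousOn (fun z : ℝ × ℝ => v z.1 z.2) (Icc t0 T ×ˢ univ) →
    (∀ ε > 0, ∃ R, ∀ t ∈ Icc t0 T, ∀ s, R ≤ |s| → v t s ≤ ε) → (∀ s, v t0 s ≤ 0) →
    (∀ t ∈ Ioc t0 T, ∀ s, 0 < v t s → ContDiffAt ℝ 2 (v t) s ∧
      ∃ D, HasDerivAt (fun τ => v τ s) D t ∧ D ≤ deriv (deriv (v t)) s - V s * v t s) →
    ∀ t ∈ Icc t0 T, ∀ s, v t s ≤ 0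

/-- [BET] existence of the kernel -/
def T_BET : Prop :=
  ∀ (V : ℝ → ℝ) (B : ℝ), Continuous V → (∀ s, |V s| ≤ B) → ∃ K, Ker V B K

/-- [SYM] symmetry and uniqueness of the kernel -/
def T_SYM : Prop :=
  ∀ (V : ℝ → ℝ) (B B' B'' : ℝ) (K K' : ℝ → ℝ → ℝ → ℝ), Continuous V → (∀ s, |V s| ≤ B'') →
    Ker V B K → Ker V B' K' → ∀ t > 0, ∀ s r, K t s r = K' t r s

/-- [MLK] the kernel is a mild solution -/
def T_MLK : Prop :=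
  ∀ (V : ℝ → ℝ) (B : ℝ) (K : ℝ → ℝ → ℝ → ℝ), Continuous V → (∀ s, |V s| ≤ B) → Ker V B K →
    (∀ r, Mild1 V 0 (fun t s => K t s r)) ∧
    ∀ a : ℝ → ℝ, Continuous a → HasCompactSupport a →
      Mild1 V 0 (fun t s => ∫ r, K t s r * a r) ∧
      ∀ t > 0, ∀ s, ∫ r, K t s r * a r = GG t a s -
        ∫ τ in (0 : ℝ)..t, GG (t - τ) (fun x => V x * ∫ r, K τ x r * a r) s

/-- the solution of the one-dimensional equation with initial value `a` -/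
noncomputable def app (K : ℝ → ℝ → ℝ → ℝ) (a : ℝ → ℝ) (t s : ℝ) : ℝ :=
  if t ≤ 0 then a s else ∫ r, K t s r * a r

/-- [APP] the solution with given initial value -/
def T_APP : Prop :=
  ∀ (V : ℝ → ℝ) (B L : ℝ) (K : ℝ → ℝ → ℝ → ℝ), 1 ≤ B → (∀ s, |V s| ≤ B) →
    (∀ s r, |V s - V r| ≤ L * |s - r|) → Ker V B K → ∀ a : ℝ → ℝ, Continuous a →
    HasCompactSupport a →
    ContinuousOn (fun z : ℝ × ℝ => app K a z.1 z.2) (Ici 0 ×ˢ univ) ∧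
    (∀ T, Cl1 V 0 T (app K a)) ∧
    ∀ T > 0, ∀ ε > 0, ∃ R, ∀ t ∈ Icc 0 T, ∀ s, R ≤ |s| → |app K a t s| ≤ ε

/-- [KPOS] positivity and the Gaussian bound -/
def T_KPOS : Prop :=
  ∀ (V : ℝ → ℝ) (B L C : ℝ) (K : ℝ → ℝ → ℝ → ℝ), 1 ≤ B → (∀ s, |V s| ≤ B) → (∀ s, -C ≤ V s) →
    (∀ s r, |V s - V r| ≤ L * |s - r|) → Ker V B K →
    ∀ t > 0, ∀ s r, 0 ≤ K t s r ∧ K t s r ≤ Real.exp (C * t) * gg t (s - r)

/-- [VM] the potentials of the modes -/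
def T_VM : Prop :=
  ∀ F, Prof F → ∃ C ≥ 1, ∀ m : ℕ, (∀ s, |Vm F m s| ≤ C * (1 + (m : ℝ) ^ 2)) ∧
    (∀ s, (m : ℝ) ^ 2 / F s ^ 2 - C ≤ Vm F m s) ∧
    ∀ s r, |Vm F m s - Vm F m r| ≤ C * (1 + (m : ℝ) ^ 2) * |s - r|

/-- [KEV] kernels of even potentials are even -/
def T_KEV : Prop :=
  ∀ (V : ℝ → ℝ) (B : ℝ) (K : ℝ → ℝ → ℝ → ℝ), Continuous V → (∀ s, |V s| ≤ B) →
    (∀ s, V (-s) = V s) → Ker V B K → ∀ t > 0, ∀ s r, K t (-s) (-r) = K t s r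

/-- [KDEC] the kernels of high modes are small in the core -/
def T_KDEC : Prop :=
  ∀ F, Prof F → ∀ R > 0, ∀ δ T : ℝ, 0 < δ → δ < T → ∃ c > 0, ∃ C > 0, ∀ (m : ℕ) (B : ℝ)
    (K : ℝ → ℝ → ℝ → ℝ), (∀ s, |Vm F m s| ≤ B) → 1 ≤ B → Ker (Vm F m) B K →
    ∀ r, ∀ t ∈ Icc δ T, ∀ s, |s| ≤ R → |K t s r| ≤ C * Real.exp (-(c * m)) ∧
      |deriv (fun x => K t x r) s| ≤ C * Real.exp (-(c * m)) ∧
      |deriv (deriv (fun x => K t x r)) s| ≤ C * Real.exp (-(c * m)) ∧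
      |deriv (fun τ => K τ s r) t| ≤ C * Real.exp (-(c * m))

/-! ### F. Existence: the heat kernel of the surface -/

/-- kernels for all modes -/
def Modes (F : ℝ → ℝ) (K : ℕ → ℝ → ℝ → ℝ → ℝ) : Prop :=
  ∀ m, ∃ B, 1 ≤ B ∧ (∀ s, |Vm F m s| ≤ B) ∧ Ker (Vm F m) B (K m)

/-- heat kernel of the double cover `ℝ × ℝ/π` -/
noncomputable def HW (F : ℝ → ℝ) (K : ℕ → ℝ → ℝ → ℝ → ℝ) (t : ℝ) (p q : X) : ℝ :=
  Real.pi⁻¹ * (√(F p.1 * F q.1))⁻¹ * (K 0 t p.1 q.1 +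
    2 * ∑' n : ℕ, Real.cos (2 * (n + 1) * (p.2 - q.2)) * K (2 * (n + 1)) t p.1 q.1)

/-- heat kernel of the surface -/
noncomputable def HM (F : ℝ → ℝ) (K : ℕ → ℝ → ℝ → ℝ → ℝ) (t : ℝ) (p q : X) : ℝ :=
  HW F K t p q + HW F K t p (g0 q)

/-- [SEP] separation of variables -/
def T_SEP : Prop :=
  ∀ F, Prof F → ∀ (m : ℕ) (v : ℝ → ℝ) (κ : ℝ) (p : X), ContDiff ℝ 2 v →
    ContDiff ℝ 2 (fun p : X => (√(F p.1))⁻¹ * v p.1 * Real.cos (m * p.2 + κ)) ∧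
    LB F (fun p : X => (√(F p.1))⁻¹ * v p.1 * Real.cos (m * p.2 + κ)) p =
      (√(F p.1))⁻¹ * (deriv (deriv v) p.1 - Vm F m p.1 * v p.1) * Real.cos (m * p.2 + κ)

/-- [SER1] continuity and symmetries of the series -/
def T_SER1 : Prop :=
  ∀ F K, Prof F → Modes F K →
    ContinuousOn (fun z : ℝ × X × X => HM F K z.1 z.2.1 z.2.2) (Ioi 0 ×ˢ univ) ∧
    (∀ t > 0, ∀ p q, HM F K t p q = HM F K t q p) ∧
    (∀ t > 0, ∀ q, GInv (fun p => HM F K t p q))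

/-- [SER2] the series is a classical solution -/
def T_SER2 : Prop := ∀ F K, Prof F → Modes F K → ∀ q, Cl F (fun t p => HM F K t p q)

/-- [UNF] unfolding -/
def T_UNF : Prop :=
  ∀ F, Prof F → ∀ u : X → ℝ, Continuous u → GInv u → ∀ ψ : X → ℝ, Continuous ψ →
    HasCompactSupport ψ → Continuous (fun p => ∑' k : ℤ, ψ (gk k p)) ∧
    GInv (fun p => ∑' k : ℤ, ψ (gk k p)) ∧
    (∃ R, ∀ p : X, R ≤ |p.1| → ∑' k : ℤ, ψ (gk k p) = 0) ∧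
    ∫ z : X, u z * ψ z * F z.1 =
      ∫ z in {z : X | z.2 ∈ Ioc 0 (Real.pi / 2)}, u z * (∑' k : ℤ, ψ (gk k z)) * F z.1

/-- trigonometric polynomial in `φ` with coefficients `a n`, `b n` -/
noncomputable def trg (N : ℕ) (a b : ℕ → ℝ → ℝ) (p : X) : ℝ :=
  ∑ n ∈ Finset.range N, (a n p.1 * Real.cos (2 * n * p.2) + b n p.1 * Real.sin (2 * n * p.2))

/-- admissible coefficients -/
def Coef (a : ℕ → ℝ → ℝ) : Prop :=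
  ∀ n, Continuous (a n) ∧ HasCompactSupport (a n) ∧ ∀ s, a n (-s) = (-1) ^ n * a n s

/-- [TRIG] density of trigonometric polynomials -/
def T_TRIG : Prop :=
  ∀ f : X → ℝ, Continuous f → GInv f → ∀ R, (∀ p : X, R ≤ |p.1| → f p = 0) → ∀ η > 0,
    ∃ N a b, Coef a ∧ Coef b ∧ (∀ n s, R ≤ |s| → a n s = 0 ∧ b n s = 0) ∧
      ∀ p, |f p - trg N a b p| ≤ η

/-- the solution with initial value `trg N a b` -/
noncomputable def utr (F : ℝ → ℝ) (K : ℕ → ℝ → ℝ → ℝ → ℝ) (N : ℕ) (a b : ℕ → ℝ → ℝ)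
    (t : ℝ) (p : X) : ℝ :=
  ∑ n ∈ Finset.range N, (√(F p.1))⁻¹ *
    (app (K (2 * n)) (fun s => √(F s) * a n s) t p.1 * Real.cos (2 * n * p.2) +
      app (K (2 * n)) (fun s => √(F s) * b n s) t p.1 * Real.sin (2 * n * p.2))

/-- [PD] evolution of trigonometric polynomials -/
def T_PD : Prop :=
  ∀ F K, Prof F → Modes F K → ∀ N a b, Coef a → Coef b →
    Nice F (utr F K N a b) ∧ (∀ p, utr F K N a b 0 p = trg N a b p) ∧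
    ∀ t > 0, ∀ p, utr F K N a b t p =
      ∫ z in {z : X | z.2 ∈ Ioc 0 (Real.pi / 2)}, HM F K t p z * trg N a b z * F z.1

/-- [CTR] contraction and positivity -/
def T_CTR : Prop :=
  ∀ F K, Prof F → Modes F K → (∀ t > 0, ∀ p q, 0 ≤ HM F K t p q) ∧
    ∀ f : X → ℝ, Continuous f → GInv f → (∃ R, ∀ p : X, R ≤ |p.1| → f p = 0) →
      ∀ M, (∀ p, |f p| ≤ M) → ∀ t > 0, ∀ p,
        |∫ z in {z : X | z.2 ∈ Ioc 0 (Real.pi / 2)}, HM F K t p z * f z * F z.1| ≤ M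

/-- [HKEX] existence of the heat kernel of the surface -/
def T_HKEX : Prop := ∀ F, Prof F → ∃ H, Heat F H

end Pool.Agent.H96.HK
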