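import Pool.Agent.H96.HK.DefsN
import Pool.Agent.H96.HK.Targets

/-!
# MP_e94f6f_an: targets of the modules, part G (the manifold `M × ℝ^n`)
-/

open MeasureTheory Set Filter Topology
open scoped ContDiff

namespace Pool.Agent.H96.HK

/-- [GAM] powers of the generator -/
def T_GAM : Prop :=
  ∀ n : ℕ, (∀ (k : ℤ) (x : E (n + 2)), pX ((gam n ^ k) x) = gk k (pX x) ∧
      ∀ i : Fin n, ((gam n ^ k) x) i.succ.succ = x i.succ.succ) ∧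
    (∀ k : ℤ, gam n ^ k = 1 → k = 0) ∧
    ∀ (ψ : E (n + 2) → ℝ) (y : E (n + 2)),
      ∑' γ : Gam n, ψ (γ.1 y) = ∑' k : ℤ, ψ ((gam n ^ k) y)

/-- [MET] the metric and the deck group -/
def T_MET : Prop := ∀ F, Prof F → ∀ n, IsMetric (gF F n) ∧ IsDeck (gF F n) (Gam n)

/-- [LAP] the Laplace-Beltrami operator -/
def T_LAP : Prop :=
  ∀ F, Prof F → ∀ n, (∀ x, vol (gF F n) x = F (x 0)) ∧
    ∀ (f : E (n + 2) → ℝ) (x : E (n + 2)), ContDiffAt ℝ 2 f x →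
      lap (gF F n) f x = pd 0 (pd 0 f) x + deriv F (x 0) / F (x 0) * pd 0 f x +
        pd 1 (pd 1 f) x / F (x 0) ^ 2 + ∑ i : Fin n, pd i.succ.succ (pd i.succ.succ f) x

/-- [DIS] the distance -/
def T_DIS : Prop :=
  ∀ F, Prof F → ∀ n (x y : E (n + 2)),
    dM (gF F n) (Gam n) x y = √(dq F (pX x) (pX y) ^ 2 + zz x y)

/-- [CPL] completeness -/
def T_CPL : Prop := ∀ F, Prof F → ∀ n, IsCompleteM (gF F n) (Gam n)

/-- [NIS] `M × ℝ^n` is not isometric to `ℝ^(n+2)` -/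
def T_NIS : Prop := ∀ F, Prof F → ∀ n, ¬ IsFlatSpace (gF F n) (Gam n)

/-- [CMN] comparison on `M × ℝ^n` -/
def T_CMN : Prop :=
  ∀ F, Prof F → ∀ (n : ℕ) (t0 T : ℝ) (v : ℝ → E (n + 2) → ℝ), t0 < T →
    ContinuousOn (fun z : ℝ × E (n + 2) => v z.1 z.2) (Icc t0 T ×ˢ univ) →
    (∀ t ∈ Icc t0 T, ∀ x, v t (gam n x) = v t x) →
    (∀ ε > 0, ∃ R, ∀ t ∈ Icc t0 T, ∀ x : E (n + 2),
      (R ≤ |x 0| ∨ ∃ i : Fin n, R ≤ |x i.succ.succ|) → v t x ≤ ε) →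
    (∀ x, v t0 x ≤ 0) →
    (∀ t ∈ Ioc t0 T, ∀ x, 0 < v t x → ContDiffAt ℝ 2 (v t) x ∧
      ∃ D, HasDerivAt (fun τ => v τ x) D t ∧ D ≤ lap (gF F n) (v t) x) →
    ∀ t ∈ Icc t0 T, ∀ x, v t x ≤ 0

/-- classical solution on `M × ℝ^n`, continuous at time `0`, vanishing at infinity -/
structure NiceN (F : ℝ → ℝ) (n : ℕ) (u : ℝ → E (n + 2) → ℝ) : Prop where
  c2 : ∀ t > 0, ContDiff ℝ 2 (u t)
  heat : ∀ t > 0, ∀ x, HasDerivAt (fun τ => u τ x) (lap (gF F n) (u t) x) t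
  cont : ContinuousOn (fun z : ℝ × E (n + 2) => u z.1 z.2) (Ici 0 ×ˢ univ)
  inv : ∀ t ≥ 0, ∀ x, u t (gam n x) = u t x
  dec : ∀ T > 0, ∀ ε > 0, ∃ R, ∀ t ∈ Icc 0 T, ∀ x : E (n + 2),
    (R ≤ |x 0| ∨ ∃ i : Fin n, R ≤ |x i.succ.succ|) → |u t x| ≤ ε

/-- [APN] approximation on `M × ℝ^n` -/
def T_APN : Prop :=
  ∀ F H, Prof F → Heat F H → ∀ (n : ℕ) (ψ : E (n + 2) → ℝ), Continuous ψ → HasCompactSupport ψ →
    ∀ T > 0, ∀ η > 0, ∃ u, NiceN F n u ∧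
      (∀ x, |u 0 x - ∑' k : ℤ, ψ ((gam n ^ k) x)| ≤ η) ∧
      ∀ t ∈ Ioc 0 T, ∀ x, |u t x - ∫ z : E (n + 2), Hn H t x z * ψ z * F (z 0)| ≤ η

/-- [FUN] the product kernel is a positive fundamental solution -/
def T_FUN : Prop :=
  ∀ F H, Prof F → Heat F H → (∀ t > 0, ∀ p q, 0 < H t p q) → ∀ (n : ℕ) (y : E (n + 2)),
    IsFund (gF F n) (Gam n) y (fun t x => Hn H t x y)

/-- [MNN] it is the smallest one -/
def T_MNN : Prop :=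
  ∀ F H, Prof F → Heat F H → ∀ (n : ℕ) (y : E (n + 2)) (u : ℝ → E (n + 2) → ℝ),
    IsFund (gF F n) (Gam n) y u → ∀ t > 0, ∀ x, Hn H t x y ≤ u t x

end Pool.Agent.H96.HK
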