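import Pool.Agent.H96.HK.Basic

/-!
# MP_e94f6f_an: chain rule for the Laplacian (for modules L1A, WS2)
-/

open MeasureTheory Set Filter Topology
open scoped ContDiff

namespace Pool.Agent.H96.HK

lemma deriv2_comp {f g g' : ℝ → ℝ} {g2 x : ℝ} (hf : ContDiffAt ℝ 2 f x)
    (hg : ∀ y, HasDerivAt g (g' y) y) (hg' : HasDerivAt g' g2 (f x)) :
    deriv (fun a => g (f a)) x = g' (f x) * deriv f x ∧
    deriv (deriv (fun a => g (f a))) x = g2 * deriv f x ^ 2 + g' (f x) * deriv (deriv f) x := by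
  have hnear : ∀ᶠ a in 𝓝 x, ContDiffAt ℝ 2 f a := hf.eventually (by simp)
  have hd : ∀ᶠ a in 𝓝 x, deriv (fun a => g (f a)) a = g' (f a) * deriv f a := by
    filter_upwards [hnear] with a ha
    have h1 : HasDerivAt f (deriv f a) a := (ha.differentiableAt (by simp)).hasDerivAt
    exact ((hg (f a)).comp a h1).deriv
  refine ⟨hd.self_of_nhds, ?_⟩
  have h1 : HasDerivAt f (deriv f x) x := (hf.differentiableAt (by simp)).hasDerivAt
  have h2 : HasDerivAt (deriv f) (deriv (deriv f) x) x := by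
    have : ContDiffAt ℝ 1 (deriv f) x := hf.derivWithin (by norm_num)
    exact (this.differentiableAt (by simp)).hasDerivAt
  rw [Filter.EventuallyEq.deriv_eq hd]
  have h3 := (hg'.comp x h1).mul h2
  refine (h3.deriv).trans ?_
  simp only [Function.comp_apply]
  ring

lemma contDiffAt_line1 {f : X → ℝ} {p : X} (hf : ContDiffAt ℝ 2 f p) :
    ContDiffAt ℝ 2 (fun a => f (a, p.2)) p.1 := by
  have : ContDiffAt ℝ 2 (fun a : ℝ => ((a, p.2) : X)) p.1 := by fun_prop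
  exact ContDiffAt.comp p.1 (by exact hf) this

lemma contDiffAt_line2 {f : X → ℝ} {p : X} (hf : ContDiffAt ℝ 2 f p) :
    ContDiffAt ℝ 2 (fun b => f (p.1, b)) p.2 := by
  have : ContDiffAt ℝ 2 (fun b : ℝ => ((p.1, b) : X)) p.2 := by fun_prop
  exact ContDiffAt.comp p.2 (by exact hf) this

/-- chain rule for the Laplacian -/
lemma LB_comp (F : ℝ → ℝ) {ρ : X → ℝ} {p : X} {g g' : ℝ → ℝ} {g2 : ℝ}
    (hρ : ContDiffAt ℝ 2 ρ p) (hg : ∀ y, HasDerivAt g (g' y) y)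
    (hg' : HasDerivAt g' g2 (ρ p)) :
    LB F (fun q => g (ρ q)) p =
      g2 * (ds ρ p ^ 2 + dp ρ p ^ 2 / F p.1 ^ 2) + g' (ρ p) * LB F ρ p := by
  obtain ⟨a1, a2⟩ := deriv2_comp (contDiffAt_line1 hρ) hg hg'
  obtain ⟨b1, b2⟩ := deriv2_comp (contDiffAt_line2 hρ) hg hg'
  have e1 : ds (ds (fun q => g (ρ q))) p = g2 * ds ρ p ^ 2 + g' (ρ p) * ds (ds ρ) p := a2
  have e2 : ds (fun q => g (ρ q)) p = g' (ρ p) * ds ρ p := a1
  have e3 : dp (dp (fun q => g (ρ q))) p = g2 * dp ρ p ^ 2 + g' (ρ p) * dp (dp ρ) p := b2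
  unfold LB
  rw [e1, e2, e3]
  ring

lemma contDiffAt_comp_real {ρ : X → ℝ} {p : X} {g : ℝ → ℝ} (hρ : ContDiffAt ℝ 2 ρ p)
    (hg : ContDiff ℝ 2 g) : ContDiffAt ℝ 2 (fun q => g (ρ q)) p :=
  hg.contDiffAt.comp p hρ

end Pool.Agent.H96.HK
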