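import Pool.Agent.H96.HK.Basic

/-!
# MP_e94f6f_an: module DQ (distance on the quotient)
-/

open MeasureTheory Set Filter Topology
open scoped ContDiff

namespace Pool.Agent.H96.HK

lemma cos_int_pi (x : ℝ) (j : ℤ) : |Real.cos (x - j * Real.pi)| = |Real.cos x| := by
  rw [Real.cos_sub_int_mul_pi, abs_mul, abs_neg_one_zpow, one_mul]

lemma gk_even_fst (j : ℤ) (q : X) : (gk (2 * j) q).1 = q.1 := by
  rw [gk_fst, zpow_mul]
  norm_num

lemma gk_even_snd (j : ℤ) (q : X) : (gk (2 * j) q).2 = q.2 + j * Real.pi := by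
  rw [gk_snd]; push_cast; ring

lemma min_cm_cp (p q : X) (hp : 0 ≤ p.1) (hq : 0 ≤ q.1) :
    min (cm p q) (cp p q) = p.1 ^ 2 + q.1 ^ 2 - 2 * p.1 * q.1 * |Real.cos (p.2 - q.2)| := by
  have h3 : 0 ≤ 2 * p.1 * q.1 := by positivity
  unfold cm cp
  rcases le_total 0 (Real.cos (p.2 - q.2)) with h | h
  · rw [abs_of_nonneg h, min_eq_left]
    have := mul_nonneg h3 h
    linarith
  · rw [abs_of_nonpos h, min_eq_right]
    · ring
    · have := mul_nonneg h3 (neg_nonneg.mpr h)
      linarith

theorem dqm (hDD : T_DD) (hC : T_CON) (hFB : T_FB) : T_DQ := by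
  intro F hF
  have DD := hDD F hF
  obtain ⟨K, hB⟩ := hFB F hF
  have hF0 := hF.pos 0
  have hpi := Real.pi_gt_three
  have hpi4 := Real.pi_lt_four
  have le : ∀ p q k, dq F p q ≤ dd F p (gk k q) := fun p q k =>
    ciInf_le ⟨0, by rintro x ⟨k, rfl⟩; exact DD.nn _ _⟩ k
  have att : ∀ p q, ∃ k, dq F p q = dd F p (gk k q) := by
    intro p q
    set B : ℝ := dd F p (gk 0 q) with hBd
    obtain ⟨N, hN⟩ := exists_nat_gt (B / F 0 + |p.2 - q.2|)
    have hN0 : (0:ℝ) ≤ N := Nat.cast_nonneg N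
    obtain ⟨k0, hk0, hmin⟩ := Finset.exists_min_image (Finset.Icc (-(N:ℤ)) N)
      (fun k => dd F p (gk k q)) ⟨0, by simp⟩
    refine ⟨k0, le_antisymm (le p q k0) (le_ciInf fun k => ?_)⟩
    by_cases hk : k ∈ Finset.Icc (-(N:ℤ)) N
    · exact hmin k hk
    · have h0 : dd F p (gk k0 q) ≤ B := hmin 0 (by simp)
      have hk' : (N:ℝ) < |(k:ℝ)| := by
        rw [Finset.mem_Icc, not_and_or] at hk
        rcases hk with h | h
        · have : (k:ℝ) < -(N:ℝ) := by exact_mod_cast not_le.mp h
          exact lt_abs.mpr (Or.inr (by linarith))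
        · have : (N:ℝ) < (k:ℝ) := by exact_mod_cast not_le.mp h
          exact lt_abs.mpr (Or.inl this)
      have h1 := DD.ge2 p (gk k q)
      rw [gk_snd] at h1
      have h2 : |(k:ℝ)| - |p.2 - q.2| ≤ |p.2 - (q.2 + k * (Real.pi / 2))| := by
        have e : (k:ℝ) * (Real.pi / 2) = (p.2 - q.2) - (p.2 - (q.2 + k * (Real.pi / 2))) := by ring
        have h3 : |(k:ℝ) * (Real.pi / 2)| ≤ |p.2 - q.2| + |p.2 - (q.2 + k * (Real.pi / 2))| := by
          calc |(k:ℝ) * (Real.pi / 2)| = |(p.2 - q.2) - (p.2 - (q.2 + k * (Real.pi / 2)))| := by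
                rw [← e]
            _ ≤ _ := norm_sub_le (p.2 - q.2) (p.2 - (q.2 + k * (Real.pi / 2)))
        rw [abs_mul, abs_of_pos (by positivity : 0 < Real.pi / 2)] at h3
        have h4 : |(k:ℝ)| * 1 ≤ |(k:ℝ)| * (Real.pi / 2) :=
          mul_le_mul_of_nonneg_left (by linarith) (abs_nonneg _)
        linarith
      have h3 : B ≤ F 0 * |p.2 - (q.2 + k * (Real.pi / 2))| := by
        have h4 : B / F 0 ≤ |p.2 - (q.2 + k * (Real.pi / 2))| := by linarith
        rw [div_le_iff₀ hF0] at h4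
        linarith
      linarith
  have inv : ∀ k p q, dq F p (gk k q) = dq F p q := by
    intro k p q
    apply le_antisymm
    · obtain ⟨j, hj⟩ := att p q
      have h := le p (gk k q) (j - k)
      rw [← gk_add] at h
      rw [hj]
      simpa using h
    · obtain ⟨j, hj⟩ := att p (gk k q)
      rw [hj, ← gk_add]
      exact le p q (j + k)
  have symm1 : ∀ p q, dq F p q ≤ dq F q p := by
    intro p q
    refine le_ciInf fun k => ?_
    have h := le p q (-k)
    rw [← DD.iso k, gk_gk_neg, DD.symm] at h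
    exact h
  have symm : ∀ p q, dq F p q = dq F q p := fun p q => le_antisymm (symm1 p q) (symm1 q p)
  refine ⟨att, le, ?_, symm, ?_, inv, ?_, ?_, ?_, ?_⟩
  · intro p q
    obtain ⟨k, hk⟩ := att p q
    rw [hk]; exact DD.nn _ _
  · intro p q r
    obtain ⟨k, hk⟩ := att p q
    obtain ⟨j, hj⟩ := att q r
    have h1 := le p r (k + j)
    have h2 := DD.tri p (gk k q) (gk (k + j) r)
    rw [gk_add k j r, DD.iso k] at h2
    rw [gk_add k j r] at h1
    rw [hk, hj]
    linarith
  · intro k p q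
    rw [symm, inv, symm]
  · intro p q
    set k : ℤ := round ((p.2 - q.2) / (Real.pi / 2)) with hk
    have h1 := le p q k
    have h2 := DD.le2 p (gk k q)
    rw [abs_gk_fst, gk_snd] at h2
    have h3 : |p.2 - (q.2 + k * (Real.pi / 2))| ≤ 1 := by
      have h := abs_sub_round ((p.2 - q.2) / (Real.pi / 2))
      have e : p.2 - (q.2 + k * (Real.pi / 2)) =
          ((p.2 - q.2) / (Real.pi / 2) - k) * (Real.pi / 2) := by
        field_simp; ring
      rw [e, abs_mul, abs_of_pos (by positivity : 0 < Real.pi / 2)]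
      calc |(p.2 - q.2) / (Real.pi / 2) - k| * (Real.pi / 2) ≤ 1 / 2 * (Real.pi / 2) :=
            mul_le_mul_of_nonneg_right h (by positivity)
        _ ≤ 1 := by linarith
    have h4 : F 0 ≤ 1 := hB.one 0 (by norm_num)
    have h5 : F 0 * |p.2 - (q.2 + k * (Real.pi / 2))| ≤ 1 * 1 :=
      mul_le_mul h4 h3 (abs_nonneg _) (by norm_num)
    linarith
  · intro p q
    obtain ⟨k, hk⟩ := att p q
    rw [hk]
    have h1 := DD.ge1 p (gk k q)
    have h2 := abs_sub_abs_le_abs_sub p.1 (gk k q).1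
    rw [abs_gk_fst] at h2
    linarith
  · intro p q hp hq
    have hs : (0:ℝ) < √2 := by positivity
    have hp0 : 0 ≤ p.1 := by linarith
    have hq0 : 0 ≤ q.1 := by linarith
    rw [min_cm_cp p q hp0 hq0]
    have hB0 : 0 ≤ 2 * p.1 * q.1 := by positivity
    apply le_antisymm
    · set j : ℤ := round ((p.2 - q.2) / Real.pi) with hj
      have hj1 : |p.2 - q.2 - j * Real.pi| ≤ Real.pi / 2 := by
        have h := abs_sub_round ((p.2 - q.2) / Real.pi)
        have e : p.2 - q.2 - j * Real.pi = ((p.2 - q.2) / Real.pi - j) * Real.pi := by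
          field_simp
        rw [e, abs_mul, abs_of_pos Real.pi_pos]
        calc |(p.2 - q.2) / Real.pi - j| * Real.pi ≤ 1 / 2 * Real.pi :=
              mul_le_mul_of_nonneg_right h Real.pi_pos.le
          _ = Real.pi / 2 := by ring
      have hang : p.2 - (gk (2 * j) q).2 = p.2 - q.2 - j * Real.pi := by rw [gk_even_snd]; ring
      have h1 := (hC F hF p (gk (2 * j) q)).2 hp (by rw [gk_even_fst]; exact hq)
        (by rw [hang]; exact hj1)
      have h2 : dq F p q ^ 2 ≤ dd F p (gk (2 * j) q) ^ 2 := by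
        obtain ⟨k, hk⟩ := att p q
        exact pow_le_pow_left₀ (by rw [hk]; exact DD.nn _ _) (le p q _) 2
      refine h2.trans (h1.trans ?_)
      have hcos : 0 ≤ Real.cos (p.2 - (gk (2 * j) q).2) := by
        rw [hang]
        exact Real.cos_nonneg_of_mem_Icc ⟨by linarith [(abs_le.mp hj1).1], (abs_le.mp hj1).2⟩
      unfold cm
      rw [gk_even_fst, ← abs_of_nonneg hcos, hang, cos_int_pi]
    · obtain ⟨k, hk⟩ := att p q
      rw [hk]
      rcases Int.even_or_odd k with ⟨j, hj⟩ | hodd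
      · have hj' : k = 2 * j := by omega
        subst hj'
        refine le_trans ?_ (hC F hF p (gk (2 * j) q)).1
        unfold cm
        rw [gk_even_fst, gk_even_snd]
        have e : p.2 - (q.2 + j * Real.pi) = p.2 - q.2 - j * Real.pi := by ring
        rw [e, ← cos_int_pi (p.2 - q.2) j]
        have h1 := le_abs_self (Real.cos (p.2 - q.2 - j * Real.pi))
        nlinarith [mul_le_mul_of_nonneg_left h1 hB0]
      · have h1 := DD.ge1 p (gk k q)
        have h2 : (gk k q).1 = -q.1 := by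
          rw [gk_fst, hodd.neg_one_zpow]; ring
        rw [h2] at h1
        have h3 : p.1 + q.1 ≤ dd F p (gk k q) := by
          have := le_abs_self (p.1 - -q.1)
          linarith
        have h4 : (p.1 + q.1) ^ 2 ≤ dd F p (gk k q) ^ 2 := pow_le_pow_left₀ (by linarith) h3 2
        have h5 : 0 ≤ 2 * p.1 * q.1 * |Real.cos (p.2 - q.2)| := by positivity
        nlinarith

end Pool.Agent.H96.HK
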