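import Pool.Agent.H96.HK.Statement

/-!
# MP_e94f6f_an: working definitions

`X = ℝ × ℝ` with coordinates `(s, φ)` is the universal cover of the surface `M`, the metric is
`ds² + F(s)² dφ²`, the deck group is generated by `g0 (s, φ) = (-s, φ + π/2)`.
-/

open MeasureTheory Set Filter Topology ProbabilityTheory
open scoped ContDiff

namespace Pool.Agent.H96.HK

/-- the profile of the surface of revolution -/
structure Prof (F : ℝ → ℝ) : Prop where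
  smooth : ContDiff ℝ ∞ F
  even : ∀ s, F (-s) = F s
  convex : ∀ s, 0 ≤ deriv (deriv F) s
  far : ∀ s, 1 ≤ |s| → F s = |s|
  pos : ∀ s, 0 < F s

abbrev X := ℝ × ℝ

/-- the generator of the deck group -/
noncomputable def g0 (p : X) : X := (-p.1, p.2 + Real.pi / 2)

/-- the powers of `g0` -/
noncomputable def gk (k : ℤ) (p : X) : X := ((-1) ^ k * p.1, p.2 + k * (Real.pi / 2))

/-! ### distance -/

/-- speed of a curve -/
noncomputable def spd (F : ℝ → ℝ) (c : ℝ → X) (t : ℝ) : ℝ :=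
  √(deriv (fun τ => (c τ).1) t ^ 2 + F (c t).1 ^ 2 * deriv (fun τ => (c τ).2) t ^ 2)

/-- length of a curve parametrised by `[0,1]` -/
noncomputable def len (F : ℝ → ℝ) (c : ℝ → X) : ℝ := ∫ t in (0 : ℝ)..1, spd F c t

/-- `C¹` curve from `p` to `q` -/
structure IsPath (c : ℝ → X) (p q : X) : Prop where
  c1 : ContDiff ℝ 1 c
  st : c 0 = p
  en : c 1 = q

/-- distance on the universal cover -/
noncomputable def dd (F : ℝ → ℝ) (p q : X) : ℝ := sInf {L | ∃ c, IsPath c p q ∧ L = len F c}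

/-- consequences of `Prof`; `K` bounds minus the curvature -/
structure FB (F : ℝ → ℝ) (K : ℝ) : Prop where
  K1 : 1 ≤ K
  le : ∀ s, |s| ≤ F s
  d1 : ∀ s, |deriv F s| ≤ 1
  d0 : ∀ s, 0 ≤ s * deriv F s
  dl : ∀ s, s * deriv F s ≤ F s
  tan : ∀ S s, |F S + deriv F S * (s - S)| ≤ F s
  m0 : ∀ s, F 0 ≤ F s
  up : ∀ s, F s ≤ 1 + |s|
  one : ∀ s, |s| ≤ 1 → F s ≤ 1
  d2 : ∀ s, deriv (deriv F) s ≤ K
  d2F : ∀ s, deriv (deriv F) s ≤ K * F s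
  far1 : ∀ s, 1 ≤ s → deriv F s = 1
  odd : ∀ s, deriv F (-s) = -deriv F s
  far2 : ∀ s, 1 ≤ |s| → deriv (deriv F) s = 0
  sm1 : ContDiff ℝ ∞ (deriv F)
  sm2 : ContDiff ℝ ∞ (deriv (deriv F))

/-- distance on the quotient -/
noncomputable def dq (F : ℝ → ℝ) (p q : X) : ℝ := ⨅ k : ℤ, dd F p (gk k q)

/-- unit speed geodesic, defined for all times -/
def IsGeod (F : ℝ → ℝ) (c : ℝ → X) (a b : ℝ → ℝ) : Prop :=
  (∀ r, HasDerivAt (fun r => (c r).1) (a r) r) ∧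
  (∀ r, HasDerivAt (fun r => (c r).2) (b r) r) ∧
  (∀ r, HasDerivAt a (F (c r).1 * deriv F (c r).1 * b r ^ 2) r) ∧
  (∀ r, HasDerivAt b (-(2 * (deriv F (c r).1 / F (c r).1) * a r * b r)) r) ∧
  (∀ r, a r ^ 2 + F (c r).1 ^ 2 * b r ^ 2 = 1)

/-- geodesics from `(s₁, 0)`; `θ` is the initial angle with the meridian -/
structure Fam (F : ℝ → ℝ) (s1 : ℝ) (S P A B : ℝ → ℝ → ℝ) : Prop where
  S0 : ∀ θ, S 0 θ = s1
  P0 : ∀ θ, P 0 θ = 0
  A0 : ∀ θ, A 0 θ = Real.cos θ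
  B0 : ∀ θ, B 0 θ = Real.sin θ / F s1
  Sr : ∀ r θ, HasDerivAt (fun r => S r θ) (A r θ) r
  Pr : ∀ r θ, HasDerivAt (fun r => P r θ) (B r θ) r
  Ar : ∀ r θ, HasDerivAt (fun r => A r θ) (F (S r θ) * deriv F (S r θ) * B r θ ^ 2) r
  Br : ∀ r θ, HasDerivAt (fun r => B r θ)
    (-(2 * (deriv F (S r θ) / F (S r θ)) * A r θ * B r θ)) r
  unit : ∀ r θ, A r θ ^ 2 + F (S r θ) ^ 2 * B r θ ^ 2 = 1
  per : ∀ r θ, S r (θ + 2 * Real.pi) = S r θ ∧ P r (θ + 2 * Real.pi) = P r θ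
  c1 : ContDiff ℝ 1 (fun z : ℝ × ℝ => S z.1 z.2) ∧ ContDiff ℝ 1 (fun z : ℝ × ℝ => P z.1 z.2) ∧
    ContDiff ℝ 1 (fun z : ℝ × ℝ => A z.1 z.2) ∧ ContDiff ℝ 1 (fun z : ℝ × ℝ => B z.1 z.2)
  /- the derivatives with respect to `θ` solve the linearised equation -/
  linS : ∀ r θ, HasDerivAt (fun r => deriv (S r) θ) (deriv (A r) θ) r
  linP : ∀ r θ, HasDerivAt (fun r => deriv (P r) θ) (deriv (B r) θ) r
  linA : ∀ r θ, HasDerivAt (fun r => deriv (A r) θ)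
    ((deriv F (S r θ) ^ 2 + F (S r θ) * deriv (deriv F) (S r θ)) * deriv (S r) θ * B r θ ^ 2 +
      2 * F (S r θ) * deriv F (S r θ) * B r θ * deriv (B r) θ) r
  linB : ∀ r θ, HasDerivAt (fun r => deriv (B r) θ)
    (-(2 * (deriv (deriv F) (S r θ) / F (S r θ) - (deriv F (S r θ) / F (S r θ)) ^ 2) *
        deriv (S r) θ * A r θ * B r θ) -
      2 * (deriv F (S r θ) / F (S r θ)) * (deriv (A r) θ * B r θ + A r θ * deriv (B r) θ)) r

/-- Jacobi fields of the family; `K` bounds minus the curvature -/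
structure Jac (F : ℝ → ℝ) (s1 K : ℝ) (S P A B J J' : ℝ → ℝ → ℝ) : Prop where
  J0 : ∀ θ, J 0 θ = 0
  Jr : ∀ r θ, HasDerivAt (fun r => J r θ) (J' r θ) r
  ge : ∀ r θ, 0 ≤ r → r ≤ J r θ
  lo : ∀ r θ, 0 < r → J r θ / r ≤ J' r θ
  up : ∀ r θ, 0 < r → J' r θ ≤ J r θ * (1 / r + K * r)
  Sθ : ∀ r θ, deriv (S r) θ = -(F (S r θ) * B r θ * J r θ)
  Pθ : ∀ r θ, deriv (P r) θ = A r θ / F (S r θ) * J r θ
  Aθ : ∀ r θ, deriv (A r) θ = F (S r θ) * deriv F (S r θ) * B r θ * deriv (P r) θ -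
    F (S r θ) * B r θ * J' r θ
  Bθ : ∀ r θ, deriv (B r) θ = -(deriv F (S r θ) / F (S r θ) *
    (deriv (S r) θ * B r θ + deriv (P r) θ * A r θ)) + A r θ / F (S r θ) * J' r θ

/-! ### the Laplacian, classical solutions, jets -/

noncomputable def ds (f : X → ℝ) (p : X) : ℝ := deriv (fun a => f (a, p.2)) p.1
noncomputable def dp (f : X → ℝ) (p : X) : ℝ := deriv (fun b => f (p.1, b)) p.2

/-- Laplace-Beltrami operator of `ds² + F² dφ²` -/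
noncomputable def LB (F : ℝ → ℝ) (f : X → ℝ) (p : X) : ℝ :=
  ds (ds f) p + deriv F p.1 / F p.1 * ds f p + dp (dp f) p / F p.1 ^ 2

/-- `v` has at `(t,p)` second order jets from below for which it is a subsolution -/
def SubJet (F : ℝ → ℝ) (v : ℝ → X → ℝ) (t : ℝ) (p : X) : Prop :=
  ∃ T1 S1 S2 P1 P2 : ℝ,
    (∀ ε > 0, ∀ᶠ h in 𝓝[>] (0 : ℝ), v t p - T1 * h - ε * h ≤ v (t - h) p) ∧
    (∀ ε > 0, ∀ᶠ h in 𝓝 (0 : ℝ),
      v t p + S1 * h + S2 * h ^ 2 / 2 - ε * h ^ 2 ≤ v t (p.1 + h, p.2)) ∧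
    (∀ ε > 0, ∀ᶠ h in 𝓝 (0 : ℝ),
      v t p + P1 * h + P2 * h ^ 2 / 2 - ε * h ^ 2 ≤ v t (p.1, p.2 + h)) ∧
    T1 ≤ S2 + deriv F p.1 / F p.1 * S1 + P2 / F p.1 ^ 2

/-- supersolution in the sense of jets -/
def SupJet (F : ℝ → ℝ) (w : ℝ → X → ℝ) (t : ℝ) (p : X) : Prop :=
  SubJet F (fun t p => -w t p) t p

/-- classical solution on `(0, ∞)` -/
structure Cl (F : ℝ → ℝ) (u : ℝ → X → ℝ) : Prop where
  c2 : ∀ t > 0, ContDiff ℝ 2 (u t)
  heat : ∀ t > 0, ∀ p, HasDerivAt (fun τ => u τ p) (LB F (u t) p) t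

/-- invariance under the deck group -/
def GInv (f : X → ℝ) : Prop := ∀ p, f (g0 p) = f p

/-- classical solution, continuous at time `0`, vanishing at infinity on bounded time
intervals -/
structure Nice (F : ℝ → ℝ) (u : ℝ → X → ℝ) : Prop where
  cl : Cl F u
  cont : ContinuousOn (fun z : ℝ × X => u z.1 z.2) (Ici 0 ×ˢ univ)
  inv : ∀ t ≥ 0, GInv (u t)
  dec : ∀ T > 0, ∀ ε > 0, ∃ R, ∀ t ∈ Icc 0 T, ∀ p : X, R ≤ |p.1| → |u t p| ≤ ε

/-- what the estimates need to know about the heat kernel of the surface -/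
structure Heat (F : ℝ → ℝ) (H : ℝ → X → X → ℝ) : Prop where
  nn : ∀ t > 0, ∀ p q, 0 ≤ H t p q
  symm : ∀ t > 0, ∀ p q, H t p q = H t q p
  inv : ∀ t > 0, ∀ q, GInv (fun p => H t p q)
  cont : ContinuousOn (fun z : ℝ × X × X => H z.1 z.2.1 z.2.2) (Ioi 0 ×ˢ univ)
  cl : ∀ q, Cl F (fun t p => H t p q)
  apx : ∀ ψ : X → ℝ, Continuous ψ → HasCompactSupport ψ → ∀ T > 0, ∀ η > 0, ∃ u, Nice F u ∧
    (∀ p, |u 0 p - ∑' k : ℤ, ψ (gk k p)| ≤ η) ∧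
    ∀ t ∈ Ioc 0 T, ∀ p, |u t p - ∫ z : X, H t p z * ψ z * F z.1| ≤ η

/-! ### kernels -/

/-- two-dimensional Gaussian at time `t` and squared distance `r2` -/
noncomputable def E2 (t r2 : ℝ) : ℝ := (4 * Real.pi * t)⁻¹ * Real.exp (-(r2 / (4 * t)))

/-- squared distances of the points with polar coordinates `p` and `±q` in the plane -/
noncomputable def cm (p q : X) : ℝ := p.1 ^ 2 + q.1 ^ 2 - 2 * p.1 * q.1 * Real.cos (p.2 - q.2)
noncomputable def cp (p q : X) : ℝ := p.1 ^ 2 + q.1 ^ 2 + 2 * p.1 * q.1 * Real.cos (p.2 - q.2)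

/-- heat kernel of the flat cone of angle `π` in polar coordinates -/
noncomputable def ZZ (t : ℝ) (p q : X) : ℝ := E2 t (cm p q) + E2 t (cp p q)

/-- one-dimensional heat kernel -/
noncomputable def gg (t x : ℝ) : ℝ := (√(4 * Real.pi * t))⁻¹ * Real.exp (-(x ^ 2 / (4 * t)))

/-- one-dimensional heat semigroup -/
noncomputable def GG (t : ℝ) (g : ℝ → ℝ) (s : ℝ) : ℝ := ∫ r, gg t (s - r) * g r

/-- kernel of `exp(-t(-∂² + V))` on the line -/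
structure Ker (V : ℝ → ℝ) (B : ℝ) (K : ℝ → ℝ → ℝ → ℝ) : Prop where
  cont : ContinuousOn (fun z : ℝ × ℝ × ℝ => K z.1 z.2.1 z.2.2) (Ioi 0 ×ˢ univ)
  bdd : ∀ t > 0, ∀ s r, |K t s r| ≤ Real.exp (B * t) * gg t (s - r)
  duh : ∀ t > 0, ∀ s r, K t s r = gg t (s - r) -
    ∫ τ in (0 : ℝ)..t, ∫ x, gg (t - τ) (s - x) * V x * K τ x r

/-- the potential of the `m`-th mode -/
noncomputable def Vm (F : ℝ → ℝ) (m : ℕ) (s : ℝ) : ℝ :=
  (m : ℝ) ^ 2 / F s ^ 2 + deriv (deriv F) s / (2 * F s) - (deriv F s / F s) ^ 2 / 4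

/-- `v` is a mild solution of `v_t = v_ss - V v` on `(a, ∞) × ℝ` -/
structure Mild1 (V : ℝ → ℝ) (a : ℝ) (v : ℝ → ℝ → ℝ) : Prop where
  cont : ContinuousOn (fun z : ℝ × ℝ => v z.1 z.2) (Ioi a ×ˢ univ)
  duh : ∀ τ t, a < τ → τ < t → ∀ s, v t s = GG (t - τ) (v τ) s -
    ∫ r in τ..t, GG (t - r) (fun x => V x * v r x) s

end Pool.Agent.H96.HK
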