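import Pool.Agent.H96.HK.Defs

/-!
# MP_e94f6f_an: the manifold `M × ℝ^n` as a quotient of `ℝ^(n+2)`
-/

open MeasureTheory Set Filter Topology
open scoped ContDiff

namespace Pool.Agent.H96.HK

/-- the metric `ds² + F(s)² dφ² + |dz|²` on `ℝ^(n+2)` -/
noncomputable def gF (F : ℝ → ℝ) (n : ℕ) (x : E (n + 2)) : Matrix (Fin (n + 2)) (Fin (n + 2)) ℝ :=
  Matrix.diagonal (fun i => if i = 1 then F (x 0) ^ 2 else 1)

/-- `(s, φ, z) ↦ (-s, φ + π/2, z)` -/
noncomputable def gam (n : ℕ) : E (n + 2) ≃ₜ E (n + 2) where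
  toFun x := WithLp.toLp 2 (fun i => if i = 0 then -x 0 else if i = 1 then x 1 + Real.pi / 2
    else x i)
  invFun x := WithLp.toLp 2 (fun i => if i = 0 then -x 0 else if i = 1 then x 1 - Real.pi / 2
    else x i)
  left_inv x := by
    ext i
    by_cases h0 : i = 0
    · subst h0; simp
    · by_cases h1 : i = 1
      · subst h1; simp
      · simp [h0, h1]
  right_inv x := by
    ext i
    by_cases h0 : i = 0
    · subst h0; simp
    · by_cases h1 : i = 1
      · subst h1; simp
      · simp [h0, h1]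
  continuous_toFun := by
    refine (PiLp.continuous_toLp 2 _).comp (continuous_pi fun i => ?_)
    split_ifs <;> fun_prop
  continuous_invFun := by
    refine (PiLp.continuous_toLp 2 _).comp (continuous_pi fun i => ?_)
    split_ifs <;> fun_prop

/-- the deck group -/
noncomputable def Gam (n : ℕ) : Subgroup (E (n + 2) ≃ₜ E (n + 2)) := Subgroup.zpowers (gam n)

/-- first two coordinates -/
noncomputable def pX {n : ℕ} (x : E (n + 2)) : X := (x 0, x 1)

/-- squared distance of the last `n` coordinates -/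
noncomputable def zz {n : ℕ} (x y : E (n + 2)) : ℝ := ∑ i : Fin n, (x i.succ.succ - y i.succ.succ) ^ 2

/-- Gaussian in the last `n` coordinates -/
noncomputable def En (n : ℕ) (t r2 : ℝ) : ℝ :=
  (4 * Real.pi * t) ^ (-(n : ℝ) / 2) * Real.exp (-(r2 / (4 * t)))

/-- the heat kernel of the product -/
noncomputable def Hn {n : ℕ} (H : ℝ → X → X → ℝ) (t : ℝ) (x y : E (n + 2)) : ℝ :=
  H t (pX x) (pX y) * En n t (zz x y)

end Pool.Agent.H96.HK
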