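import Pool.Agent.H96.HK.TargetsN

/-!
# MP_e94f6f_an: assembly of the final statement
-/

open MeasureTheory Set Filter Topology
open scoped ContDiff

namespace Pool.Agent.H96.HK

lemma E2_mul_En (n : ℕ) {t : ℝ} (ht : 0 < t) (a z : ℝ) (hz : 0 ≤ z) :
    E2 t (a ^ 2) * En n t z = Eu (n + 2) t (√(a ^ 2 + z)) := by
  unfold E2 En Eu
  have h4 : 0 < 4 * Real.pi * t := by positivity
  rw [Real.sq_sqrt (by positivity)]
  have e1 : (4 * Real.pi * t) ^ (-((n + 2 : ℕ) : ℝ) / 2) =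
      (4 * Real.pi * t)⁻¹ * (4 * Real.pi * t) ^ (-(n : ℝ) / 2) := by
    have : (-((n + 2 : ℕ) : ℝ) / 2) = -1 + (-(n : ℝ) / 2) := by push_cast; ring
    rw [this, Real.rpow_add h4, Real.rpow_neg_one]
  have e2 : Real.exp (-(a ^ 2 + z) / (4 * t)) =
      Real.exp (-(a ^ 2 / (4 * t))) * Real.exp (-(z / (4 * t))) := by
    rw [← Real.exp_add]; congr 1; ring
  rw [e1, e2]
  ring

lemma En_pos (n : ℕ) {t : ℝ} (ht : 0 < t) (z : ℝ) : 0 < En n t z := by
  unfold En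
  have h4 : 0 < 4 * Real.pi * t := by positivity
  positivity

lemma E2_pos {t : ℝ} (ht : 0 < t) (z : ℝ) : 0 < E2 t z := by
  unfold E2
  have h4 : 0 < 4 * Real.pi * t := by positivity
  positivity

lemma zz_nonneg {n : ℕ} (x y : E (n + 2)) : 0 ≤ zz x y :=
  Finset.sum_nonneg fun i _ => sq_nonneg _

/-- assembly -/
theorem fin (hPROF : T_PROF) (hMET : T_MET) (hDIS : T_DIS) (hCPL : T_CPL) (hNIS : T_NIS)
    (hEX : T_HKEX) (hFUN : T_FUN) (hMNN : T_MNN) (hUP : T_UPPER) (hLO : T_LOWER) : T_FINAL := by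
  intro d hd
  obtain ⟨n, rfl⟩ : ∃ n, d = n + 2 := ⟨d - 2, by omega⟩
  obtain ⟨F, hF⟩ := hPROF
  obtain ⟨H, hH⟩ := hEX F hF
  obtain ⟨C, hC, hup⟩ := hUP F H hF hH
  obtain ⟨c, hc, hlo⟩ := hLO F H hF hH
  have hpos : ∀ t > 0, ∀ p q, 0 < H t p q := fun t ht p q =>
    lt_of_lt_of_le (mul_pos hc (E2_pos ht _)) (hlo t ht p q)
  refine ⟨gF F n, Gam n, (hMET F hF n).1, (hMET F hF n).2, hCPL F hF n, hNIS F hF n,
    Hn H, ⟨hFUN F H hF hH hpos n, fun y u hu t ht x => hMNN F H hF hH n y u hu t ht x⟩,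
    max 1 (max C c⁻¹), le_max_left _ _, ?_⟩
  intro t ht x y
  have e := E2_mul_En n ht (dq F (pX x) (pX y)) (zz x y) (zz_nonneg x y)
  rw [hDIS F hF n x y, ← e]
  have hE : 0 < E2 t (dq F (pX x) (pX y) ^ 2) := E2_pos ht _
  have hN : 0 < En n t (zz x y) := En_pos n ht _
  have h1 := hup t ht (pX x) (pX y)
  have h2 := hlo t ht (pX x) (pX y)
  have hM : 0 < max 1 (max C c⁻¹) := lt_of_lt_of_le one_pos (le_max_left _ _)
  constructor
  · have h3 : (max 1 (max C c⁻¹))⁻¹ ≤ c := by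
      have : c⁻¹ ≤ max 1 (max C c⁻¹) := (le_max_right _ _).trans (le_max_right _ _)
      calc (max 1 (max C c⁻¹))⁻¹ ≤ (c⁻¹)⁻¹ := inv_anti₀ (inv_pos.mpr hc) this
        _ = c := inv_inv c
    calc (max 1 (max C c⁻¹))⁻¹ * (E2 t (dq F (pX x) (pX y) ^ 2) * En n t (zz x y))
        ≤ c * (E2 t (dq F (pX x) (pX y) ^ 2) * En n t (zz x y)) :=
          mul_le_mul_of_nonneg_right h3 (by positivity)
      _ = (c * E2 t (dq F (pX x) (pX y) ^ 2)) * En n t (zz x y) := by ring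
      _ ≤ H t (pX x) (pX y) * En n t (zz x y) := mul_le_mul_of_nonneg_right h2 hN.le
      _ = Hn H t x y := rfl
  · calc Hn H t x y = H t (pX x) (pX y) * En n t (zz x y) := rfl
      _ ≤ (C * E2 t (dq F (pX x) (pX y) ^ 2)) * En n t (zz x y) :=
          mul_le_mul_of_nonneg_right h1 hN.le
      _ = C * (E2 t (dq F (pX x) (pX y) ^ 2) * En n t (zz x y)) := by ring
      _ ≤ max 1 (max C c⁻¹) * (E2 t (dq F (pX x) (pX y) ^ 2) * En n t (zz x y)) :=
          mul_le_mul_of_nonneg_right ((le_max_left _ _).trans (le_max_right _ _)) (by positivity)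

end Pool.Agent.H96.HK
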