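import Pool.Agent.H96.HK.L1A

/-!
# MP_e94f6f_an: modules L1, L4, LOWER, UPPER
-/

open MeasureTheory Set Filter Topology
open scoped ContDiff

namespace Pool.Agent.H96.HK

theorem l1 (hM : T_MAX) (hA : T_L1A) (hB : T_L1B) (hFB : T_FB) (hDD : T_DD) : T_L1 := by
  intro F H hF hH
  have DD := hDD F hF
  obtain ⟨K, hK⟩ := hFB F hF
  have hK1 := hK.K1
  have hF0 := hF.pos 0
  set e1 : ℝ := min 1 (F 0 / 2) with he1
  have he1p : 0 < e1 := lt_min one_pos (by positivity)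
  have he11 : e1 ≤ 1 := min_le_left _ _
  have he1F : e1 ≤ F 0 / 2 := min_le_right _ _
  set t1 : ℝ := min (e1 ^ 2 / 8) ((K + K ^ 2)⁻¹) with ht1
  have hKK : 0 < K + K ^ 2 := by positivity
  have ht1p : 0 < t1 := lt_min (by positivity) (by positivity)
  have ht1a : t1 ≤ e1 ^ 2 / 8 := min_le_left _ _
  have ht1b : t1 ≤ (K + K ^ 2)⁻¹ := min_le_right _ _
  refine ⟨e1 / 2, by positivity, 1 / 2 * Real.exp (-((K + K ^ 2) * t1) - K / 4), by positivity,
    t1, ht1p, ?_⟩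
  intro p q hpq t ht
  obtain ⟨b1, b2, b3, b4, b5⟩ := hB F K hF hK e1 he1p he11 he1F q
  have hmax := hM F H hF hH q t1 (psiL F K e1 q) {p | dd F q p ≤ e1} ht1p b1 b2
    (b3.mono (prod_mono (fun x hx => hx.1) subset_rfl)) (fun t _ p => le_max_left _ _)
    (fun t ht p hp => b4 t ht.1 p (by simpa using hp))
    (fun t ht p hp => hA F K hF hK e1 he1p he11 q t ht.1 (ht.2.trans ht1a) (ht.2.trans ht1b) p hp)
    b5 t ht p
  refine le_trans ?_ hmax
  rw [DD.symm p q] at hpq ⊢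
  set d : ℝ := dd F q p with hd
  have hd0 : 0 ≤ d := DD.nn _ _
  have htp : 0 < t := ht.1
  have hd2 : d ^ 2 ≤ e1 ^ 2 / 4 := by nlinarith
  -- ratio
  have hW := WL_pos (K := K) htp (d ^ 2)
  have hratio : WL K t (e1 ^ 2) ≤ 1 / 2 * WL K t (d ^ 2) := by
    rw [WL_eq K t (e1 ^ 2), WL_eq K t (d ^ 2)]
    have e : Real.exp (-((1 / (4 * t) + K / 4) * e1 ^ 2)) ≤
        1 / 2 * Real.exp (-((1 / (4 * t) + K / 4) * d ^ 2)) := by
      have h1 : (1 / (4 * t) + K / 4) * (e1 ^ 2 - d ^ 2) ≥ 3 / 2 := by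
        have h2 : 3 / 4 * e1 ^ 2 ≤ e1 ^ 2 - d ^ 2 := by linarith
        have h3 : 1 / (4 * t) ≤ 1 / (4 * t) + K / 4 := by linarith
        have h4 : 2 ≤ 1 / (4 * t) * e1 ^ 2 := by
          rw [div_mul_eq_mul_div, le_div_iff₀ (by positivity)]
          have := ht.2.trans ht1a
          linarith
        calc (3:ℝ) / 2 = 3 / 4 * 2 := by norm_num
          _ ≤ 3 / 4 * (1 / (4 * t) * e1 ^ 2) := by linarith
          _ = 1 / (4 * t) * (3 / 4 * e1 ^ 2) := by ring
          _ ≤ (1 / (4 * t) + K / 4) * (e1 ^ 2 - d ^ 2) := by gcongr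
      have h2 : Real.exp (-(3 / 2)) ≤ 1 / 2 := by
        have h3 : (2:ℝ) ≤ Real.exp (3 / 2) := by
          have := Real.add_one_le_exp (3 / 2 : ℝ)
          linarith
        rw [Real.exp_neg, one_div]
        exact inv_anti₀ (by norm_num) h3
      calc Real.exp (-((1 / (4 * t) + K / 4) * e1 ^ 2))
          = Real.exp (-((1 / (4 * t) + K / 4) * (e1 ^ 2 - d ^ 2))) *
            Real.exp (-((1 / (4 * t) + K / 4) * d ^ 2)) := by
            rw [← Real.exp_add]; congr 1; ring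
        _ ≤ Real.exp (-(3 / 2)) * Real.exp (-((1 / (4 * t) + K / 4) * d ^ 2)) := by
            refine mul_le_mul_of_nonneg_right (Real.exp_le_exp.mpr (by linarith))
              (Real.exp_pos _).le
        _ ≤ _ := mul_le_mul_of_nonneg_right h2 (Real.exp_pos _).le
    have e0 : 0 ≤ (4 * Real.pi * t)⁻¹ * Real.exp (-((K + K ^ 2) * t)) := by positivity
    nlinarith [mul_le_mul_of_nonneg_left e e0]
  have h1 : 1 / 2 * WL K t (d ^ 2) ≤ psiL F K e1 q t p := by
    unfold psiL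
    refine le_trans ?_ (le_max_right _ _)
    linarith
  refine le_trans ?_ h1
  unfold WL
  have hE := E2_pos' htp (d ^ 2)
  have h2 : Real.exp (-((K + K ^ 2) * t1) - K / 4) ≤
      Real.exp (-((K + K ^ 2) * t)) * Real.exp (-(K * d ^ 2 / 4)) := by
    rw [← Real.exp_add]
    apply Real.exp_le_exp.mpr
    have h3 : (K + K ^ 2) * t ≤ (K + K ^ 2) * t1 := mul_le_mul_of_nonneg_left ht.2 hKK.le
    have h4 : K * d ^ 2 ≤ K := by
      have : d ^ 2 ≤ 1 := by nlinarith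
      nlinarith
    linarith
  calc 1 / 2 * Real.exp (-((K + K ^ 2) * t1) - K / 4) * E2 t (d ^ 2)
      ≤ 1 / 2 * (Real.exp (-((K + K ^ 2) * t)) * Real.exp (-(K * d ^ 2 / 4))) * E2 t (d ^ 2) := by
        gcongr
    _ = _ := by ring

end Pool.Agent.H96.HK
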