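import Pool.Agent.H96.HK.Chain

/-!
# MP_e94f6f_an: module L1A (the local subsolution)
-/

open MeasureTheory Set Filter Topology
open scoped ContDiff

namespace Pool.Agent.H96.HK

lemma WL_pos {K t : ℝ} (ht : 0 < t) (r2 : ℝ) : 0 < WL K t r2 := by
  unfold WL
  have := E2_pos' ht r2
  positivity

lemma WL_anti {K t : ℝ} (hK : 0 ≤ K) (ht : 0 < t) {a b : ℝ} (h : a ≤ b) :
    WL K t b ≤ WL K t a := by
  unfold WL
  have h1 := E2_anti ht h
  have h2 : Real.exp (-(K * b / 4)) ≤ Real.exp (-(K * a / 4)) := by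
    apply Real.exp_le_exp.mpr
    have := mul_le_mul_of_nonneg_left h hK
    linarith
  have h3 := E2_pos' ht b
  have h4 := E2_pos' ht a
  have h5 : 0 ≤ Real.exp (-((K + K ^ 2) * t)) * E2 t a := by positivity
  gcongr

lemma WL_eq (K t r2 : ℝ) : WL K t r2 = (4 * Real.pi * t)⁻¹ * Real.exp (-((K + K ^ 2) * t)) *
    Real.exp (-((1 / (4 * t) + K / 4) * r2)) := by
  unfold WL E2
  have : Real.exp (-((1 / (4 * t) + K / 4) * r2)) =
      Real.exp (-(r2 / (4 * t))) * Real.exp (-(K * r2 / 4)) := by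
    rw [← Real.exp_add]; congr 1; ring
  rw [this]; ring

lemma WL_hasDerivAt_t {K t : ℝ} (ht : 0 < t) (r2 : ℝ) :
    HasDerivAt (fun t => WL K t r2)
      ((-(K + K ^ 2) - 1 / t + r2 / (4 * t ^ 2)) * WL K t r2) t := by
  have h0 : t ≠ 0 := ht.ne'
  have hp : (Real.pi : ℝ) ≠ 0 := Real.pi_ne_zero
  have e : (fun t => WL K t r2) = fun t => (4 * Real.pi)⁻¹ * (t⁻¹ *
      (Real.exp (-((K + K ^ 2) * t)) * Real.exp (-(r2 / 4 * t⁻¹))) * Real.exp (-(K * r2 / 4))) := by
    funext τ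
    unfold WL E2
    have e1 : -(r2 / (4 * τ)) = -(r2 / 4 * τ⁻¹) := by
      rcases eq_or_ne τ 0 with h | h
      · subst h; simp
      · field_simp
    rw [e1, mul_inv]
    ring
  rw [e]
  have h1 : HasDerivAt (fun τ : ℝ => τ⁻¹) (-(t ^ 2)⁻¹) t := hasDerivAt_inv h0
  have h2 : HasDerivAt (fun τ : ℝ => -((K + K ^ 2) * τ)) (-((K + K ^ 2) * 1)) t :=
    ((hasDerivAt_id t).const_mul (K + K ^ 2)).neg
  have h3 : HasDerivAt (fun τ : ℝ => -(r2 / 4 * τ⁻¹)) (-(r2 / 4 * (-(t ^ 2)⁻¹))) t :=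
    (h1.const_mul _).neg
  have h4 := ((h1.mul (h2.exp.mul h3.exp)).mul_const (Real.exp (-(K * r2 / 4)))).const_mul
    ((4 * Real.pi)⁻¹)
  refine h4.congr_deriv ?_
  unfold WL E2
  have e1 : -(r2 / (4 * t)) = -(r2 / 4 * t⁻¹) := by field_simp
  rw [e1]
  simp only [Pi.mul_apply]
  field_simp
  ring

/-- coefficient in the exponent -/
noncomputable def mc (K t : ℝ) : ℝ := 1 / (2 * t) + K / 2

lemma WL_hasDerivAt_r (K t x : ℝ) :
    HasDerivAt (fun x => WL K t (x ^ 2)) (-(mc K t * x) * WL K t (x ^ 2)) x := by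
  have e : (fun x => WL K t (x ^ 2)) = fun x => (4 * Real.pi * t)⁻¹ *
      Real.exp (-((K + K ^ 2) * t)) * Real.exp (-((1 / (4 * t) + K / 4) * x ^ 2)) := by
    funext y; rw [WL_eq]
  rw [e]
  have h0 : HasDerivAt (fun x : ℝ => x ^ 2) (2 * x) x := by simpa using hasDerivAt_pow 2 x
  have h1 := ((h0.const_mul (1 / (4 * t) + K / 4)).neg.exp).const_mul
    ((4 * Real.pi * t)⁻¹ * Real.exp (-((K + K ^ 2) * t)))
  refine h1.congr_deriv ?_
  rw [WL_eq]
  simp only [Pi.neg_apply]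
  unfold mc
  have : (1 / (4 * t) + K / 4) * (2 * x) = (1 / (2 * t) + K / 2) * x := by
    have : 1 / (4 * t) = 1 / (2 * t) / 2 := by
      rw [div_div]; congr 1; ring
    rw [this]; ring
  rw [this]
  ring

lemma WL_hasDerivAt_rr (K t x : ℝ) :
    HasDerivAt (fun x => -(mc K t * x) * WL K t (x ^ 2))
      ((-mc K t + mc K t ^ 2 * x ^ 2) * WL K t (x ^ 2)) x := by
  have h1 : HasDerivAt (fun x : ℝ => -(mc K t * x)) (-(mc K t * 1)) x :=
    ((hasDerivAt_id x).const_mul (mc K t)).neg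
  refine (h1.mul (WL_hasDerivAt_r K t x)).congr_deriv ?_
  ring

lemma WL_contDiff (K t : ℝ) : ContDiff ℝ 2 (fun x => WL K t (x ^ 2)) := by
  have e : (fun x => WL K t (x ^ 2)) = fun x => (4 * Real.pi * t)⁻¹ *
      Real.exp (-((K + K ^ 2) * t)) * Real.exp (-((1 / (4 * t) + K / 4) * x ^ 2)) := by
    funext y; rw [WL_eq]
  rw [e]
  fun_prop

/-- lower Taylor expansion at the pole -/
lemma WL_low {K t : ℝ} (hK : 0 ≤ K) (ht : 0 < t) {F0 G : ℝ} (hF0 : 0 < F0) (hG : 0 < G) {D : ℝ → ℝ}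
    (hD0 : ∀ h, 0 ≤ D h) (hD : ∀ h, D h ≤ G * |h| * (1 + G * |h| / F0)) {ε : ℝ} (hε : 0 < ε) :
    ∀ᶠ h in 𝓝 (0 : ℝ), WL K t 0 + 0 * h + (-(mc K t * G ^ 2 * WL K t 0)) * h ^ 2 / 2 - ε * h ^ 2 ≤
      WL K t (D h ^ 2) := by
  have hW0 := WL_pos (K := K) ht 0
  have hm : 0 < mc K t := by unfold mc; positivity
  set c : ℝ := mc K t / 2 * WL K t 0 * G ^ 2 with hc
  have hc0 : 0 < c := by positivity
  have hlim : Tendsto (fun h : ℝ => c * ((1 + G * |h| / F0) ^ 2 - 1)) (𝓝 0)
      (𝓝 (c * ((1 + G * |(0:ℝ)| / F0) ^ 2 - 1))) := by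
    apply Continuous.tendsto
    fun_prop
  simp only [abs_zero, mul_zero, zero_div, add_zero, one_pow, sub_self] at hlim
  filter_upwards [hlim.eventually (gt_mem_nhds hε)] with h hh
  have h1 : D h ^ 2 ≤ G ^ 2 * h ^ 2 * (1 + G * |h| / F0) ^ 2 := by
    calc D h ^ 2 ≤ (G * |h| * (1 + G * |h| / F0)) ^ 2 := pow_le_pow_left₀ (hD0 h) (hD h) 2
      _ = G ^ 2 * |h| ^ 2 * (1 + G * |h| / F0) ^ 2 := by ring
      _ = _ := by rw [sq_abs]
  have h2 := WL_anti (K := K) hK ht h1
  refine le_trans ?_ h2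
  have h3 : WL K t (G ^ 2 * h ^ 2 * (1 + G * |h| / F0) ^ 2) ≥
      WL K t 0 * (1 - mc K t / 2 * (G ^ 2 * h ^ 2 * (1 + G * |h| / F0) ^ 2)) := by
    rw [WL_eq, WL_eq K t 0]
    simp only [mul_zero, neg_zero, Real.exp_zero, mul_one]
    refine mul_le_mul_of_nonneg_left ?_ (by positivity)
    have e : 1 / (4 * t) + K / 4 = mc K t / 2 := by
      unfold mc
      have : 1 / (4 * t) = 1 / (2 * t) / 2 := by
        rw [div_div]; congr 1; ring
      rw [this]; ring
    rw [e]
    have := Real.add_one_le_exp (-(mc K t / 2 * (G ^ 2 * h ^ 2 * (1 + G * |h| / F0) ^ 2)))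
    linarith
  refine le_trans ?_ h3
  have h4 : c * ((1 + G * |h| / F0) ^ 2 - 1) * h ^ 2 ≤ ε * h ^ 2 :=
    mul_le_mul_of_nonneg_right hh.le (sq_nonneg h)
  have e1 : WL K t 0 * (1 - mc K t / 2 * (G ^ 2 * h ^ 2 * (1 + G * |h| / F0) ^ 2)) =
      WL K t 0 + 0 * h + (-(mc K t * G ^ 2 * WL K t 0)) * h ^ 2 / 2 -
        c * ((1 + G * |h| / F0) ^ 2 - 1) * h ^ 2 := by
    rw [hc]; ring
  rw [e1]
  linarith

theorem l1a (hR : T_RHO) (hL : T_LOC) (hJ : T_JET) (hDD : T_DD) : T_L1A := by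
  intro F K hF hB ε hε hε1 y t ht htε htK p hp
  have DD := hDD F hF
  have hK1 := hB.K1
  have hK0 : 0 ≤ K := by linarith
  -- the difference is positive at the point
  have hpos : 0 < WL K t (dd F y p ^ 2) - WL K t (ε ^ 2) := by
    unfold psiL at hp
    rcases lt_max_iff.mp hp with h | h
    · exact absurd h (lt_irrefl _)
    · exact h
  have hρε : dd F y p ^ 2 < ε ^ 2 := by
    by_contra hcon
    push Not at hcon
    have := WL_anti (K := K) hK0 ht hcon
    linarith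
  -- monotonicity in time of the subtracted term
  have he' : 0 ≤ (-(K + K ^ 2) - 1 / t + ε ^ 2 / (4 * t ^ 2)) * WL K t (ε ^ 2) := by
    apply mul_nonneg _ (WL_pos ht _).le
    have h1 : K + K ^ 2 ≤ 1 / t := by
      have hKK : 0 < K + K ^ 2 := by positivity
      rw [le_div_iff₀ ht]
      calc (K + K ^ 2) * t ≤ (K + K ^ 2) * (K + K ^ 2)⁻¹ := mul_le_mul_of_nonneg_left htK hKK.le
        _ = 1 := mul_inv_cancel₀ hKK.ne'
    have h2 : 2 / t ≤ ε ^ 2 / (4 * t ^ 2) := by
      rw [div_le_div_iff₀ ht (by positivity)]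
      nlinarith
    have h3 : 2 / t = 1 / t + 1 / t := by ring
    linarith
  have hmono : SubJet F (fun t p => WL K t (dd F y p ^ 2) + -(WL K t (ε ^ 2))) t p →
      SubJet F (psiL F K ε y) t p := by
    intro h
    refine hJ.mono F _ _ t p ?_ ?_ h
    · unfold psiL
      rw [max_eq_right hpos.le]; ring
    · refine Eventually.of_forall fun z => ?_
      unfold psiL
      have := le_max_right 0 (WL K z.1 (dd F y z.2 ^ 2) - WL K z.1 (ε ^ 2))
      show WL K z.1 (dd F y z.2 ^ 2) + -(WL K z.1 (ε ^ 2)) ≤ _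
      linarith
  apply hmono
  rcases eq_or_ne p y with hpy | hpy
  · -- the pole
    subst hpy
    have hd0 : dd F p p = 0 := DD.self p
    have hFp := hF.pos p.1
    have hF0 := hF.pos 0
    set e := (-(K + K ^ 2) - 1 / t + ε ^ 2 / (4 * t ^ 2)) * WL K t (ε ^ 2) with he
    have hder : HasDerivAt (fun τ => WL K τ (dd F p p ^ 2) + -(WL K τ (ε ^ 2)))
        ((-(K + K ^ 2) - 1 / t + 0 / (4 * t ^ 2)) * WL K t 0 + -e) t := by
      rw [hd0]
      norm_num only [ne_eq, OfNat.ofNat_ne_zero, not_false_eq_true, zero_pow]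
      exact (WL_hasDerivAt_t ht 0).add (WL_hasDerivAt_t ht (ε ^ 2)).neg
    refine ⟨(-(K + K ^ 2) - 1 / t + 0 / (4 * t ^ 2)) * WL K t 0 + -e, 0,
      -(mc K t * 1 ^ 2 * WL K t 0), 0, -(mc K t * F p.1 ^ 2 * WL K t 0), ?_, ?_, ?_, ?_⟩
    · intro η hη
      have h1 := (hasDerivAt_iff_isLittleO_nhds_zero.mp hder).def hη
      have h2 : Tendsto (fun h : ℝ => -h) (𝓝[>] 0) (𝓝 0) := by
        have : Tendsto (fun h : ℝ => -h) (𝓝 0) (𝓝 (-0)) := continuous_neg.tendsto 0
        rw [neg_zero] at this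
        exact this.mono_left nhdsWithin_le_nhds
      filter_upwards [h2.eventually h1, self_mem_nhdsWithin] with h hh (hpos : 0 < h)
      have h3 := (abs_le.mp hh).1
      rw [smul_eq_mul, Real.norm_eq_abs, abs_neg, abs_of_pos hpos] at h3
      have : t + -h = t - h := by ring
      rw [this] at h3
      linarith
    · intro η hη
      have h1 := WL_low (K := K) (t := t) hK0 ht hF0 one_pos (D := fun h => dd F p (p.1 + h, p.2))
        (fun h => DD.nn _ _) (by
          intro h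
          have := (hL F hF p (p.1 + h, p.2)).2.1
          have e : nn F p (p.1 + h, p.2) = 1 * |h| := by
            unfold nn
            simp only [add_sub_cancel_left, sub_self]
            norm_num
            exact Real.sqrt_sq_eq_abs h
          rw [e] at this
          exact this) hη
      filter_upwards [h1] with h hh
      show WL K t (dd F p p ^ 2) + -(WL K t (ε ^ 2)) + 0 * h +
        (-(mc K t * 1 ^ 2 * WL K t 0)) * h ^ 2 / 2 - η * h ^ 2 ≤
        WL K t (dd F p (p.1 + h, p.2) ^ 2) + -(WL K t (ε ^ 2))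
      rw [hd0]
      norm_num only [ne_eq, OfNat.ofNat_ne_zero, not_false_eq_true, zero_pow]
      norm_num only at hh
      linarith
    · intro η hη
      have h1 := WL_low (K := K) (t := t) hK0 ht hF0 hFp (D := fun h => dd F p (p.1, p.2 + h))
        (fun h => DD.nn _ _) (by
          intro h
          have := (hL F hF p (p.1, p.2 + h)).2.1
          have e : nn F p (p.1, p.2 + h) = F p.1 * |h| := by
            unfold nn
            simp only [add_sub_cancel_left, sub_self]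
            have : (0:ℝ) ^ 2 + F p.1 ^ 2 * h ^ 2 = (F p.1 * h) ^ 2 := by ring
            rw [this, Real.sqrt_sq_eq_abs, abs_mul, abs_of_pos hFp]
          rw [e] at this
          exact this) hη
      filter_upwards [h1] with h hh
      show WL K t (dd F p p ^ 2) + -(WL K t (ε ^ 2)) + 0 * h +
        (-(mc K t * F p.1 ^ 2 * WL K t 0)) * h ^ 2 / 2 - η * h ^ 2 ≤
        WL K t (dd F p (p.1, p.2 + h) ^ 2) + -(WL K t (ε ^ 2))
      rw [hd0]
      norm_num only [ne_eq, OfNat.ofNat_ne_zero, not_false_eq_true, zero_pow]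
      linarith
    · have e2 : -(mc K t * F p.1 ^ 2 * WL K t 0) / F p.1 ^ 2 = -(mc K t * WL K t 0) := by
        field_simp
      rw [e2]
      have hW := WL_pos (K := K) ht 0
      have : mc K t * WL K t 0 + mc K t * WL K t 0 = (1 / t + K) * WL K t 0 := by
        unfold mc
        have : 1 / (2 * t) = 1 / t / 2 := by rw [div_div]; congr 1; ring
        rw [this]; ring
      have h5 : 0 ≤ K ^ 2 * WL K t 0 := by positivity
      simp only [zero_div, add_zero, mul_zero, one_pow, mul_one]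
      nlinarith
  · -- away from the pole
    obtain ⟨r1, r2, r3, r4, -, -⟩ := hR F K hF hB y p hpy
    have hρ0 : 0 < dd F y p := DD.pos y p (Ne.symm hpy)
    have hρ1 : dd F y p < 1 := by
      have : dd F y p < ε := lt_of_pow_lt_pow_left₀ 2 hε.le hρε
      linarith
    set ρ : ℝ := dd F y p with hρ
    have j1 : SubJet F (fun t p => WL K t (dd F y p ^ 2)) t p := by
      refine hJ.cls F _ t p ((-(K + K ^ 2) - 1 / t + ρ ^ 2 / (4 * t ^ 2)) * WL K t (ρ ^ 2))
        (contDiffAt_comp_real (g := fun x => WL K t (x ^ 2)) r1 (WL_contDiff K t)) (WL_hasDerivAt_t ht _) ?_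
      have hLB := LB_comp F r1 (WL_hasDerivAt_r K t) (WL_hasDerivAt_rr K t (dd F y p))
      rw [hLB, r2, ← hρ]
      have hm : 0 < mc K t := by unfold mc; positivity
      have hW := WL_pos (K := K) ht (ρ ^ 2)
      have s1 : -(mc K t * ρ) * WL K t (ρ ^ 2) * LB F (dd F y) p ≥
          -(mc K t * ρ) * WL K t (ρ ^ 2) * (1 / ρ + K * ρ) := by
        have : 0 ≤ mc K t * ρ * WL K t (ρ ^ 2) := by positivity
        nlinarith [mul_le_mul_of_nonneg_left r4 this]
      refine le_trans ?_ (add_le_add le_rfl s1)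
      have s2 : (-mc K t + mc K t ^ 2 * ρ ^ 2) * WL K t (ρ ^ 2) * 1 +
          -(mc K t * ρ) * WL K t (ρ ^ 2) * (1 / ρ + K * ρ) =
          (-(2 * mc K t) + mc K t * (mc K t - K) * ρ ^ 2) * WL K t (ρ ^ 2) := by
        field_simp; ring
      rw [s2]
      refine mul_le_mul_of_nonneg_right ?_ hW.le
      have s3 : 2 * mc K t = 1 / t + K := by
        unfold mc
        have : 1 / (2 * t) = 1 / t / 2 := by rw [div_div]; congr 1; ring
        rw [this]; ring
      have s4 : mc K t * (mc K t - K) = 1 / (4 * t ^ 2) - K ^ 2 / 4 := by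
        unfold mc
        field_simp; ring
      rw [s3, s4]
      have s5 : ρ ^ 2 / (4 * t ^ 2) = 1 / (4 * t ^ 2) * ρ ^ 2 := by ring
      rw [s5]
      have s6 : ρ ^ 2 ≤ 1 := by nlinarith
      nlinarith [mul_le_mul_of_nonneg_left s6 (sq_nonneg K)]
    have j2 : SubJet F (fun (τ : ℝ) (_ : X) => -(WL K τ (ε ^ 2))) t p := by
      refine hJ.cls F _ t p (-((-(K + K ^ 2) - 1 / t + ε ^ 2 / (4 * t ^ 2)) * WL K t (ε ^ 2)))
        contDiffAt_const (WL_hasDerivAt_t ht _).neg ?_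
      have e : LB F (fun _ : X => -(WL K t (ε ^ 2))) p = 0 := by
        unfold LB ds dp; simp
      rw [e]
      linarith
    exact hJ.add F _ _ t p j1 j2

end Pool.Agent.H96.HK
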