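import Pool.Agent.H96.HK.Basic

/-!
# MP_e94f6f_an: module L2 (chaining along a geodesic)
-/

open MeasureTheory Set Filter Topology
open scoped ContDiff

namespace Pool.Agent.H96.HK

/-- the exponent bookkeeping of one step -/
lemma chain_exp (A B C D : ℝ) (a b : ℝ) (ha : 0 ≤ a) (hb : 0 ≤ b) (h : D ≤ A + B)
    {x y : ℝ} (hx : a * Real.exp A ≤ x) (hy : b * Real.exp B ≤ y) (hC : C ≤ a * b) (hC0 : 0 ≤ C) :
    C * Real.exp D ≤ x * y := by
  calc C * Real.exp D ≤ (a * b) * Real.exp (A + B) := by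
        apply mul_le_mul hC (Real.exp_le_exp.mpr h) (Real.exp_pos _).le (by positivity)
    _ = (a * Real.exp A) * (b * Real.exp B) := by rw [Real.exp_add]; ring
    _ ≤ x * y := mul_le_mul hx hy (by positivity) ((by positivity : (0:ℝ) ≤ a * Real.exp A).trans hx)

theorem l2 (h1 : T_L1) (h2 : T_SG) (h3 : T_GEO) (h4 : T_ENER) (h5 : T_DQ) (h6 : T_DD) : T_L2 := by
  intro F H hF hH R hR T hT
  obtain ⟨ε, hε, c1, hc1, t0, ht0, hL1⟩ := h1 F H hF hH
  have DD := h6 F hF
  have DQ := h5 F hF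
  set R' : ℝ := 3 * R + 2 with hR'
  have hR'0 : 0 < R' := by positivity
  obtain ⟨C, hC, hEN⟩ := h4 F hF R' hR'0
  -- number of steps
  obtain ⟨N, hN1, hN2, hN3⟩ : ∃ N : ℕ, 1 ≤ N ∧ (2 * R + 1) / N ≤ ε / 2 ∧ T / N ≤ t0 := by
    refine ⟨⌈2 * (2 * R + 1) / ε⌉₊ + ⌈T / t0⌉₊ + 1, by omega, ?_, ?_⟩
    · have hpos : (0:ℝ) < ((⌈2 * (2 * R + 1) / ε⌉₊ + ⌈T / t0⌉₊ + 1 : ℕ) : ℝ) := by positivity
      rw [div_le_iff₀ hpos]
      have e : 2 * (2 * R + 1) / ε ≤ ((⌈2 * (2 * R + 1) / ε⌉₊ + ⌈T / t0⌉₊ + 1 : ℕ) : ℝ) := by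
        push_cast
        have := Nat.le_ceil (2 * (2 * R + 1) / ε)
        have : (0:ℝ) ≤ (⌈T / t0⌉₊ : ℝ) := by positivity
        linarith
      rw [div_le_iff₀ hε] at e
      linarith
    · have hpos : (0:ℝ) < ((⌈2 * (2 * R + 1) / ε⌉₊ + ⌈T / t0⌉₊ + 1 : ℕ) : ℝ) := by positivity
      rw [div_le_iff₀ hpos]
      have e : T / t0 ≤ ((⌈2 * (2 * R + 1) / ε⌉₊ + ⌈T / t0⌉₊ + 1 : ℕ) : ℝ) := by
        push_cast
        have := Nat.le_ceil (T / t0)
        have : (0:ℝ) ≤ (⌈2 * (2 * R + 1) / ε⌉₊ : ℝ) := by positivity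
        linarith
      rw [div_le_iff₀ ht0] at e
      linarith
  have hN0 : (0:ℝ) < N := by exact_mod_cast hN1
  -- width of the boxes
  set e1 : ℝ := min (1 / 2) (ε / (4 * (2 + R'))) with he1
  have he1pos : 0 < e1 := lt_min (by norm_num) (by positivity)
  have he1half : e1 ≤ 1 / 2 := min_le_left _ _
  have he1ε : (2 + R') * e1 ≤ ε / 4 := by
    have : e1 ≤ ε / (4 * (2 + R')) := min_le_right _ _
    rw [le_div_iff₀ (by positivity)] at this
    linarith
  have hF0 : 0 < F 0 := hF.pos 0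
  set m0 : ℝ := c1 * N / (4 * Real.pi) * Real.exp (-(C * N)) with hm0
  have hm0pos : 0 < m0 := by positivity
  set κ : ℝ := F 0 * min 1 (e1 ^ 2 / T) * m0 with hκ
  have hκpos : 0 < κ := by
    have : 0 < min 1 (e1 ^ 2 / T) := lt_min one_pos (by positivity)
    positivity
  refine ⟨m0 * κ ^ (N - 1) * (4 * Real.pi), by positivity, ?_⟩
  intro p q hp hq t ht
  obtain ⟨k, hk⟩ := DQ.att p q
  set q' : X := gk k q with hq'
  have hHq : H t p q = H t p q' := (hH.inv_right ht.1 p q k).symm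
  rw [hHq, hk]
  set l : ℝ := dd F p q' with hl
  have hl0 : 0 ≤ l := DD.nn _ _
  have hl1 : l ≤ 2 * R + 1 := by
    rw [← hk]
    have := DQ.up p q
    linarith
  obtain ⟨c, a, b, hgeo, hc0, hcl, hmin⟩ := h3 F hF p q'
  rw [← hl] at hcl
  have hcb : ∀ r, 0 ≤ r → r ≤ l → |(c r).1| ≤ R' := by
    intro r hr0 hrl
    have f1 := DD.ge1 (c 0) (c r)
    rw [hmin 0 r le_rfl hr0, hc0] at f1
    have e2 : |(c r).1| ≤ |p.1| + |p.1 - (c r).1| := by
      have := abs_sub_abs_le_abs_sub ((c r).1) p.1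
      rw [abs_sub_comm] at this
      linarith
    rw [hR']; linarith
  have ht0' : 0 < t := ht.1
  set h : ℝ := t / N with hh
  have hhpos : 0 < h := by positivity
  have hNh : N * h = t := by rw [hh]; field_simp
  have hht0 : h ≤ t0 := (div_le_div_of_nonneg_right ht.2 hN0.le).trans hN3
  set lam : ℝ := l / N with hlam
  have hlam0 : 0 ≤ lam := by positivity
  have hNlam : N * lam = l := by rw [hlam]; field_simp
  have hlamε : lam ≤ ε / 2 := (div_le_div_of_nonneg_right hl1 hN0.le).trans hN2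
  have hlamR : lam ≤ R' := by
    have : lam ≤ l := by
      rw [hlam]; exact div_le_self hl0 (by exact_mod_cast hN1)
    rw [hR']; linarith
  set r : ℝ := min (√t) e1 with hr
  have hrpos : 0 < r := lt_min (Real.sqrt_pos.mpr ht0') he1pos
  have hre1 : r ≤ e1 := min_le_right _ _
  have hr2 : r ^ 2 ≤ t := by
    have : r ≤ √t := min_le_left _ _
    calc r ^ 2 ≤ (√t) ^ 2 := pow_le_pow_left₀ hrpos.le this 2
      _ = t := Real.sq_sqrt ht0'.le
  have hr2' : min 1 (e1 ^ 2 / T) ≤ r ^ 2 / t := by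
    rw [le_div_iff₀ ht0']
    rcases le_total (√t) e1 with hle | hle
    · have : r = √t := min_eq_left hle
      rw [this, Real.sq_sqrt ht0'.le]
      calc min 1 (e1 ^ 2 / T) * t ≤ 1 * t := mul_le_mul_of_nonneg_right (min_le_left _ _) ht0'.le
        _ = t := one_mul t
    · have : r = e1 := min_eq_right hle
      rw [this]
      calc min 1 (e1 ^ 2 / T) * t ≤ e1 ^ 2 / T * t :=
            mul_le_mul_of_nonneg_right (min_le_right _ _) ht0'.le
        _ ≤ e1 ^ 2 / T * T := mul_le_mul_of_nonneg_left ht.2 (by positivity)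
        _ = e1 ^ 2 := by field_simp
  -- one step
  have step : ∀ x : ℝ, 0 ≤ x → x + lam ≤ l → ∀ δ' δ : X, |δ'.1| ≤ r → |δ'.2| ≤ r → |δ.1| ≤ r →
      |δ.2| ≤ r → m0 / t * Real.exp (-(lam ^ 2 / (4 * h)) -
        lam * (ip F c a b (x + lam) δ - ip F c a b x δ') / (2 * h)) ≤
        H h (c x + δ') (c (x + lam) + δ) := by
    intro x hx0 hxl δ' δ hd1 hd2 hd3 hd4
    have hr1 : r ≤ 1 := by linarith
    have hcx := hcb x hx0 (by linarith)
    have hcx' := hcb (x + lam) (by linarith) hxl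
    have hd : dd F (c x + δ') (c (x + lam) + δ) ≤ ε := by
      have f1 := DD.tri (c x + δ') (c x) (c (x + lam) + δ)
      have f2 := DD.tri (c x) (c (x + lam)) (c (x + lam) + δ)
      have e3 := hmin x (x + lam) hx0 (by linarith)
      have e4 : dd F (c x + δ') (c x) ≤ (2 + R') * r := by
        rw [DD.symm]
        refine (DD.le1 _ _).trans ?_
        have : |(c x).1 - (c x + δ').1| = |δ'.1| := by
          simp [Prod.fst_add]
        rw [this]
        have : |(c x).2 - (c x + δ').2| = |δ'.2| := by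
          simp [Prod.snd_add]
        rw [this]
        have := mul_le_mul (add_le_add_left hcx 1) hd2 (abs_nonneg _) (by linarith)
        linarith
      have e5 : dd F (c (x + lam)) (c (x + lam) + δ) ≤ (2 + R') * r := by
        refine (DD.le1 _ _).trans ?_
        have : |(c (x + lam)).1 - (c (x + lam) + δ).1| = |δ.1| := by
          simp [Prod.fst_add]
        rw [this]
        have : |(c (x + lam)).2 - (c (x + lam) + δ).2| = |δ.2| := by
          simp [Prod.snd_add]
        rw [this]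
        have := mul_le_mul (add_le_add_left hcx' 1) hd4 (abs_nonneg _) (by linarith)
        linarith
      have e6 : (2 + R') * r ≤ (2 + R') * e1 := mul_le_mul_of_nonneg_left hre1 (by positivity)
      linarith
    have hE := hEN c a b hgeo x lam hcx hlam0 hlamR δ' δ (hd1.trans hr1) (hd2.trans hr1)
      (hd3.trans hr1) (hd4.trans hr1)
    refine le_trans ?_ (hL1 _ _ hd h ⟨hhpos, hht0⟩)
    refine le_trans ?_ (mul_le_mul_of_nonneg_left (E2_anti hhpos hE) hc1.le)
    unfold E2
    have sq_le : ∀ y : ℝ, |y| ≤ r → y ^ 2 ≤ r ^ 2 := fun y hy => by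
      rw [← sq_abs]; exact pow_le_pow_left₀ (abs_nonneg _) hy 2
    have hsum : C * (δ'.1 ^ 2 + δ'.2 ^ 2 + δ.1 ^ 2 + δ.2 ^ 2) ≤ C * N * (4 * h) := by
      have f1 := sq_le _ hd1
      have f2 := sq_le _ hd2
      have e3 := sq_le _ hd3
      have e4 := sq_le _ hd4
      calc C * (δ'.1 ^ 2 + δ'.2 ^ 2 + δ.1 ^ 2 + δ.2 ^ 2) ≤ C * (4 * t) :=
            mul_le_mul_of_nonneg_left (by linarith) hC.le
        _ = C * N * (4 * h) := by rw [← hNh]; ring
    have eqc : m0 / t = c1 * (4 * Real.pi * h)⁻¹ * Real.exp (-(C * N)) := by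
      rw [hm0, hh]; field_simp
    rw [eqc]
    have : c1 * (4 * Real.pi * h)⁻¹ * Real.exp (-(C * N)) *
        Real.exp (-(lam ^ 2 / (4 * h)) - lam * (ip F c a b (x + lam) δ - ip F c a b x δ') / (2 * h)) =
        c1 * ((4 * Real.pi * h)⁻¹ * Real.exp (-(C * N) + (-(lam ^ 2 / (4 * h)) -
          lam * (ip F c a b (x + lam) δ - ip F c a b x δ') / (2 * h)))) := by
      rw [Real.exp_add]; ring
    rw [this]
    refine mul_le_mul_of_nonneg_left (mul_le_mul_of_nonneg_left (Real.exp_le_exp.mpr ?_)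
      (by positivity)) hc1.le
    have h4 : 0 < 4 * h := by positivity
    have key : (lam ^ 2 + 2 * lam * (ip F c a b (x + lam) δ - ip F c a b x δ') +
        C * (δ'.1 ^ 2 + δ'.2 ^ 2 + δ.1 ^ 2 + δ.2 ^ 2)) / (4 * h) ≤
        (lam ^ 2 + 2 * lam * (ip F c a b (x + lam) δ - ip F c a b x δ') + C * N * (4 * h)) / (4 * h) :=
      div_le_div_of_nonneg_right (by linarith) h4.le
    have e : (lam ^ 2 + 2 * lam * (ip F c a b (x + lam) δ - ip F c a b x δ') + C * N * (4 * h)) / (4 * h)
        = lam ^ 2 / (4 * h) + lam * (ip F c a b (x + lam) δ - ip F c a b x δ') / (2 * h) + C * N := by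
      field_simp
      ring
    rw [e] at key
    linarith
  -- induction
  have claim : ∀ j : ℕ, j + 1 ≤ N → ∀ δ : X, |δ.1| ≤ r → |δ.2| ≤ r →
      m0 * κ ^ j / t * Real.exp (-((j + 1 : ℕ) * lam ^ 2 / (4 * h)) -
        lam * ip F c a b ((j + 1 : ℕ) * lam) δ / (2 * h)) ≤
        H ((j + 1 : ℕ) * h) p (c ((j + 1 : ℕ) * lam) + δ) := by
    intro j
    induction j with
    | zero =>
      intro hj δ hd1 hd2
      have := step 0 le_rfl (by
        rw [zero_add, ← hNlam]
        exact le_mul_of_one_le_left hlam0 (by exact_mod_cast hN1)) 0 δ (by simpa using hrpos.le)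
        (by simpa using hrpos.le) hd1 hd2
      rw [hc0] at this
      have hip0 : ip F c a b 0 (0 : X) = 0 := by unfold ip; simp
      rw [hip0] at this
      simpa using this
    | succ j ih =>
      intro hj δ hd1 hd2
      have ih' := ih (by omega)
      set x : ℝ := ((j + 1 : ℕ) : ℝ) * lam with hx
      have hx0 : 0 ≤ x := by positivity
      have hx1 : x + lam = ((j + 1 + 1 : ℕ) : ℝ) * lam := by rw [hx]; push_cast; ring
      have hxl : x + lam ≤ l := by
        rw [hx1, ← hNlam]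
        exact mul_le_mul_of_nonneg_right (by exact_mod_cast hj) hlam0
      have htt : ((j + 1 + 1 : ℕ) : ℝ) * h = ((j + 1 : ℕ) : ℝ) * h + h := by push_cast; ring
      rw [htt, ← hx1]
      have hjh : 0 < ((j + 1 : ℕ) : ℝ) * h := by positivity
      set D : ℝ := -(((j + 1 + 1 : ℕ) : ℝ) * lam ^ 2 / (4 * h)) -
        lam * ip F c a b (x + lam) δ / (2 * h) with hD
      set M : ℝ := (m0 * κ ^ j / t) * (m0 / t) * Real.exp D with hM
      have hM0 : 0 ≤ M := by positivity
      have hSG := h2 F H hF hH (((j + 1 : ℕ) : ℝ) * h) hjh h hhpos p (c (x + lam) + δ) (c x) r hrpos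
        (hre1.trans he1half) M hM0 (by
          intro z hz1 hz2
          have hz : z = c x + (z - c x) := by abel
          have i1 := ih' (z - c x) (by simpa using hz1) (by simpa using hz2)
          have i2 := step x hx0 hxl (z - c x) δ (by simpa using hz1) (by simpa using hz2) hd1 hd2
          rw [← hz] at i1 i2
          refine chain_exp _ _ _ _ _ _ (by positivity) (by positivity) ?_ i1 i2 le_rfl (by positivity)
          rw [hD]
          apply le_of_eq
          push_cast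
          ring)
      refine le_trans ?_ hSG
      rw [hM]
      have e : F 0 * r ^ 2 * (m0 * κ ^ j / t * (m0 / t) * Real.exp D) =
          (m0 * κ ^ j / t) * (F 0 * (r ^ 2 / t) * m0) * Real.exp D := by ring
      rw [e]
      refine mul_le_mul_of_nonneg_right ?_ (Real.exp_pos _).le
      have : m0 * κ ^ (j + 1) / t = (m0 * κ ^ j / t) * κ := by rw [pow_succ]; ring
      rw [this]
      refine mul_le_mul_of_nonneg_left ?_ (by positivity)
      rw [hκ]
      gcongr
  have fin := claim (N - 1) (by omega) 0 (by simpa using hrpos.le) (by simpa using hrpos.le)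
  have hN' : N - 1 + 1 = N := by omega
  rw [hN', hNh, hNlam, hcl, add_zero] at fin
  have hip0 : ip F c a b l (0 : X) = 0 := by unfold ip; simp
  rw [hip0] at fin
  refine le_trans (le_of_eq ?_) fin
  unfold E2
  have e : (N : ℝ) * lam ^ 2 / (4 * h) = l ^ 2 / (4 * t) := by
    rw [hlam, hh]; field_simp
  rw [e, mul_zero, zero_div, sub_zero]
  field_simp

end Pool.Agent.H96.HK
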