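import Pool.Agent.H96.HK.Basic

/-!
# MP_e94f6f_an: modules L4, UPPER, LOWER
-/

open MeasureTheory Set Filter Topology
open scoped ContDiff

namespace Pool.Agent.H96.HK

theorem l4 (hM : T_MAX) (hA : T_L4A) (hZ : T_ZH) : T_L4 := by
  intro F H hF hH
  obtain ⟨-, -, -, -, Z5, -⟩ := hZ F hF
  refine ⟨1 / 8, by norm_num, 1 / 50, by norm_num, ?_⟩
  intro p q hp hq t ht
  set j : ℤ := round ((p.2 - q.2) / Real.pi) with hj
  have hpi := Real.pi_pos
  have hj1 : |p.2 - q.2 - j * Real.pi| ≤ Real.pi / 2 := by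
    have h := abs_sub_round ((p.2 - q.2) / Real.pi)
    have e : p.2 - q.2 - j * Real.pi = ((p.2 - q.2) / Real.pi - j) * Real.pi := by
      field_simp
    rw [e, abs_mul, abs_of_pos hpi]
    calc |(p.2 - q.2) / Real.pi - j| * Real.pi ≤ 1 / 2 * Real.pi :=
          mul_le_mul_of_nonneg_right h hpi.le
      _ = Real.pi / 2 := by ring
  have hq1 : (gk (2 * j) q).1 = q.1 := by
    rw [gk_fst, zpow_mul]
    norm_num
  have hq2 : (gk (2 * j) q).2 = q.2 + j * Real.pi := by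
    rw [gk_snd]; push_cast; ring
  have hang : p.2 - (gk (2 * j) q).2 = p.2 - q.2 - j * Real.pi := by rw [hq2]; ring
  obtain ⟨ψ, Kc, k1, k2, k3, k4, k5, k6, k7, k8⟩ := hA F hF p (gk (2 * j) q) hp (by rw [hq1]; exact hq)
    (by rw [hang]; exact hj1)
  have hmax := hM F H hF hH (gk (2 * j) q) (1 / 50) ψ Kc (by norm_num) k1 k2
    (k3.mono (prod_mono (fun x hx => hx.1) subset_rfl)) (fun t ht z => k4 t ht.1 z)
    (fun t ht z => k5 t ht.1 z) (fun t ht z => k6 t ht.1 z) k7 t ht p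
  rw [hH.inv_right ht.1 p q (2 * j)] at hmax
  refine le_trans ?_ ((k8 t ht).trans hmax)
  have hcos : 0 ≤ Real.cos (p.2 - (gk (2 * j) q).2) := by
    rw [hang]
    exact Real.cos_nonneg_of_mem_Icc ⟨by linarith [(abs_le.mp hj1).1], (abs_le.mp hj1).2⟩
  have hcos2 : Real.cos (p.2 - (gk (2 * j) q).2) = |Real.cos (p.2 - q.2)| := by
    rw [← abs_of_nonneg hcos, hang, Real.cos_sub_int_mul_pi, abs_mul]
    rw [abs_neg_one_zpow, one_mul]
  have hcm : cm p (gk (2 * j) q) ≤ min (cm p q) (cp p q) := by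
    unfold cm cp
    rw [hcos2, hq1]
    have h1 := le_abs_self (Real.cos (p.2 - q.2))
    have h2 := neg_abs_le (Real.cos (p.2 - q.2))
    have h3 : 0 ≤ 2 * p.1 * q.1 := by
      have : 0 ≤ p.1 := by linarith
      have : 0 ≤ q.1 := by linarith
      positivity
    apply le_min
    · nlinarith [mul_le_mul_of_nonneg_left h1 h3]
    · nlinarith [mul_le_mul_of_nonneg_left h2 h3]
  have h1 := (Z5 t ht.1 p q).2
  have h2 := E2_anti ht.1 hcm
  linarith

lemma exists_gk_pos (p : X) : ∃ k : ℤ, (gk k p).1 = |p.1| := by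
  rcases le_total 0 p.1 with h | h
  · exact ⟨0, by rw [gk_zero, abs_of_nonneg h]⟩
  · exact ⟨1, by rw [gk_one, abs_of_nonpos h]; rfl⟩

theorem upper (h4 : T_U4) (h5 : T_U5) (hZ : T_ZH) (hDQ : T_DQ) : T_UPPER := by
  intro F H hF hH
  have DQ := hDQ F hF
  obtain ⟨C4, hC4, H4⟩ := h4 F H hF hH
  obtain ⟨C5, hC5, H5⟩ := h5 F H hF hH
  obtain ⟨-, -, -, -, Z5, -⟩ := hZ F hF
  refine ⟨max C4 (2 * C5), lt_max_of_lt_left hC4, ?_⟩
  intro t ht p q
  have hE := E2_pos' ht (dq F p q ^ 2)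
  rcases le_or_gt |q.1| 3 with hq | hq
  · exact (H4 p q hq t ht).trans (mul_le_mul_of_nonneg_right (le_max_left _ _) hE.le)
  rcases le_or_gt |p.1| 3 with hp | hp
  · rw [hH.symm t ht, DQ.symm p q] at *
    exact (H4 q p hp t ht).trans (mul_le_mul_of_nonneg_right (le_max_left _ _) hE.le)
  obtain ⟨k, hk⟩ := exists_gk_pos p
  obtain ⟨j, hj⟩ := exists_gk_pos q
  rw [← hH.inv_left ht p q k, ← DQ.inv' k p q, ← hH.inv_right ht (gk k p) q j,
    ← DQ.inv j (gk k p) q]
  have hs : √2 ≤ (2:ℝ) := by rw [Real.sqrt_le_left (by norm_num)]; norm_num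
  have h := H5 (gk k p) (gk j q) (by rw [hk]; linarith) (by rw [hj]; linarith) t ht
  have hz := (Z5 t ht (gk k p) (gk j q)).2
  rw [← DQ.cone (gk k p) (gk j q) (by rw [hk]; linarith) (by rw [hj]; linarith)] at hz
  have hE' := E2_pos' ht (dq F (gk k p) (gk j q) ^ 2)
  calc H t (gk k p) (gk j q) ≤ C5 * (2 * E2 t (dq F (gk k p) (gk j q) ^ 2)) :=
        h.trans (mul_le_mul_of_nonneg_left hz hC5.le)
    _ = (2 * C5) * E2 t (dq F (gk k p) (gk j q) ^ 2) := by ring
    _ ≤ _ := mul_le_mul_of_nonneg_right (le_max_right _ _) hE'.le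

/-- pole in the core -/
lemma lower_core (h2 : T_L2) (h3 : T_L3) (h6 : T_L6) (hDQ : T_DQ) {F : ℝ → ℝ}
    {H : ℝ → X → X → ℝ} (hF : Prof F) (hH : Heat F H) : ∃ c > 0, ∀ p q : X, |q.1| ≤ 3 → ∀ t > 0,
      c * E2 t (dq F p q ^ 2) ≤ H t p q := by
  have DQ := hDQ F hF
  obtain ⟨R1, c6, hc6, H6⟩ := h6 F H hF hH 1 one_pos
  obtain ⟨c3, hc3, H3⟩ := h3 F H hF hH
  set R : ℝ := max R1 3 with hR
  have hR3 : 3 ≤ R := le_max_right _ _
  have hR1 : R1 ≤ R := le_max_left _ _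
  obtain ⟨c2, hc2, H2⟩ := h2 F H hF hH R (by linarith) (1 + R) (by linarith)
  -- large times
  have large : ∀ p q : X, |q.1| ≤ 3 → ∀ t, 1 + |p.1| ≤ t →
      c3 * Real.exp (-5) * E2 t (dq F p q ^ 2) ≤ H t p q := by
    intro p q hq t ht
    have hp0 := abs_nonneg p.1
    have ht1 : 1 ≤ t := by linarith
    have ht0 : 0 < t := by linarith
    refine le_trans ?_ (H3 p q hq t ht1)
    unfold E2
    have hpi := Real.pi_gt_three
    have e1 : (4 * Real.pi * t)⁻¹ ≤ 1 / t := by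
      rw [inv_eq_one_div]
      exact one_div_le_one_div_of_le ht0 (by nlinarith)
    have hdq0 := DQ.nn p q
    have hp2 : p.1 ^ 2 = |p.1| ^ 2 := (sq_abs _).symm
    have e2 : p.1 ^ 2 / (4 * (t - 1 / 2)) ≤ 5 + dq F p q ^ 2 / (4 * t) := by
      rw [hp2]
      set x : ℝ := |p.1| with hx
      have hlo : x - 3 ≤ dq F p q := by
        have := DQ.lo p q
        linarith
      have a1 : x ^ 2 / (4 * (t - 1 / 2)) = x ^ 2 / (4 * t) + x ^ 2 / (8 * t * (t - 1 / 2)) := by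
        obtain ⟨w, hw⟩ : ∃ w, w = t - 1 / 2 := ⟨_, rfl⟩
        have h1 : w ≠ 0 := by
          intro h; linarith
        have h2 : t ≠ 0 := ht0.ne'
        rw [← hw]
        have h3 : t = w + 1 / 2 := by linarith
        have h4 : x ^ 2 / (4 * t) + x ^ 2 / (8 * t * w) = x ^ 2 * (2 * w + 1) / (8 * t * w) := by
          field_simp
          ring
        rw [h4, div_eq_div_iff (by positivity) (by positivity)]
        rw [h3]
        ring
      have a2 : x ^ 2 / (8 * t * (t - 1 / 2)) ≤ 1 := by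
        have h0 : 0 < 8 * t * (t - 1 / 2) := by
          have : 0 < t - 1 / 2 := by linarith
          positivity
        rw [div_le_one h0]
        nlinarith
      have a3 : x ^ 2 / (4 * t) ≤ 4 + dq F p q ^ 2 / (4 * t) := by
        have h4 : 0 < 4 * t := by positivity
        rw [div_le_iff₀ h4]
        have e : (4 + dq F p q ^ 2 / (4 * t)) * (4 * t) = 16 * t + dq F p q ^ 2 := by
          field_simp
          ring
        rw [e]
        rcases le_or_gt 3 x with h | h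
        · have : (x - 3) ^ 2 ≤ dq F p q ^ 2 := pow_le_pow_left₀ (by linarith) hlo 2
          nlinarith
        · nlinarith [sq_nonneg (dq F p q)]
      linarith
    have e3 : Real.exp (-5) * Real.exp (-(dq F p q ^ 2 / (4 * t))) ≤
        Real.exp (-(p.1 ^ 2 / (4 * (t - 1 / 2)))) := by
      rw [← Real.exp_add]
      apply Real.exp_le_exp.mpr
      linarith
    calc c3 * Real.exp (-5) * ((4 * Real.pi * t)⁻¹ * Real.exp (-(dq F p q ^ 2 / (4 * t))))
        = c3 * (4 * Real.pi * t)⁻¹ * (Real.exp (-5) * Real.exp (-(dq F p q ^ 2 / (4 * t)))) := by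
          ring
      _ ≤ c3 * (1 / t) * Real.exp (-(p.1 ^ 2 / (4 * (t - 1 / 2)))) := by gcongr
      _ = _ := by ring
  refine ⟨min c6 (min c2 (c3 * Real.exp (-5))), lt_min hc6 (lt_min hc2 (by positivity)), ?_⟩
  intro p q hq t ht
  have hE := E2_pos' ht (dq F p q ^ 2)
  have i1 : min c6 (min c2 (c3 * Real.exp (-5))) ≤ c6 := min_le_left _ _
  have i2 : min c6 (min c2 (c3 * Real.exp (-5))) ≤ c2 :=
    (min_le_right _ _).trans (min_le_left _ _)
  have i3 : min c6 (min c2 (c3 * Real.exp (-5))) ≤ c3 * Real.exp (-5) :=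
    (min_le_right _ _).trans (min_le_right _ _)
  rcases le_or_gt (1 + |p.1|) t with h | h
  · exact (mul_le_mul_of_nonneg_right i3 hE.le).trans (large p q hq t h)
  rcases le_or_gt R |p.1| with h' | h'
  · exact (mul_le_mul_of_nonneg_right i1 hE.le).trans
      (H6 p q hq (by linarith) t ht (by linarith))
  · exact (mul_le_mul_of_nonneg_right i2 hE.le).trans
      (H2 p q h'.le (by linarith) t ⟨ht, by linarith⟩)

theorem lower (h2 : T_L2) (h3 : T_L3) (h5 : T_L5) (h6 : T_L6) (hZ : T_ZH) (hDQ : T_DQ) :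
    T_LOWER := by
  intro F H hF hH
  have DQ := hDQ F hF
  obtain ⟨c, hc, HC⟩ := lower_core h2 h3 h6 hDQ hF hH
  obtain ⟨c5, hc5, H5⟩ := h5 F H hF hH
  obtain ⟨-, -, -, -, Z5, -⟩ := hZ F hF
  refine ⟨min c c5, lt_min hc hc5, ?_⟩
  intro t ht p q
  have hE := E2_pos' ht (dq F p q ^ 2)
  rcases le_or_gt |q.1| 3 with hq | hq
  · exact (mul_le_mul_of_nonneg_right (min_le_left _ _) hE.le).trans (HC p q hq t ht)
  rcases le_or_gt |p.1| 3 with hp | hp
  · rw [hH.symm t ht, DQ.symm p q] at *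
    exact (mul_le_mul_of_nonneg_right (min_le_left _ _) hE.le).trans (HC q p hp t ht)
  obtain ⟨k, hk⟩ := exists_gk_pos p
  obtain ⟨j, hj⟩ := exists_gk_pos q
  rw [← hH.inv_left ht p q k, ← DQ.inv' k p q, ← hH.inv_right ht (gk k p) q j,
    ← DQ.inv j (gk k p) q]
  have hs : √2 ≤ (2:ℝ) := by rw [Real.sqrt_le_left (by norm_num)]; norm_num
  have h := H5 (gk k p) (gk j q) (by rw [hk]; linarith) (by rw [hj]; linarith) t ht
  have hz := (Z5 t ht (gk k p) (gk j q)).1
  rw [← DQ.cone (gk k p) (gk j q) (by rw [hk]; linarith) (by rw [hj]; linarith)] at hz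
  have hE' := E2_pos' ht (dq F (gk k p) (gk j q) ^ 2)
  calc min c c5 * E2 t (dq F (gk k p) (gk j q) ^ 2)
      ≤ c5 * E2 t (dq F (gk k p) (gk j q) ^ 2) :=
        mul_le_mul_of_nonneg_right (min_le_right _ _) hE'.le
    _ ≤ c5 * ZZ t (gk k p) (gk j q) := mul_le_mul_of_nonneg_left hz hc5.le
    _ ≤ _ := h

end Pool.Agent.H96.HK
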