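import Pool.Agent.H96.HK.Basic

/-!
# MP_e94f6f_an: module L5 (both points in the flat part, all times, lower bound)
-/

open MeasureTheory Set Filter Topology
open scoped ContDiff

namespace Pool.Agent.H96.HK

lemma ZZ_pos {t : ℝ} (ht : 0 < t) (p q : X) : 0 < ZZ t p q := by
  unfold ZZ
  have h1 := E2_pos' ht (cm p q)
  have h2 := E2_pos' ht (cp p q)
  linarith

lemma sqrt_two_le_two : √2 ≤ (2:ℝ) := by
  rw [Real.sqrt_le_left (by norm_num)]; norm_num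

/-- comparison with the kernel of the cone in `{a ≤ s}` -/
lemma l5_aux (hC : T_CMPE) (hZ : T_ZH) (hJ : T_JET) {F : ℝ → ℝ} {H : ℝ → X → X → ℝ}
    (hF : Prof F) (hH : Heat F H) {a c t4 : ℝ} (ha : 2 ≤ a) (hc : 0 < c) (ht4 : 0 < t4) (P : X)
    (h1 : ∀ t ∈ Ioc 0 t4, ∀ z : X, a ≤ z.1 → c * ZZ t z P ≤ H t z P)
    (h2 : ∀ t > 0, ∀ φ : ℝ, c * ZZ t (a, φ) P ≤ H t (a, φ) P) :
    ∀ t > 0, ∀ z : X, a ≤ z.1 → c * ZZ t z P ≤ H t z P := by
  intro t ht z hz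
  obtain ⟨Z1, Z2, Z3, Z4, Z5, Z6⟩ := hZ F hF
  rcases le_or_gt t t4 with htt | htt
  · exact h1 t ⟨ht, htt⟩ z hz
  have key := hC F a t4 t (fun t z => c * ZZ t z P + -(H t z P)) hF.pos htt ?_ ?_ ?_ ?_ ?_ ?_ t
    ⟨htt.le, le_rfl⟩ z hz
  · linarith
  · -- continuity
    have sub : (Icc t4 t ×ˢ {p : X | a ≤ p.1}) ⊆ Ioi (0:ℝ) ×ˢ (univ : Set X) := by
      rintro ⟨τ, x⟩ ⟨h1, _⟩
      exact ⟨lt_of_lt_of_le ht4 h1.1, mem_univ _⟩
    have c1 := (Z4 P).mono sub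
    have c2 : ContinuousOn (fun z : ℝ × X => H z.1 z.2 P) (Ioi 0 ×ˢ univ) := by
      have hg : Continuous (fun z : ℝ × X => ((z.1, z.2, P) : ℝ × X × X)) := by fun_prop
      exact hH.cont.comp hg.continuousOn (fun z hz => ⟨hz.1, mem_univ _⟩)
    exact (continuousOn_const.mul c1).add (c2.mono sub).neg
  · intro τ hτ p
    have hτ0 : 0 < τ := lt_of_lt_of_le ht4 hτ.1
    have e1 := Z3 τ p P
    have e2 : H τ (p.1, p.2 + Real.pi) P = H τ p P := (hH.inv τ hτ0 P).pi p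
    show c * ZZ τ (p.1, p.2 + Real.pi) P + -(H τ (p.1, p.2 + Real.pi) P) = _
    rw [e1, e2]
  · intro ε hε
    obtain ⟨R, hR⟩ := Z6 P t4 ht4 t ht (ε / c) (by positivity)
    refine ⟨R, fun τ hτ p hp => ?_⟩
    have hτ0 : 0 < τ := lt_of_lt_of_le ht4 hτ.1
    have e1 := hR τ hτ p hp
    have e2 := hH.nn τ hτ0 p P
    rw [le_div_iff₀ hc] at e1
    show c * ZZ τ p P + -(H τ p P) ≤ ε
    linarith
  · intro p hp
    have := h1 t4 ⟨ht4, le_rfl⟩ p hp
    show c * ZZ t4 p P + -(H t4 p P) ≤ 0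
    linarith
  · intro τ hτ φ
    have hτ0 : 0 < τ := lt_of_lt_of_le ht4 hτ.1
    have := h2 τ hτ0 φ
    show c * ZZ τ (a, φ) P + -(H τ (a, φ) P) ≤ 0
    linarith
  · intro τ hτ p hp _
    have hτ0 : 0 < τ := lt_trans ht4 hτ.1
    have z1 := Z1 P p (by linarith) τ hτ0
    have j1 : SubJet F (fun t z => ZZ t z P) τ p := hJ.cls F _ τ p _ z1.1 z1.2 le_rfl
    have j2 := hJ.smul F (fun t z => ZZ t z P) c τ p hc.le j1
    have j3 : SubJet F (fun t z => -(H t z P)) τ p :=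
      hJ.cls' F (fun t z => H t z P) τ p _ (((hH.cl P).c2 τ hτ0).contDiffAt)
        ((hH.cl P).heat τ hτ0 p) le_rfl
    exact hJ.add F _ _ τ p j2 j3

theorem l5 (h2 : T_L2) (h3 : T_L3) (h4 : T_L4) (hC : T_CMPE) (hZ : T_ZH) (hJ : T_JET)
    (hDQ : T_DQ) : T_L5 := by
  intro F H hF hH
  have DQ := hDQ F hF
  obtain ⟨c2, hc2, H2⟩ := h2 F H hF hH 3 (by norm_num) 2 (by norm_num)
  obtain ⟨c3, hc3, H3⟩ := h3 F H hF hH
  obtain ⟨c4, hc4, t4, ht4, H4⟩ := h4 F H hF hH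
  obtain ⟨Z1, Z2, Z3, Z4, Z5, Z6⟩ := hZ F hF
  set c : ℝ := min c4 (min (c2 / 2) (c3 * Real.exp (-(9 / 2)))) with hc
  have hc0 : 0 < c := lt_min hc4 (lt_min (by positivity) (by positivity))
  have i1 : c ≤ c4 := min_le_left _ _
  have i2 : c ≤ c2 / 2 := (min_le_right _ _).trans (min_le_left _ _)
  have i3 : c ≤ c3 * Real.exp (-(9 / 2)) := (min_le_right _ _).trans (min_le_right _ _)
  have hs := sqrt_two_le_two
  -- step 1
  have S1 : ∀ φ : ℝ, ∀ t > 0, ∀ z : X, 3 ≤ z.1 → c * ZZ t z (2, φ) ≤ H t z (2, φ) := by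
    intro φ
    refine l5_aux hC hZ hJ hF hH (a := 3) (by norm_num) hc0 ht4 (2, φ) ?_ ?_
    · intro t ht z hz
      have := H4 z (2, φ) (by linarith) (by norm_num) t ht
      exact (mul_le_mul_of_nonneg_right i1 (ZZ_pos ht.1 _ _).le).trans this
    · intro t ht φ'
      have hmin := DQ.cone (3, φ') (2, φ) (by show √2 ≤ 3; linarith) (by show √2 ≤ 2; exact hs)
      have hsz := (Z5 t ht (3, φ') (2, φ)).2
      rw [← hmin] at hsz
      rcases le_or_gt t 2 with h | h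
      · have e := H2 (3, φ') (2, φ) (by norm_num) (by norm_num) t ⟨ht, h⟩
        calc c * ZZ t (3, φ') (2, φ) ≤ c2 / 2 * (2 * E2 t (dq F (3, φ') (2, φ) ^ 2)) :=
              mul_le_mul i2 hsz (ZZ_pos ht _ _).le (by positivity)
          _ = c2 * E2 t (dq F (3, φ') (2, φ) ^ 2) := by ring
          _ ≤ _ := e
      · have e := H3 (3, φ') (2, φ) (by norm_num) t (by linarith)
        have f1 : E2 t (dq F (3, φ') (2, φ) ^ 2) ≤ (4 * Real.pi * t)⁻¹ := E2_le ht (sq_nonneg _)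
        have f2 : Real.exp (-(9 / 2)) ≤ Real.exp (-((3:ℝ) ^ 2 / (4 * (t - 1 / 2)))) := by
          apply Real.exp_le_exp.mpr
          rw [neg_le_neg_iff, div_le_div_iff₀ (by linarith) (by norm_num)]
          nlinarith
        have f3 : 2 * (4 * Real.pi * t)⁻¹ ≤ 1 / t := by
          have hpi := Real.pi_gt_three
          rw [inv_eq_one_div, mul_one_div, div_le_div_iff₀ (by positivity) ht]
          nlinarith
        calc c * ZZ t (3, φ') (2, φ)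
            ≤ (c3 * Real.exp (-(9 / 2))) * (2 * (4 * Real.pi * t)⁻¹) :=
              mul_le_mul i3 (hsz.trans (by linarith)) (ZZ_pos ht _ _).le (by positivity)
          _ ≤ (c3 * Real.exp (-((3:ℝ) ^ 2 / (4 * (t - 1 / 2))))) * (1 / t) := by gcongr
          _ = c3 / t * Real.exp (-((3:ℝ) ^ 2 / (4 * (t - 1 / 2)))) := by ring
          _ ≤ _ := e
  refine ⟨c, hc0, ?_⟩
  intro p q hp hq t ht
  refine l5_aux hC hZ hJ hF hH (a := 2) le_rfl hc0 ht4 q ?_ ?_ t ht p hp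
  · intro t ht z hz
    have := H4 z q hz (by linarith) t ht
    exact (mul_le_mul_of_nonneg_right i1 (ZZ_pos ht.1 _ _).le).trans this
  · intro t ht φ
    rw [Z2 t (2, φ) q, hH.symm t ht (2, φ) q]
    exact S1 φ t ht q hq

end Pool.Agent.H96.HK
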