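import Pool.Agent.H96.HK.Basic

/-!
# MP_e94f6f_an: module L6 (pole in the core, the other point far away)
-/

open MeasureTheory Set Filter Topology
open scoped ContDiff

namespace Pool.Agent.H96.HK

/-- the squared plane distance after a small displacement -/
lemma cm_expand {s l α β δ1 δ2 p1 om : ℝ} (hs : 0 ≤ s) (hs' : s ≤ 11) (hl : 0 ≤ l)
    (hu : α ^ 2 + s ^ 2 * β ^ 2 = 1) (h1 : |δ1| ≤ 1) (h2 : |δ2| ≤ 1)
    (hc : p1 * Real.cos om = s + l * α) (hsn : p1 * Real.sin om = l * (s * β)) :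
    p1 ^ 2 + (s + δ1) ^ 2 - 2 * p1 * (s + δ1) * Real.cos (om - δ2) ≤
      l ^ 2 - 2 * l * (α * δ1 + s ^ 2 * β * δ2) + 132 * (1 + l) * (δ1 ^ 2 + δ2 ^ 2) := by
  have hp : p1 ^ 2 = (s + l * α) ^ 2 + (l * (s * β)) ^ 2 := by
    rw [← hc, ← hsn]
    have := Real.sin_sq_add_cos_sq om
    linear_combination (-(p1 ^ 2)) * this
  have hα : |α| ≤ 1 := by
    rw [← sq_le_one_iff_abs_le_one]; nlinarith [sq_nonneg (s * β)]
  have hβ : |s * β| ≤ 1 := by
    rw [← sq_le_one_iff_abs_le_one]; nlinarith [sq_nonneg α]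
  have hec0 : 0 ≤ 1 - Real.cos δ2 := by linarith [Real.cos_le_one δ2]
  have hec : 1 - Real.cos δ2 ≤ δ2 ^ 2 / 2 := by
    have := Real.one_sub_sq_div_two_le_cos (x := δ2)
    linarith
  have hes : |δ2 - Real.sin δ2| ≤ δ2 ^ 2 := by
    have habs : |δ2| ^ 2 = δ2 ^ 2 := sq_abs _
    rcases le_total 0 δ2 with h0 | h0
    · have h3 : δ2 ≤ 1 := (le_abs_self _).trans h2
      have i1 : Real.sin δ2 ≤ δ2 := Real.sin_le h0
      rw [abs_of_nonneg (by linarith)]
      rcases eq_or_lt_of_le h0 with h00 | h00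
      · rw [← h00]; simp
      · have i2 := Real.sin_gt_sub_cube h00
        have i3 : δ2 ^ 3 ≤ δ2 ^ 2 := pow_le_pow_of_le_one h0 h3 (by norm_num)
        nlinarith [pow_pos h00 2, pow_pos h00 3]
    · have h3 : -δ2 ≤ 1 := (neg_le_abs _).trans h2
      have i1 : Real.sin (-δ2) ≤ -δ2 := Real.sin_le (by linarith)
      rw [Real.sin_neg] at i1
      rw [abs_of_nonpos (by linarith)]
      rcases eq_or_lt_of_le h0 with h00 | h00
      · rw [h00]; simp
      · have i2 := Real.sin_gt_sub_cube (x := -δ2) (by linarith)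
        rw [Real.sin_neg] at i2
        have i3 : (-δ2) ^ 3 ≤ (-δ2) ^ 2 := pow_le_pow_of_le_one (by linarith) h3 (by norm_num)
        nlinarith [pow_pos (by linarith : 0 < -δ2) 2, pow_pos (by linarith : 0 < -δ2) 3]
  have hcos : Real.cos (om - δ2) = Real.cos om * Real.cos δ2 + Real.sin om * Real.sin δ2 :=
    Real.cos_sub _ _
  have e : p1 ^ 2 + (s + δ1) ^ 2 - 2 * p1 * (s + δ1) * Real.cos (om - δ2) =
      l ^ 2 - 2 * l * (α * δ1 + s ^ 2 * β * δ2) + (δ1 ^ 2 +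
        2 * (s + δ1) * (s + l * α) * (1 - Real.cos δ2) - 2 * (δ1 * δ2) * l * (s * β) +
        2 * (s + δ1) * l * (s * β) * (δ2 - Real.sin δ2)) := by
    have e1 : 2 * p1 * (s + δ1) * Real.cos (om - δ2) =
        2 * (s + δ1) * ((s + l * α) * Real.cos δ2 + l * (s * β) * Real.sin δ2) := by
      rw [hcos, ← hc, ← hsn]; ring
    rw [e1, hp]
    linear_combination (l ^ 2) * hu
  rw [e]
  have b1 : |s + δ1| ≤ 12 := by
    calc |s + δ1| ≤ |s| + |δ1| := abs_add_le _ _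
      _ ≤ 11 + 1 := by rw [abs_of_nonneg hs]; linarith
      _ = 12 := by norm_num
  have b2 : |s + l * α| ≤ 11 + l := by
    calc |s + l * α| ≤ |s| + |l * α| := abs_add_le _ _
      _ ≤ 11 + l * 1 := by
        rw [abs_of_nonneg hs, abs_mul, abs_of_nonneg hl]
        have := mul_le_mul_of_nonneg_left hα hl
        linarith
      _ = 11 + l := by ring
  have t1 : 2 * (s + δ1) * (s + l * α) * (1 - Real.cos δ2) ≤ 2 * 12 * (11 + l) * (δ2 ^ 2 / 2) := by
    calc 2 * (s + δ1) * (s + l * α) * (1 - Real.cos δ2)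
        ≤ |2 * (s + δ1) * (s + l * α) * (1 - Real.cos δ2)| := le_abs_self _
      _ = 2 * |s + δ1| * |s + l * α| * (1 - Real.cos δ2) := by
        rw [abs_mul, abs_mul, abs_mul, abs_of_nonneg hec0, abs_of_pos (by norm_num : (0:ℝ) < 2)]
      _ ≤ 2 * 12 * (11 + l) * (δ2 ^ 2 / 2) := by gcongr
  have t2 : -(2 * (δ1 * δ2) * l * (s * β)) ≤ l * (δ1 ^ 2 + δ2 ^ 2) := by
    calc -(2 * (δ1 * δ2) * l * (s * β)) ≤ |-(2 * (δ1 * δ2) * l * (s * β))| := le_abs_self _
      _ = (2 * |δ1 * δ2|) * l * |s * β| := by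
        rw [abs_neg, abs_mul, abs_mul, abs_mul, abs_of_nonneg hl, abs_of_pos (by norm_num : (0:ℝ) < 2)]
      _ ≤ (2 * |δ1 * δ2|) * l * 1 := mul_le_mul_of_nonneg_left hβ (by positivity)
      _ ≤ l * (δ1 ^ 2 + δ2 ^ 2) := by
        have : 2 * |δ1 * δ2| ≤ δ1 ^ 2 + δ2 ^ 2 := by
          rw [abs_mul]
          have := two_mul_le_add_sq |δ1| |δ2|
          rw [sq_abs, sq_abs] at this
          linarith
        nlinarith
  have t3 : 2 * (s + δ1) * l * (s * β) * (δ2 - Real.sin δ2) ≤ 2 * 12 * l * 1 * δ2 ^ 2 := by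
    calc 2 * (s + δ1) * l * (s * β) * (δ2 - Real.sin δ2)
        ≤ |2 * (s + δ1) * l * (s * β) * (δ2 - Real.sin δ2)| := le_abs_self _
      _ = 2 * |s + δ1| * l * |s * β| * |δ2 - Real.sin δ2| := by
        rw [abs_mul, abs_mul, abs_mul, abs_mul, abs_of_nonneg hl,
          abs_of_pos (by norm_num : (0:ℝ) < 2)]
      _ ≤ 2 * 12 * l * 1 * δ2 ^ 2 := by gcongr
  nlinarith [mul_nonneg hl (sq_nonneg δ1), mul_nonneg hl (sq_nonneg δ2), sq_nonneg δ1, sq_nonneg δ2]

theorem l6 (h2 : T_L2) (h5 : T_L5) (hSG : T_SG) (hGEO : T_GEO) (hEN : T_ENER) (hFL : T_FLAT)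
    (hDQ : T_DQ) (hDD : T_DD) : T_L6 := by
  intro F H hF hH A hA
  have DD := hDD F hF
  have DQ := hDQ F hF
  obtain ⟨c2, hc2, H2⟩ := h2 F H hF hH 12 (by norm_num) (16 * A) (by positivity)
  obtain ⟨c5, hc5, H5⟩ := h5 F H hF hH
  obtain ⟨C, hC, EN⟩ := hEN F hF 12 (by norm_num)
  have hF0 := hF.pos 0
  set κ : ℝ := min 1 (1 / (8 * A)) with hκ
  have hκ0 : 0 < κ := lt_min one_pos (by positivity)
  refine ⟨20, F 0 * κ * c5 * c2 / (32 * Real.pi) * Real.exp (-(132 + C / 16)), by positivity, ?_⟩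
  intro p0 q0 hq0 hp0 t ht htA
  -- reductions
  obtain ⟨k1, hk1⟩ : ∃ k : ℤ, (gk k p0).1 = |p0.1| := by
    rcases le_total 0 p0.1 with h | h
    · exact ⟨0, by rw [gk_zero, abs_of_nonneg h]⟩
    · exact ⟨1, by rw [gk_one, abs_of_nonpos h]; rfl⟩
  rw [← hH.inv_left ht p0 q0 k1, ← DQ.inv' k1 p0 q0]
  set p : X := gk k1 p0 with hp
  have hp20 : 20 ≤ p.1 := by rw [hk1]; exact hp0
  have htA' : t ≤ A * (1 + p.1) := by rw [hk1]; exact htA
  obtain ⟨k, hk⟩ := DQ.att p q0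
  have hdup : dd F p (gk k q0) ≤ p.1 + 4 := by
    rw [← hk]
    have := DQ.up p q0
    rw [abs_of_nonneg (by linarith : 0 ≤ p.1)] at this
    linarith
  rw [hk, ← hH.inv_right ht p q0 k]
  have hq1 : |(gk k q0).1| ≤ 3 := by rw [abs_gk_fst]; exact hq0
  generalize gk k q0 = q at hq1 hdup
  clear_value p
  clear hk hk1 hp hp0 hq0 htA
  rw [DD.symm p q] at hdup ⊢
  set d : ℝ := dd F q p with hd
  have hdlo : p.1 - 3 ≤ d := by
    have h1 := DD.ge1 q p
    rw [abs_sub_comm] at h1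
    have h2 := le_abs_self (p.1 - q.1)
    have h3 := le_abs_self q.1
    linarith
  have hd17 : 17 ≤ d := by linarith
  obtain ⟨c, a, b, hgeo, hc0, hcd, hmin⟩ := hGEO F hF q p
  rw [← hd] at hcd
  have hlow : ∀ r, 0 ≤ r → r ≤ d → r - 4 ≤ (c r).1 := by
    intro r hr0 hrd
    have h1 := DD.ge1 (c r) (c d)
    rw [hmin r d hr0 hrd, hcd] at h1
    have h2 := (abs_le.mp h1).1
    linarith
  set x : X := c 8 with hx
  have hx4 : 4 ≤ x.1 := by
    have := hlow 8 (by norm_num) (by linarith)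
    linarith
  have hx11 : x.1 ≤ 11 := by
    have h1 := DD.ge1 (c 0) (c 8)
    rw [hmin 0 8 le_rfl (by norm_num), hc0] at h1
    have h2 := (abs_le.mp h1).1
    have h3 := le_abs_self q.1
    linarith
  set l : ℝ := d - 8 with hl
  have hl0 : 9 ≤ l := by linarith
  have hd0 : 0 < d := by linarith
  -- flatness
  have hFx : F x.1 = x.1 := hF.eq_of_one_le (by linarith)
  obtain ⟨hcos, hsin⟩ := hFL F hF c a b hgeo 8 d (by linarith) (by
    intro r hr
    have := hlow r (by linarith [hr.1]) hr.2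
    have h8 := hr.1
    linarith)
  rw [hcd, ← hx, ← hl] at hcos hsin
  have hunit := hgeo.2.2.2.2 8
  rw [← hx, hFx] at hunit
  set α : ℝ := a 8 with hα
  set β : ℝ := b 8 with hβ
  -- times
  set t1 : ℝ := 8 * t / d with ht1
  set t2 : ℝ := t * l / d with ht2
  have ht1p : 0 < t1 := by positivity
  have ht2p : 0 < t2 := by
    have : 0 < l := by linarith
    positivity
  have htt : t2 + t1 = t := by
    rw [ht1, ht2, hl]; field_simp; ring
  have htd : t / d ≤ 2 * A := by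
    rw [div_le_iff₀ hd0]
    nlinarith
  have ht1A : t1 ≤ 16 * A := by
    have : t1 = 8 * (t / d) := by rw [ht1]; ring
    rw [this]; linarith
  have ht2t : t2 ≤ t := by linarith
  -- box
  set r : ℝ := min (√(t / d)) (1 / 2) with hr
  have htd0 : 0 < t / d := by positivity
  have hr0 : 0 < r := lt_min (Real.sqrt_pos.mpr htd0) (by norm_num)
  have hrh : r ≤ 1 / 2 := min_le_right _ _
  have hr2 : r ^ 2 ≤ t / d := by
    calc r ^ 2 ≤ (√(t / d)) ^ 2 := pow_le_pow_left₀ hr0.le (min_le_left _ _) 2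
      _ = t / d := Real.sq_sqrt htd0.le
  have hr2' : κ * (t / d) ≤ r ^ 2 := by
    rcases le_total (√(t / d)) (1 / 2) with h | h
    · have e : r = √(t / d) := min_eq_left h
      rw [e, Real.sq_sqrt htd0.le]
      calc κ * (t / d) ≤ 1 * (t / d) := mul_le_mul_of_nonneg_right (min_le_left _ _) htd0.le
        _ = t / d := one_mul _
    · have e : r = 1 / 2 := min_eq_right h
      rw [e]
      calc κ * (t / d) ≤ 1 / (8 * A) * (2 * A) :=
            mul_le_mul (min_le_right _ _) htd htd0.le (by positivity)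
        _ = (1 / 2) ^ 2 := by field_simp; norm_num
  set M : ℝ := c5 * (4 * Real.pi * t2)⁻¹ * (c2 * (4 * Real.pi * t1)⁻¹) *
    Real.exp (-(d ^ 2 / (4 * t)) - (132 + C / 16)) with hM
  have hM0 : 0 ≤ M := by positivity
  have main := hSG F H hF hH t2 ht2p t1 ht1p p q x r hr0 hrh M hM0 (by
    intro z hz1 hz2
    obtain ⟨δ, hδ⟩ : ∃ δ : X, z = x + δ := ⟨z - x, by abel⟩
    subst hδ
    have hd1 : |δ.1| ≤ r := by simpa using hz1
    have hd2 : |δ.2| ≤ r := by simpa using hz2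
    have hd1' : |δ.1| ≤ 1 := by linarith
    have hd2' : |δ.2| ≤ 1 := by linarith
    have sq1 : δ.1 ^ 2 ≤ r ^ 2 := by
      rw [← sq_abs]; exact pow_le_pow_left₀ (abs_nonneg _) hd1 2
    have sq2 : δ.2 ^ 2 ≤ r ^ 2 := by
      rw [← sq_abs]; exact pow_le_pow_left₀ (abs_nonneg _) hd2 2
    set I : ℝ := α * δ.1 + x.1 ^ 2 * β * δ.2 with hI
    have hip : ip F c a b 8 δ = I := by
      unfold ip; rw [← hx, hFx]
    -- first factor
    have hz3 : 3 ≤ (x + δ).1 := by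
      have := (abs_le.mp hd1).1
      rw [Prod.fst_add]; linarith
    have i1 := H5 p (x + δ) (by linarith) hz3 t2 ht2p
    have j1 : E2 t2 (cm p (x + δ)) ≤ ZZ t2 p (x + δ) := by
      unfold ZZ
      have := E2_pos' ht2p (cp p (x + δ))
      linarith
    have hcm : cm p (x + δ) ≤ l ^ 2 - 2 * l * I + 132 * (1 + l) * (δ.1 ^ 2 + δ.2 ^ 2) := by
      have := cm_expand (s := x.1) (l := l) (α := α) (β := β) (δ1 := δ.1) (δ2 := δ.2) (p1 := p.1)
        (om := p.2 - x.2) (by linarith) hx11 (by linarith) hunit hd1' hd2' hcos hsin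
      unfold cm
      rw [Prod.fst_add, Prod.snd_add]
      have e : p.2 - (x.2 + δ.2) = p.2 - x.2 - δ.2 := by ring
      rw [e]
      exact this
    have hcm' : cm p (x + δ) ≤ l ^ 2 - 2 * l * I + 264 * (1 + l) * r ^ 2 := by
      have : 132 * (1 + l) * (δ.1 ^ 2 + δ.2 ^ 2) ≤ 132 * (1 + l) * (2 * r ^ 2) :=
        mul_le_mul_of_nonneg_left (by linarith) (by linarith)
      linarith
    have f1 : c5 * E2 t2 (l ^ 2 - 2 * l * I + 264 * (1 + l) * r ^ 2) ≤ H t2 p (x + δ) :=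
      (mul_le_mul_of_nonneg_left ((E2_anti ht2p hcm').trans j1) hc5.le).trans i1
    -- second factor
    have hz12 : |(x + δ).1| ≤ 12 := by
      rw [Prod.fst_add]
      calc |x.1 + δ.1| ≤ |x.1| + |δ.1| := abs_add_le _ _
        _ ≤ 11 + 1 := by rw [abs_of_nonneg (by linarith)]; linarith
        _ = 12 := by norm_num
    have i2 := H2 (x + δ) q hz12 (by linarith) t1 ⟨ht1p, ht1A⟩
    have hdq : dq F (x + δ) q ≤ dd F q (x + δ) := by
      have := DQ.le (x + δ) q 0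
      rw [gk_zero] at this
      rwa [DD.symm q]
    have hen := EN c a b hgeo 0 8 (by rw [hc0]; linarith) (by norm_num) (by norm_num) 0 δ
      (by simp) (by simp) hd1' hd2'
    have hip0 : ip F c a b 0 (0 : X) = 0 := by unfold ip; simp
    rw [zero_add, hip, hip0, hc0, add_zero, ← hx] at hen
    have hdq2 : dq F (x + δ) q ^ 2 ≤ 64 + 16 * I + 2 * C * r ^ 2 := by
      have e1 : dq F (x + δ) q ^ 2 ≤ dd F q (x + δ) ^ 2 := pow_le_pow_left₀ (DQ.nn _ _) hdq 2
      have e2 : C * ((0 : X).1 ^ 2 + (0 : X).2 ^ 2 + δ.1 ^ 2 + δ.2 ^ 2) ≤ C * (2 * r ^ 2) := by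
        apply mul_le_mul_of_nonneg_left _ hC.le
        simp only [Prod.fst_zero, Prod.snd_zero]
        linarith
      linarith
    have f2 : c2 * E2 t1 (64 + 16 * I + 2 * C * r ^ 2) ≤ H t1 (x + δ) q :=
      (mul_le_mul_of_nonneg_left (E2_anti ht1p hdq2) hc2.le).trans i2
    refine le_trans ?_ (mul_le_mul f1 f2 (mul_nonneg hc2.le (E2_pos' ht1p _).le)
      (hH.nn _ ht2p _ _))
    unfold E2
    have e : c5 * ((4 * Real.pi * t2)⁻¹ *
        Real.exp (-((l ^ 2 - 2 * l * I + 264 * (1 + l) * r ^ 2) / (4 * t2)))) *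
        (c2 * ((4 * Real.pi * t1)⁻¹ * Real.exp (-((64 + 16 * I + 2 * C * r ^ 2) / (4 * t1))))) =
        c5 * (4 * Real.pi * t2)⁻¹ * (c2 * (4 * Real.pi * t1)⁻¹) *
        Real.exp (-((l ^ 2 - 2 * l * I + 264 * (1 + l) * r ^ 2) / (4 * t2)) +
          -((64 + 16 * I + 2 * C * r ^ 2) / (4 * t1))) := by
      rw [Real.exp_add]; ring
    rw [e, hM]
    refine mul_le_mul_of_nonneg_left (Real.exp_le_exp.mpr ?_) (by positivity)
    have hl9 : 0 < l := by linarith
    set w : ℝ := r ^ 2 * d / t with hw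
    have hw1 : w ≤ 1 := by
      rw [hw, div_le_one ht]
      rw [le_div_iff₀ hd0] at hr2
      exact hr2
    have hw0 : 0 ≤ w := by positivity
    have g1 : (l ^ 2 - 2 * l * I + 264 * (1 + l) * r ^ 2) / (4 * t2) =
        l * d / (4 * t) - 2 * I * d / (4 * t) + 66 * ((1 + l) / l) * w := by
      rw [ht2, hw]; field_simp; ring
    have g2 : (64 + 16 * I + 2 * C * r ^ 2) / (4 * t1) =
        8 * d / (4 * t) + 2 * I * d / (4 * t) + C / 16 * w := by
      rw [ht1, hw]; field_simp; ring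
    have g3 : (1 + l) / l ≤ 2 := by
      rw [div_le_iff₀ hl9]; linarith
    have g4 : 66 * ((1 + l) / l) * w ≤ 132 := by
      calc 66 * ((1 + l) / l) * w ≤ 66 * 2 * 1 := by gcongr
        _ = 132 := by norm_num
    have g5 : C / 16 * w ≤ C / 16 := mul_le_of_le_one_right (by positivity) hw1
    have g6 : l * d / (4 * t) + 8 * d / (4 * t) = d ^ 2 / (4 * t) := by
      rw [hl]; ring
    rw [g1, g2]
    linarith)
  rw [htt] at main
  refine le_trans ?_ main
  rw [hM]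
  unfold E2
  have e1 : Real.exp (-(d ^ 2 / (4 * t)) - (132 + C / 16)) =
      Real.exp (-(d ^ 2 / (4 * t))) * Real.exp (-(132 + C / 16)) := by
    rw [← Real.exp_add]; congr 1
  rw [e1]
  have e2 : (4 * Real.pi * t)⁻¹ ≤ (4 * Real.pi * t2)⁻¹ := by
    apply inv_anti₀ (by positivity)
    gcongr
  have e3 : (4 * Real.pi * t1)⁻¹ = (t / d)⁻¹ / (32 * Real.pi) := by
    rw [ht1]; field_simp; norm_num
  rw [e3]
  have e4 : κ ≤ r ^ 2 * (t / d)⁻¹ := by
    rw [← div_eq_mul_inv, le_div_iff₀ htd0]; exact hr2'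
  calc F 0 * κ * c5 * c2 / (32 * Real.pi) * Real.exp (-(132 + C / 16)) *
        ((4 * Real.pi * t)⁻¹ * Real.exp (-(d ^ 2 / (4 * t))))
      = (F 0 * c5 * c2 / (32 * Real.pi)) * κ * (4 * Real.pi * t)⁻¹ *
        (Real.exp (-(d ^ 2 / (4 * t))) * Real.exp (-(132 + C / 16))) := by ring
    _ ≤ (F 0 * c5 * c2 / (32 * Real.pi)) * (r ^ 2 * (t / d)⁻¹) * (4 * Real.pi * t2)⁻¹ *
        (Real.exp (-(d ^ 2 / (4 * t))) * Real.exp (-(132 + C / 16))) := by gcongr
    _ = _ := by ring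

end Pool.Agent.H96.HK
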