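import Pool.Agent.H96.HK.Basic

/-!
# MP_e94f6f_an: module SURJ (every point is joined to the base point by a geodesic)
-/

open MeasureTheory Set Filter Topology
open scoped ContDiff

namespace Pool.Agent.H96.HK

/-- the exponential map -/
def Phi (S P : ℝ → ℝ → ℝ) (z : ℝ × ℝ) : X := (S z.1 z.2, P z.1 z.2)

lemma Phi_contDiff {F : ℝ → ℝ} {s1 : ℝ} {S P A B : ℝ → ℝ → ℝ} (hf : Fam F s1 S P A B) :
    ContDiff ℝ 1 (Phi S P) := hf.c1.1.prodMk hf.c1.2.1

lemma fam_isGeod {F : ℝ → ℝ} {s1 : ℝ} {S P A B : ℝ → ℝ → ℝ} (hf : Fam F s1 S P A B) (θ : ℝ) :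
    IsGeod F (fun r => (S r θ, P r θ)) (fun r => A r θ) (fun r => B r θ) :=
  ⟨fun r => hf.Sr r θ, fun r => hf.Pr r θ, fun r => hf.Ar r θ, fun r => hf.Br r θ,
    fun r => hf.unit r θ⟩

/-- distance to the base point -/
lemma dd_Phi (hM : T_MINI) {F : ℝ → ℝ} (hF : Prof F) {s1 : ℝ} {S P A B : ℝ → ℝ → ℝ}
    (hf : Fam F s1 S P A B) (z : ℝ × ℝ) (hz : 0 ≤ z.1) : dd F (s1, 0) (Phi S P z) = z.1 := by
  have h := hM F hF _ _ _ (fam_isGeod hf z.2) 0 z.1 hz
  rw [hf.S0, hf.P0, sub_zero] at h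
  exact h

/-- the derivative of the exponential map -/
lemma Phi_fderiv {F : ℝ → ℝ} {s1 : ℝ} {S P A B : ℝ → ℝ → ℝ} (hf : Fam F s1 S P A B)
    (z : ℝ × ℝ) : fderiv ℝ (Phi S P) z (1, 0) = (A z.1 z.2, B z.1 z.2) ∧
    fderiv ℝ (Phi S P) z (0, 1) = (deriv (S z.1) z.2, deriv (P z.1) z.2) := by
  have hd : DifferentiableAt ℝ (Phi S P) z :=
    (Phi_contDiff hf).contDiffAt.differentiableAt (by simp)
  have hd' : HasFDerivAt (Phi S P) (fderiv ℝ (Phi S P) z) (z.1, z.2) := hd.hasFDerivAt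
  constructor
  · have h1 : HasDerivAt (fun r : ℝ => ((r, z.2) : ℝ × ℝ)) ((1, 0) : ℝ × ℝ) z.1 :=
      (hasDerivAt_id z.1).prodMk (hasDerivAt_const z.1 z.2)
    have h2 : HasDerivAt (Phi S P ∘ fun r : ℝ => ((r, z.2) : ℝ × ℝ))
        (fderiv ℝ (Phi S P) z (1, 0)) z.1 := hd'.comp_hasDerivAt z.1 h1
    have h3 : HasDerivAt (fun r => Phi S P (r, z.2)) (A z.1 z.2, B z.1 z.2) z.1 :=
      (hf.Sr z.1 z.2).prodMk (hf.Pr z.1 z.2)
    exact h2.unique h3
  · have h1 : HasDerivAt (fun θ : ℝ => ((z.1, θ) : ℝ × ℝ)) ((0, 1) : ℝ × ℝ) z.2 :=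
      (hasDerivAt_const z.2 z.1).prodMk (hasDerivAt_id z.2)
    have h2 : HasDerivAt (fun θ => Phi S P (z.1, θ)) (fderiv ℝ (Phi S P) z (0, 1)) z.2 :=
      hd'.comp_hasDerivAt z.2 h1
    have a1 : DifferentiableAt ℝ (S z.1) z.2 := by
      have : ContDiff ℝ 1 (fun θ => S z.1 θ) := hf.c1.1.comp (by fun_prop : ContDiff ℝ 1
        (fun θ : ℝ => ((z.1, θ) : ℝ × ℝ)))
      exact this.contDiffAt.differentiableAt (by simp)
    have a2 : DifferentiableAt ℝ (P z.1) z.2 := by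
      have : ContDiff ℝ 1 (fun θ => P z.1 θ) := hf.c1.2.1.comp (by fun_prop : ContDiff ℝ 1
        (fun θ : ℝ => ((z.1, θ) : ℝ × ℝ)))
      exact this.contDiffAt.differentiableAt (by simp)
    have h3 : HasDerivAt (fun θ => Phi S P (z.1, θ)) (deriv (S z.1) z.2, deriv (P z.1) z.2) z.2 :=
      a1.hasDerivAt.prodMk a2.hasDerivAt
    exact h2.unique h3

/-- the Jacobian determinant -/
lemma Phi_det {F : ℝ → ℝ} {K s1 : ℝ} {S P A B J J' : ℝ → ℝ → ℝ} (hF : Prof F)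
    (hf : Fam F s1 S P A B) (hj : Jac F s1 K S P A B J J') (r θ : ℝ) :
    A r θ * deriv (P r) θ - B r θ * deriv (S r) θ = J r θ / F (S r θ) := by
  rw [hj.Sθ, hj.Pθ]
  have h := hf.unit r θ
  have hF0 := (hF.pos (S r θ)).ne'
  field_simp
  linear_combination J r θ * h

lemma Phi_surj {F : ℝ → ℝ} {K s1 : ℝ} {S P A B J J' : ℝ → ℝ → ℝ} (hF : Prof F)
    (hf : Fam F s1 S P A B) (hj : Jac F s1 K S P A B J J') (z : ℝ × ℝ) (hz : 0 < z.1) :
    Function.Surjective (fderiv ℝ (Phi S P) z) := by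
  obtain ⟨e1, e2⟩ := Phi_fderiv hf z
  have hdet := Phi_det hF hf hj z.1 z.2
  have hJ : 0 < J z.1 z.2 / F (S z.1 z.2) :=
    div_pos (lt_of_lt_of_le hz (hj.ge z.1 z.2 hz.le)) (hF.pos _)
  rw [← hdet] at hJ
  set a := A z.1 z.2
  set b := B z.1 z.2
  set s := deriv (S z.1) z.2
  set p := deriv (P z.1) z.2
  intro w
  have hne : a * p - b * s ≠ 0 := hJ.ne'
  refine ⟨(((w.1 * p - w.2 * s) / (a * p - b * s)), ((a * w.2 - b * w.1) / (a * p - b * s))), ?_⟩
  have e : (((w.1 * p - w.2 * s) / (a * p - b * s)), ((a * w.2 - b * w.1) / (a * p - b * s))) =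
      ((w.1 * p - w.2 * s) / (a * p - b * s)) • ((1, 0) : ℝ × ℝ) +
      ((a * w.2 - b * w.1) / (a * p - b * s)) • ((0, 1) : ℝ × ℝ) := by
    ext <;> simp
  rw [e, map_add, map_smul, map_smul, e1, e2]
  ext
  · simp only [Prod.smul_mk, Prod.mk_add_mk, smul_eq_mul]
    rw [div_mul_eq_mul_div, div_mul_eq_mul_div, ← add_div, div_eq_iff hne]
    ring
  · simp only [Prod.smul_mk, Prod.mk_add_mk, smul_eq_mul]
    rw [div_mul_eq_mul_div, div_mul_eq_mul_div, ← add_div, div_eq_iff hne]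
    ring

theorem surj (hDD : T_DD) (hM : T_MINI) : T_SURJ := by
  intro F K hF hB s1 S P A B J J' hf hj p
  have DD := hDD F hF
  set y : X := (s1, 0) with hy
  have hΦ0 : ∀ θ, Phi S P (0, θ) = y := fun θ => by
    show (S 0 θ, P 0 θ) = _
    rw [hf.S0, hf.P0]
  have hcont : Continuous (Phi S P) := (Phi_contDiff hf).continuous
  rcases eq_or_ne p y with hp | hp
  · exact ⟨0, 0, le_rfl, by rw [hp, ← hΦ0 0]; rfl⟩
  set I : Set X := Phi S P '' {z | 0 < z.1} with hI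
  have hopen : IsOpen I := by
    rw [isOpen_iff_mem_nhds]
    rintro x ⟨z, hz, rfl⟩
    have hs : HasStrictFDerivAt (Phi S P) (fderiv ℝ (Phi S P) z) z :=
      (Phi_contDiff hf).contDiffAt.hasStrictFDerivAt (by simp)
    have hr : (fderiv ℝ (Phi S P) z).range = ⊤ :=
      LinearMap.range_eq_top.mpr (Phi_surj hF hf hj z hz)
    rw [← hs.map_nhds_eq_of_surj hr]
    apply image_mem_map
    exact (isOpen_lt continuous_const continuous_fst).mem_nhds hz
  have hnot : y ∉ I := by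
    rintro ⟨z, hz, hzy⟩
    have h1 := dd_Phi hM hF hf z (le_of_lt hz)
    rw [hzy, DD.self] at h1
    exact absurd h1.symm (ne_of_gt hz)
  -- continuity bound for the distance
  have hclosed : closure I ∩ {y}ᶜ ⊆ I := by
    rintro x ⟨hx, hxy⟩
    set R : ℝ := dd F y x + 1 with hR
    have hR0 : 0 ≤ R := by
      have := DD.nn y x
      linarith
    set C : Set X := Phi S P '' (Icc 0 R ×ˢ Icc 0 (2 * Real.pi)) with hC
    have hCc : IsClosed C := ((isCompact_Icc.prod isCompact_Icc).image hcont).isClosed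
    -- neighbourhood of x on which the distance is at most R
    set N : Set X := {w | |x.1 - w.1| + (1 + |x.1|) * |x.2 - w.2| < 1} with hN
    have hNo : IsOpen N := by
      apply isOpen_lt _ continuous_const
      fun_prop
    have hxN : x ∈ N := by
      show |x.1 - x.1| + (1 + |x.1|) * |x.2 - x.2| < 1
      simp
    have hNI : N ∩ I ⊆ C := by
      rintro w ⟨hw, z, hz, rfl⟩
      have h1 := dd_Phi hM hF hf z (le_of_lt hz)
      have h2 := DD.tri y x (Phi S P z)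
      have h3 := DD.le1 x (Phi S P z)
      have hw' : |x.1 - (Phi S P z).1| + (1 + |x.1|) * |x.2 - (Phi S P z).2| < 1 := hw
      have hzR : z.1 ≤ R := by rw [← h1]; linarith
      have hper : Function.Periodic (fun θ => Phi S P (z.1, θ)) (2 * Real.pi) := fun θ => by
        show (S z.1 (θ + 2 * Real.pi), P z.1 (θ + 2 * Real.pi)) = (S z.1 θ, P z.1 θ)
        rw [(hf.per z.1 θ).1, (hf.per z.1 θ).2]
      obtain ⟨θ, hθ, hθe⟩ := hper.exists_mem_Ico₀ (by positivity) z.2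
      refine ⟨(z.1, θ), ⟨⟨le_of_lt hz, hzR⟩, ⟨hθ.1, hθ.2.le⟩⟩, ?_⟩
      exact hθe.symm
    have hxC : x ∈ C := by
      have h1 : x ∈ closure (N ∩ I) := hNo.inter_closure ⟨hxN, hx⟩
      exact hCc.closure_subset_iff.mpr hNI h1
    obtain ⟨z, ⟨hz1, hz2⟩, rfl⟩ := hxC
    rcases eq_or_lt_of_le hz1.1 with h | h
    · exfalso
      apply hxy
      have : z = (0, z.2) := by rw [h]
      rw [this]
      exact hΦ0 z.2
    · exact ⟨z, h, rfl⟩
  have hconn : IsConnected ({y}ᶜ : Set X) := by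
    apply isConnected_compl_singleton_of_one_lt_rank
    rw [rank_prod']
    simp only [Module.rank_self]
    norm_num
  have hne : ({y}ᶜ ∩ I : Set X).Nonempty := by
    refine ⟨Phi S P (1, 0), ?_, ⟨(1, 0), by show (0:ℝ) < 1; norm_num, rfl⟩⟩
    intro h
    exact hnot (h ▸ ⟨(1, 0), by show (0:ℝ) < 1; norm_num, rfl⟩)
  have hsub := hconn.isPreconnected.subset_of_closure_inter_subset hopen hne hclosed
  obtain ⟨z, hz, hzp⟩ := hsub hp
  exact ⟨z.1, z.2, le_of_lt hz, hzp.symm⟩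

end Pool.Agent.H96.HK
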