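import Pool.Agent.H96.HK.Fin
import Pool.Agent.H2.HK.CMH
import Pool.Agent.H2.HK.CMN
import Pool.Agent.H2.HK.CMP
import Pool.Agent.H2.HK.MAX
import Pool.Agent.H2.HK.MIN
import Pool.Agent.H2.HK.PROF
import Pool.Agent.H21.HK.CONA
import Pool.Agent.H21.HK.DD
import Pool.Agent.H21.HK.GG1
import Pool.Agent.H21.HK.JET
import Pool.Agent.H21.HK.LOC
import Pool.Agent.H21.HK.WS1
import Pool.Agent.H21.HK.WS2
import Pool.Agent.H26.HK.PD
import Pool.Agent.H26.HK.SER1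
import Pool.Agent.H26.HK.SER2
import Pool.Agent.H30.HK.APN
import Pool.Agent.H30.HK.FUN
import Pool.Agent.H30.HK.TRIG
import Pool.Agent.H30.HK.UNF
import Pool.Agent.H32.HK.JAC
import Pool.Agent.H32.HK.L4A
import Pool.Agent.H33.HK.APP
import Pool.Agent.H33.HK.CM1
import Pool.Agent.H33.HK.DUH
import Pool.Agent.H33.HK.GG2
import Pool.Agent.H33.HK.KPOS
import Pool.Agent.H33.HK.MC
import Pool.Agent.H36.HK.BET
import Pool.Agent.H36.HK.MLK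
import Pool.Agent.H36.HK.RHO
import Pool.Agent.H36.HK.SYM
import Pool.Agent.H39.HK.DIS
import Pool.Agent.H39.HK.FLOW
import Pool.Agent.H41.HK.CPL
import Pool.Agent.H41.HK.MNN
import Pool.Agent.H56.HK.CTR
import Pool.Agent.H56.HK.FLAT
import Pool.Agent.H56.HK.GEO
import Pool.Agent.H56.HK.HKEX
import Pool.Agent.H56.HK.KEV
import Pool.Agent.H69.HK.L1B
import Pool.Agent.H69.HK.U5
import Pool.Agent.H81.HK.U
import Pool.Agent.H81.HK.U3
import Pool.Agent.H83.HK.NIS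
import Pool.Agent.H83.HK.WS3
import Pool.Agent.H86.HK.ENER
import Pool.Agent.H86.HK.GAM
import Pool.Agent.H86.HK.LAP
import Pool.Agent.H86.HK.LOW
import Pool.Agent.H86.HK.MET
import Pool.Agent.H86.HK.PSI
import Pool.Agent.H87.HF.FB
import Pool.Agent.H87.HF.SEP
import Pool.Agent.H87.HF.VM
import Pool.Agent.H89.HK.KDEC
import Pool.Agent.H96.HK.DQm
import Pool.Agent.H96.HK.L1
import Pool.Agent.H96.HK.L1A
import Pool.Agent.H96.HK.L2
import Pool.Agent.H96.HK.L3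
import Pool.Agent.H96.HK.L4
import Pool.Agent.H96.HK.L5
import Pool.Agent.H96.HK.L6
import Pool.Agent.H96.HK.SURJ
import Pool.Agent.H97.HK.CONC
import Pool.Agent.H97.HK.GFL
import Pool.Agent.H97.HK.MINI

/-!
# MP_e94f6f_an: assembly of all modules
-/

namespace Pool.Agent.H96.HK

theorem final  : T_FINAL := by
  have hPROF : T_PROF := Pool.Agent.H2.HK.prof
  have hFB : T_FB := Pool.Agent.H87.HF.fb
  have hDD : T_DD := Pool.Agent.H21.HK.dd_DD hFB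
  have hLOW : T_LOW := Pool.Agent.H86.HK.low hFB
  have hCON : T_CON := Pool.Agent.H21.HK.con hFB
  have hLOC : T_LOC := Pool.Agent.H21.HK.loc hFB
  have hGFL : T_GFL := Pool.Agent.H97.HK.gfl
  have hFLOW : T_FLOW := Pool.Agent.H39.HK.flow hGFL hFB
  have hJAC : T_JAC := Pool.Agent.H32.HK.jac
  have hMINI : T_MINI := Pool.Agent.H97.HK.mini hFB hDD
  have hSURJ : T_SURJ := Pool.Agent.H96.HK.surj hDD hMINI
  have hRHO : T_RHO := Pool.Agent.H36.HK.rho hMINI hSURJ hFLOW hJAC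
  have hGEO : T_GEO := Pool.Agent.H56.HK.geo hFB hFLOW hJAC hSURJ hMINI
  have hENER : T_ENER := Pool.Agent.H86.HK.enerT hFB
  have hFLAT : T_FLAT := Pool.Agent.H56.HK.flat hFB
  have hDQ : T_DQ := Pool.Agent.H96.HK.dqm hDD hCON hFB
  have hJET : T_JET := Pool.Agent.H21.HK.jet
  have hCMP : T_CMP := Pool.Agent.H2.HK.cmp
  have hCMPE : T_CMPE := Pool.Agent.H2.HK.cmpe
  have hMIN : T_MIN := Pool.Agent.H2.HK.min_proof hJET hCMP
  have hMAX : T_MAX := Pool.Agent.H2.HK.max_proof hJET hCMP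
  have hSG : T_SG := Pool.Agent.H2.HK.sg hJET hCMP
  have hHCT : T_HCT := Pool.Agent.H2.HK.hct hJET hCMP
  have hCONC : T_CONC := Pool.Agent.H97.HK.conc
  have hWS1 : T_WS1 := Pool.Agent.H21.HK.ws1 hDD
  have hWS2 : T_WS2 := Pool.Agent.H21.HK.ws2 hFB hRHO
  have hWS3 : T_WS3 := Pool.Agent.H83.HK.ws3 hDD hLOC hWS1
  have hU1 : T_U1 := Pool.Agent.H81.HK.u1 hMIN hWS1 hWS2 hWS3
  have hU2 : T_U2 := Pool.Agent.H81.HK.u2 hDD hLOW hDQ
  have hPSI : T_PSI := Pool.Agent.H86.HK.psi hFB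
  have hDEC : T_DEC := Pool.Agent.H81.HK.dec hU1 hWS1
  have hCMH : T_CMH := Pool.Agent.H2.HK.cmh
  have hZH : T_ZH := Pool.Agent.H2.HK.zh hCMH
  have hU3 : T_U3 := Pool.Agent.H81.HK.u3 hU1 hU2 hPSI hCMP hDEC hJET hDQ
  have hU4 : T_U4 := Pool.Agent.H81.HK.u4 hU1 hU2 hU3 hDQ
  have hU5 : T_U5 := Pool.Agent.H69.HK.u5 hU1 hU2 hU4 hCMPE hDEC hZH hDQ hJET
  have hUPPER : T_UPPER := Pool.Agent.H96.HK.upper hU4 hU5 hZH hDQ
  have hL1A : T_L1A := Pool.Agent.H96.HK.l1a hRHO hLOC hJET hDD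
  have hL1B : T_L1B := Pool.Agent.H69.HK.l1b hDD hLOC hCONC
  have hL1 : T_L1 := Pool.Agent.H96.HK.l1 hMAX hL1A hL1B hFB hDD
  have hL2 : T_L2 := Pool.Agent.H96.HK.l2 hL1 hSG hGEO hENER hDQ hDD
  have hL3 : T_L3 := Pool.Agent.H96.HK.l3 hL2 hCMP hJET hFB hDQ
  have hL4A : T_L4A := Pool.Agent.H32.HK.l4a hJET hCMH hCONC
  have hL4 : T_L4 := Pool.Agent.H96.HK.l4 hMAX hL4A hZH
  have hL5 : T_L5 := Pool.Agent.H96.HK.l5 hL2 hL3 hL4 hCMPE hZH hJET hDQ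
  have hL6 : T_L6 := Pool.Agent.H96.HK.l6 hL2 hL5 hSG hGEO hENER hFLAT hDQ hDD
  have hLOWER : T_LOWER := Pool.Agent.H96.HK.lower hL2 hL3 hL5 hL6 hZH hDQ
  have hGG1 : T_GG1 := Pool.Agent.H21.HK.gg1
  have hGG2 : T_GG2 := Pool.Agent.H33.HK.gg2 hGG1
  have hDUH : T_DUH := Pool.Agent.H33.HK.duh hGG1
  have hMC : T_MC := Pool.Agent.H33.HK.mc hGG1
  have hCM1 : T_CM1 := Pool.Agent.H33.HK.CM1.cm1
  have hBET : T_BET := Pool.Agent.H36.HK.bet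
  have hSYM : T_SYM := Pool.Agent.H36.HK.sym
  have hMLK : T_MLK := Pool.Agent.H36.HK.mlk
  have hAPP : T_APP := Pool.Agent.H33.HK.APP.appl hGG1 hMLK hMC
  have hKPOS : T_KPOS := Pool.Agent.H33.HK.KPOS.kpos hGG1 hAPP hCM1
  have hVM : T_VM := Pool.Agent.H87.HF.vm hFB
  have hKEV : T_KEV := Pool.Agent.H56.HK.kev hSYM
  have hKDEC : T_KDEC := Pool.Agent.H89.HK.kdec hFB hMLK hMC hCM1 hKPOS hVM
  have hSEP : T_SEP := Pool.Agent.H87.HF.sep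
  have hSER1 : T_SER1 := Pool.Agent.H26.HK.ser1 hKDEC hSYM hKEV
  have hSER2 : T_SER2 := Pool.Agent.H26.HK.ser2 hVM hMLK hMC hKDEC hSEP
  have hUNF : T_UNF := Pool.Agent.H30.HK.unf
  have hTRIG : T_TRIG := Pool.Agent.H30.HK.trig
  have hPD : T_PD := Pool.Agent.H26.HK.pd hFB hVM hAPP hKDEC hSEP hKEV
  have hCTR : T_CTR := Pool.Agent.H56.HK.ctr hPD hTRIG hSER1 hJET hCMP hUNF
  have hHKEX : T_HKEX := Pool.Agent.H56.HK.hkex hBET hVM hSER1 hSER2 hUNF hTRIG hPD hCTR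
  have hGAM : T_GAM := Pool.Agent.H86.HK.gamT
  have hMET : T_MET := Pool.Agent.H86.HK.metT
  have hLAP : T_LAP := Pool.Agent.H86.HK.lap
  have hDIS : T_DIS := Pool.Agent.H39.HK.dis hGAM hDD hDQ
  have hCPL : T_CPL := Pool.Agent.H41.HK.cpl hDIS hDQ hDD
  have hNIS : T_NIS := Pool.Agent.H83.HK.nis hDIS hDQ
  have hCMN : T_CMN := Pool.Agent.H2.HK.cmn hLAP hGAM
  have hAPN : T_APN := Pool.Agent.H30.HK.apn hHCT hGG1 hGG2 hGAM hLAP
  have hFUN : T_FUN := Pool.Agent.H30.HK.fun_ hAPN hGAM hLAP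
  have hMNN : T_MNN := Pool.Agent.H41.HK.mnn hAPN hCMN hGAM hLAP
  exact fin hPROF hMET hDIS hCPL hNIS hHKEX hFUN hMNN hUPPER hLOWER

end Pool.Agent.H96.HK
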