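import Pool.Agent.H96.HK.Basic

/-!
# MP_e94f6f_an: module L3 (pole in the core, large times, lower bound)
-/

open MeasureTheory Set Filter Topology
open scoped ContDiff

namespace Pool.Agent.H96.HK

/-- radial Gaussian without normalisation -/
noncomputable def Gk (τ s : ℝ) : ℝ := τ⁻¹ * Real.exp (-(s ^ 2 / (4 * τ)))

lemma Gk_pos {τ : ℝ} (h : 0 < τ) (s : ℝ) : 0 < Gk τ s := by unfold Gk; positivity

lemma Gk_anti {τ : ℝ} (h : 0 < τ) {s r : ℝ} (hs : |s| ≤ |r|) : Gk τ r ≤ Gk τ s := by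
  unfold Gk
  refine mul_le_mul_of_nonneg_left (Real.exp_le_exp.mpr ?_) (inv_nonneg.mpr h.le)
  rw [neg_le_neg_iff]
  exact div_le_div_of_nonneg_right (sq_le_sq.mpr hs) (by positivity)

lemma Gk_le {τ s : ℝ} (h : 0 < τ) (hs : s ≠ 0) : Gk τ s ≤ 4 / s ^ 2 := by
  unfold Gk
  have hs2 : 0 < s ^ 2 := by positivity
  have hx : 0 < s ^ 2 / (4 * τ) := by positivity
  have h1 : Real.exp (-(s ^ 2 / (4 * τ))) ≤ (s ^ 2 / (4 * τ))⁻¹ := by
    rw [Real.exp_neg]
    apply inv_anti₀ hx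
    linarith [Real.add_one_le_exp (s ^ 2 / (4 * τ))]
  calc τ⁻¹ * Real.exp (-(s ^ 2 / (4 * τ))) ≤ τ⁻¹ * (s ^ 2 / (4 * τ))⁻¹ :=
        mul_le_mul_of_nonneg_left h1 (by positivity)
    _ = 4 / s ^ 2 := by field_simp

lemma hasDerivAt_Gk_s (τ s : ℝ) :
    HasDerivAt (fun s => Gk τ s) (-(s / (2 * τ)) * Gk τ s) s := by
  unfold Gk
  have h1 : HasDerivAt (fun s : ℝ => -(s ^ 2 / (4 * τ))) (-(2 * s / (4 * τ))) s := by
    have h0 : HasDerivAt (fun s : ℝ => s ^ 2) (2 * s) s := by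
      simpa using hasDerivAt_pow 2 s
    exact (h0.div_const (4 * τ)).neg
  refine ((h1.exp).const_mul (τ⁻¹)).congr_deriv ?_
  have e : 2 * s / (4 * τ) = s / (2 * τ) := by
    rw [show (4 * τ) = 2 * (2 * τ) by ring, mul_div_mul_left _ _ (by norm_num : (2:ℝ) ≠ 0)]
  rw [e]; ring

lemma hasDerivAt_Gk_ss (τ s : ℝ) (hτ : τ ≠ 0) :
    HasDerivAt (fun s => -(s / (2 * τ)) * Gk τ s)
      ((-(1 / (2 * τ)) + s ^ 2 / (4 * τ ^ 2)) * Gk τ s) s := by
  have h1 : HasDerivAt (fun s : ℝ => -(s / (2 * τ))) (-(1 / (2 * τ))) s :=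
    ((hasDerivAt_id s).div_const (2 * τ)).neg
  refine (h1.mul (hasDerivAt_Gk_s τ s)).congr_deriv ?_
  field_simp
  ring

lemma hasDerivAt_Gk_t {τ : ℝ} (s : ℝ) (hτ : 0 < τ) :
    HasDerivAt (fun τ => Gk τ s) ((-(1 / τ) + s ^ 2 / (4 * τ ^ 2)) * Gk τ s) τ := by
  unfold Gk
  have h0 : τ ≠ 0 := hτ.ne'
  have h1 : HasDerivAt (fun τ : ℝ => τ⁻¹) (-(τ ^ 2)⁻¹) τ := hasDerivAt_inv h0
  have h2 : HasDerivAt (fun τ : ℝ => -(s ^ 2 / (4 * τ))) (s ^ 2 / (4 * τ ^ 2)) τ := by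
    have h3 : HasDerivAt (fun τ : ℝ => -(s ^ 2 / 4 * τ⁻¹)) (-(s ^ 2 / 4 * (-(τ ^ 2)⁻¹))) τ :=
      (h1.const_mul _).neg
    have e : (fun τ : ℝ => -(s ^ 2 / (4 * τ))) = fun τ : ℝ => -(s ^ 2 / 4 * τ⁻¹) := by
      funext x
      rcases eq_or_ne x 0 with h | h
      · subst h; simp
      · field_simp
    rw [e]
    refine h3.congr_deriv ?_
    field_simp
  refine (h1.mul h2.exp).congr_deriv ?_
  field_simp

lemma Gk_contDiff {τ : ℝ} (hτ : 0 < τ) : ContDiff ℝ 2 (fun p : X => Gk τ p.1) := by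
  unfold Gk
  have : τ ≠ 0 := hτ.ne'
  fun_prop

lemma Gk_continuousOn (a : ℝ) {S : Set ℝ} (hS : ∀ t ∈ S, 0 < a + t) :
    ContinuousOn (fun z : ℝ × X => Gk (a + z.1) z.2.1) (S ×ˢ univ) := by
  unfold Gk
  have h : ∀ z ∈ S ×ˢ (univ : Set X), a + z.1 ≠ 0 := fun z hz => (hS _ hz.1).ne'
  refine ContinuousOn.mul ?_ ?_
  · exact ContinuousOn.inv₀ (by fun_prop) h
  · refine Real.continuous_exp.comp_continuousOn (ContinuousOn.neg (ContinuousOn.div (by fun_prop)
      (by fun_prop) fun z hz => mul_ne_zero (by norm_num) (h z hz)))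

lemma Gk_subJet (hJ : T_JET) {F : ℝ → ℝ} {K : ℝ} (hF : Prof F) (hB : FB F K) (a t : ℝ)
    (ht : 0 < a + t) (p : X) : SubJet F (fun t p => Gk (a + t) p.1) t p := by
  have h0 : a + t ≠ 0 := ht.ne'
  refine hJ.cls F _ t p ((-(1 / (a + t)) + p.1 ^ 2 / (4 * (a + t) ^ 2)) * Gk (a + t) p.1)
    (Gk_contDiff ht).contDiffAt ?_ ?_
  · have h1 := hasDerivAt_Gk_t p.1 ht
    exact h1.comp_const_add a t
  · have e1 : ds (fun p : X => Gk (a + t) p.1) = fun p : X =>
        -(p.1 / (2 * (a + t))) * Gk (a + t) p.1 := by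
      funext q
      exact (hasDerivAt_Gk_s (a + t) q.1).deriv
    have e2 : ds (ds (fun p : X => Gk (a + t) p.1)) p =
        (-(1 / (2 * (a + t))) + p.1 ^ 2 / (4 * (a + t) ^ 2)) * Gk (a + t) p.1 := by
      rw [e1]
      exact (hasDerivAt_Gk_ss (a + t) p.1 h0).deriv
    have e3 : dp (fun p : X => Gk (a + t) p.1) = fun _ => 0 := by
      funext q
      unfold dp
      simp
    have e4 : dp (dp (fun p : X => Gk (a + t) p.1)) p = 0 := by
      rw [e3]; unfold dp; simp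
    unfold LB
    rw [e2, e4, e1]
    have hG := Gk_pos ht p.1
    have hFp := hF.pos p.1
    have h1 : deriv F p.1 / F p.1 * p.1 ≤ 1 := by
      rw [div_mul_eq_mul_div, div_le_one hFp, mul_comm]
      exact hB.dl p.1
    have h2 : deriv F p.1 / F p.1 * (-(p.1 / (2 * (a + t))) * Gk (a + t) p.1) ≥
        -(1 / (2 * (a + t))) * Gk (a + t) p.1 := by
      have : deriv F p.1 / F p.1 * (-(p.1 / (2 * (a + t))) * Gk (a + t) p.1) =
          -((deriv F p.1 / F p.1 * p.1) * (1 / (2 * (a + t)) * Gk (a + t) p.1)) := by ring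
      rw [this]
      have h3 : (deriv F p.1 / F p.1 * p.1) * (1 / (2 * (a + t)) * Gk (a + t) p.1) ≤
          1 * (1 / (2 * (a + t)) * Gk (a + t) p.1) :=
        mul_le_mul_of_nonneg_right h1 (by positivity)
      linarith
    have h5 : (-(1 / (a + t)) + p.1 ^ 2 / (4 * (a + t) ^ 2)) * Gk (a + t) p.1 =
        (-(1 / (2 * (a + t))) + p.1 ^ 2 / (4 * (a + t) ^ 2)) * Gk (a + t) p.1 +
        -(1 / (2 * (a + t))) * Gk (a + t) p.1 := by
      field_simp; ring
    simp only [zero_div, add_zero]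
    linarith

lemma Gk_neg (τ s : ℝ) : Gk τ (-s) = Gk τ s := by unfold Gk; rw [neg_sq]

lemma Heat.contOn {F : ℝ → ℝ} {H : ℝ → X → X → ℝ} (hH : Heat F H) (q : X) (a : ℝ) {S : Set ℝ}
    (hS : ∀ t ∈ S, 0 < a + t) :
    ContinuousOn (fun z : ℝ × X => H (a + z.1) z.2 q) (S ×ˢ univ) := by
  have hg : Continuous (fun z : ℝ × X => ((a + z.1, z.2, q) : ℝ × X × X)) := by fun_prop
  exact hH.cont.comp hg.continuousOn (fun z hz => ⟨hS _ hz.1, mem_univ _⟩)

lemma Heat.negJet (hJ : T_JET) {F : ℝ → ℝ} {H : ℝ → X → X → ℝ} (hH : Heat F H) (q : X)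
    (a t : ℝ) (ht : 0 < a + t) (p : X) : SubJet F (fun t z => -(H (a + t) z q)) t p :=
  hJ.cls' F (fun t z => H (a + t) z q) t p _ (((hH.cl q).c2 (a + t) ht).contDiffAt)
    (((hH.cl q).heat (a + t) ht p).comp_const_add a t) le_rfl

theorem l3 (h2 : T_L2) (hC : T_CMP) (hJ : T_JET) (hFB : T_FB) (hDQ : T_DQ) : T_L3 := by
  intro F H hF hH
  obtain ⟨K, hB⟩ := hFB F hF
  have DQ := hDQ F hF
  obtain ⟨c2, hc2, H2⟩ := h2 F H hF hH 3 (by norm_num) 1 (by norm_num)
  set c0 : ℝ := c2 * E2 (1 / 4) 49 with hc0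
  have hc0p : 0 < c0 := mul_pos hc2 (E2_pos' (by norm_num) _)
  have core : ∀ z q : X, |z.1| ≤ 3 → |q.1| ≤ 3 → c0 ≤ H (1 / 4) z q := by
    intro z q hz hq
    have h := H2 z q hz hq (1 / 4) ⟨by norm_num, by norm_num⟩
    refine le_trans (mul_le_mul_of_nonneg_left (E2_anti (by norm_num) ?_) hc2.le) h
    have h3 := DQ.up z q
    have h4 := DQ.nn z q
    nlinarith
  -- time one
  have far : ∀ p q : X, 2 ≤ |p.1| → |q.1| ≤ 3 →
      c0 / 12 * Real.exp (-(p.1 ^ 2 / 2)) ≤ H 1 p q := by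
    intro p q hp hq
    set y : ℝ := p.1 ^ 2 with hy
    have hy4 : 4 ≤ y := by
      rw [hy, ← sq_abs]; nlinarith
    have hy0 : 0 < y := by linarith
    set τ0 : ℝ := y⁻¹ with hτ0
    have hτ0p : 0 < τ0 := by positivity
    have hτ04 : τ0 ≤ 1 / 4 := by
      rw [hτ0, inv_eq_one_div]
      exact one_div_le_one_div_of_le (by norm_num) hy4
    have hS : ∀ t ∈ Icc (0:ℝ) (3 / 4), 0 < τ0 + t := fun t ht => by linarith [ht.1]
    have hS' : ∀ t ∈ Icc (0:ℝ) (3 / 4), 0 < 1 / 4 + t := fun t ht => by linarith [ht.1]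
    have key := hC F 0 (3 / 4) (fun t z => c0 * max 0 (τ0 * (Gk (τ0 + t) z.1 - Gk τ0 3)) +
      -(H (1 / 4 + t) z q)) hF.pos (by norm_num) ?_ ?_ ?_ ?_ ?_ (3 / 4) ⟨by norm_num, le_rfl⟩ p
    · have e14 : (1 / 4 + 3 / 4 : ℝ) = 1 := by norm_num
      rw [e14] at key
      have k1 : c0 * (τ0 * (Gk (τ0 + 3 / 4) p.1 - Gk τ0 3)) ≤ H 1 p q := by
        have := mul_le_mul_of_nonneg_left (le_max_right 0 (τ0 * (Gk (τ0 + 3 / 4) p.1 - Gk τ0 3)))
          hc0p.le
        linarith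
      have g1 : Real.exp (-(y / 3)) ≤ Gk (τ0 + 3 / 4) p.1 := by
        unfold Gk
        have a1 : 0 < τ0 + 3 / 4 := by linarith
        have a2 : 1 ≤ (τ0 + 3 / 4)⁻¹ := (one_le_inv₀ a1).mpr (by linarith)
        have a3 : Real.exp (-(y / 3)) ≤ Real.exp (-(p.1 ^ 2 / (4 * (τ0 + 3 / 4)))) := by
          apply Real.exp_le_exp.mpr
          rw [neg_le_neg_iff, ← hy]
          exact div_le_div_of_nonneg_left hy0.le (by norm_num) (by linarith)
        calc Real.exp (-(y / 3)) ≤ 1 * Real.exp (-(p.1 ^ 2 / (4 * (τ0 + 3 / 4)))) := by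
              rw [one_mul]; exact a3
          _ ≤ _ := mul_le_mul_of_nonneg_right a2 (Real.exp_pos _).le
      have g2 : Gk τ0 3 ≤ 1 / 2 * Real.exp (-(y / 3)) := by
        have e : Gk τ0 3 = y * Real.exp (-(9 / 4 * y)) := by
          unfold Gk
          rw [hτ0, inv_inv]
          congr 2
          field_simp
          norm_num
        rw [e]
        have b1 : 2 * y ≤ Real.exp y := by
          have := Real.quadratic_le_exp_of_nonneg hy0.le
          nlinarith [sq_nonneg (y - 1)]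
        have b2 : Real.exp (-(9 / 4 * y)) * Real.exp y ≤ Real.exp (-(y / 3)) := by
          rw [← Real.exp_add]
          apply Real.exp_le_exp.mpr
          linarith
        have b3 := mul_le_mul_of_nonneg_left b1 (Real.exp_pos (-(9 / 4 * y))).le
        linarith
      have g3 : 1 / 6 * Real.exp (-(y / 6)) ≤ τ0 := by
        have b1 : y / 6 ≤ Real.exp (y / 6) := by linarith [Real.add_one_le_exp (y / 6)]
        have b2 : Real.exp (-(y / 6)) * Real.exp (y / 6) = 1 := by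
          rw [← Real.exp_add]; simp
        have b3 := mul_le_mul_of_nonneg_left b1 (Real.exp_pos (-(y / 6))).le
        rw [hτ0, ← one_div, le_div_iff₀ hy0]
        linarith
      have g4 : 1 / 2 * Real.exp (-(y / 3)) ≤ Gk (τ0 + 3 / 4) p.1 - Gk τ0 3 := by linarith
      calc c0 / 12 * Real.exp (-(y / 2))
          = c0 * ((1 / 6 * Real.exp (-(y / 6))) * (1 / 2 * Real.exp (-(y / 3)))) := by
            have : Real.exp (-(y / 2)) = Real.exp (-(y / 6)) * Real.exp (-(y / 3)) := by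
              rw [← Real.exp_add]; congr 1; ring
            rw [this]; ring
        _ ≤ c0 * (τ0 * (Gk (τ0 + 3 / 4) p.1 - Gk τ0 3)) := by gcongr
        _ ≤ _ := k1
    · -- continuity
      have c1 := Gk_continuousOn τ0 hS
      have c2 := hH.contOn q (1 / 4) hS'
      exact ((continuousOn_const.mul (ContinuousOn.sup continuousOn_const
        (continuousOn_const.mul (c1.sub continuousOn_const)))).add c2.neg)
    · intro t ht z
      have e1 : H (1 / 4 + t) (g0 z) q = H (1 / 4 + t) z q := hH.inv _ (hS' t ht) q z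
      show c0 * max 0 (τ0 * (Gk (τ0 + t) (-z.1) - Gk τ0 3)) + -(H (1 / 4 + t) (g0 z) q) = _
      rw [Gk_neg, e1]
    · intro ε hε
      refine ⟨max 1 (c0 * τ0 * 4 / ε), fun t ht z hz => ?_⟩
      have hz1 : 1 ≤ |z.1| := (le_max_left _ _).trans hz
      have hz2 : c0 * τ0 * 4 / ε ≤ |z.1| := (le_max_right _ _).trans hz
      have hz0 : z.1 ≠ 0 := by
        intro h; rw [h, abs_zero] at hz1; linarith
      have e1 := Gk_le (hS t ht) hz0
      have e2 := Gk_pos hτ0p 3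
      have e3 := hH.nn _ (hS' t ht) z q
      have e4 : max 0 (τ0 * (Gk (τ0 + t) z.1 - Gk τ0 3)) ≤ τ0 * (4 / z.1 ^ 2) := by
        apply max_le (by positivity)
        apply mul_le_mul_of_nonneg_left _ hτ0p.le
        linarith
      have e5 : c0 * (τ0 * (4 / z.1 ^ 2)) ≤ ε := by
        rw [div_le_iff₀ hε] at hz2
        have : |z.1| * ε ≤ z.1 ^ 2 * ε := by
          apply mul_le_mul_of_nonneg_right _ hε.le
          rw [← sq_abs]; nlinarith
        have h0 : (0:ℝ) < z.1 ^ 2 := by positivity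
        calc c0 * (τ0 * (4 / z.1 ^ 2)) = (c0 * τ0 * 4) / z.1 ^ 2 := by ring
          _ ≤ ε := by rw [div_le_iff₀ h0]; linarith
      have e6 := mul_le_mul_of_nonneg_left e4 hc0p.le
      show c0 * max 0 (τ0 * (Gk (τ0 + t) z.1 - Gk τ0 3)) + -(H (1 / 4 + t) z q) ≤ ε
      linarith
    · intro z
      show c0 * max 0 (τ0 * (Gk (τ0 + 0) z.1 - Gk τ0 3)) + -(H (1 / 4 + 0) z q) ≤ 0
      rw [add_zero, add_zero]
      rcases le_or_gt |z.1| 3 with h | h
      · have e1 := core z q h hq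
        have e2 : max 0 (τ0 * (Gk τ0 z.1 - Gk τ0 3)) ≤ 1 := by
          apply max_le (by norm_num)
          have a1 : τ0 * Gk τ0 z.1 ≤ 1 := by
            unfold Gk
            rw [← mul_assoc, mul_inv_cancel₀ hτ0p.ne', one_mul]
            exact Real.exp_le_one_iff.mpr (neg_nonpos.mpr (by positivity))
          have a2 : 0 ≤ τ0 * Gk τ0 3 := mul_nonneg hτ0p.le (Gk_pos hτ0p 3).le
          linarith
        have e3 := mul_le_mul_of_nonneg_left e2 hc0p.le
        linarith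
      · have e1 : Gk τ0 z.1 ≤ Gk τ0 3 := Gk_anti hτ0p (by rw [abs_of_pos (by norm_num : (0:ℝ) < 3)]; exact h.le)
        have e2 : max 0 (τ0 * (Gk τ0 z.1 - Gk τ0 3)) = 0 :=
          max_eq_left (mul_nonpos_of_nonneg_of_nonpos hτ0p.le (by linarith))
        rw [e2, mul_zero]
        have := hH.nn (1 / 4) (by norm_num) z q
        linarith
    · intro t ht z hv
      refine ⟨0, ?_⟩
      rw [gk_zero]
      have ht' : t ∈ Icc (0:ℝ) (3 / 4) := ⟨ht.1.le, ht.2⟩
      have hmax : 0 < max 0 (τ0 * (Gk (τ0 + t) z.1 - Gk τ0 3)) := by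
        have e3 := hH.nn _ (hS' t ht') z q
        by_contra hcon
        push Not at hcon
        have : c0 * max 0 (τ0 * (Gk (τ0 + t) z.1 - Gk τ0 3)) ≤ 0 :=
          mul_nonpos_of_nonneg_of_nonpos hc0p.le hcon
        have hv' : 0 < c0 * max 0 (τ0 * (Gk (τ0 + t) z.1 - Gk τ0 3)) + -(H (1 / 4 + t) z q) := hv
        linarith
      have hpos : 0 < τ0 * (Gk (τ0 + t) z.1 - Gk τ0 3) := by
        rcases lt_max_iff.mp hmax with h | h
        · exact absurd h (lt_irrefl _)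
        · exact h
      have j1 := Gk_subJet hJ hF hB τ0 t (hS t ht') z
      have j2 := hJ.add F _ _ t z j1 (hJ.cst F (-(Gk τ0 3)) t z)
      have j3 := hJ.smul F _ (c0 * τ0) t z (by positivity) j2
      have j4 := hJ.add F _ _ t z j3 (hH.negJet hJ q (1 / 4) t (hS' t ht') z)
      refine hJ.mono F _ _ t z ?_ ?_ j4
      · show c0 * τ0 * (Gk (τ0 + t) z.1 + -(Gk τ0 3)) + -(H (1 / 4 + t) z q) =
          c0 * max 0 (τ0 * (Gk (τ0 + t) z.1 - Gk τ0 3)) + -(H (1 / 4 + t) z q)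
        rw [max_eq_right hpos.le]; ring
      · refine Eventually.of_forall fun w => ?_
        show c0 * τ0 * (Gk (τ0 + w.1) w.2.1 + -(Gk τ0 3)) + -(H (1 / 4 + w.1) w.2 q) ≤
          c0 * max 0 (τ0 * (Gk (τ0 + w.1) w.2.1 - Gk τ0 3)) + -(H (1 / 4 + w.1) w.2 q)
        have := mul_le_mul_of_nonneg_left
          (le_max_right 0 (τ0 * (Gk (τ0 + w.1) w.2.1 - Gk τ0 3))) hc0p.le
        linarith
  -- all times
  set c : ℝ := min (c0 / 24) (c2 * E2 1 36 / 2) with hc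
  have hcp : 0 < c := lt_min (by positivity) (by
    have := E2_pos' (t := 1) (by norm_num) 36
    positivity)
  have one : ∀ p q : X, |q.1| ≤ 3 → c * Gk (1 / 2) p.1 ≤ H 1 p q := by
    intro p q hq
    have e : Gk (1 / 2) p.1 = 2 * Real.exp (-(p.1 ^ 2 / 2)) := by
      unfold Gk; norm_num
    rw [e]
    rcases le_or_gt 2 |p.1| with h | h
    · refine le_trans ?_ (far p q h hq)
      have : c ≤ c0 / 24 := min_le_left _ _
      have h3 := Real.exp_pos (-(p.1 ^ 2 / 2))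
      nlinarith
    · have h1 := H2 p q (by linarith) hq 1 ⟨by norm_num, le_rfl⟩
      have h2 : c2 * E2 1 36 ≤ H 1 p q := by
        refine le_trans (mul_le_mul_of_nonneg_left (E2_anti (by norm_num) ?_) hc2.le) h1
        have h3 := DQ.up p q
        have h4 := DQ.nn p q
        nlinarith
      have h3 : c ≤ c2 * E2 1 36 / 2 := min_le_right _ _
      have h4 : Real.exp (-(p.1 ^ 2 / 2)) ≤ 1 := Real.exp_le_one_iff.mpr (by
        rw [neg_nonpos]; positivity)
      have h5 : c * (2 * Real.exp (-(p.1 ^ 2 / 2))) ≤ c * (2 * 1) := by gcongr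
      linarith
  refine ⟨c, hcp, ?_⟩
  intro p q hq t ht
  have ht2 : 0 < -(1 / 2) + t := by linarith
  have key : c * Gk (-(1 / 2) + t) p.1 ≤ H (0 + t) p q := by
    rcases eq_or_lt_of_le ht with h | h
    · rw [← h]
      have := one p q hq
      norm_num at this ⊢
      exact this
    have hS : ∀ τ ∈ Icc (1:ℝ) t, 0 < -(1 / 2) + τ := fun τ hτ => by linarith [hτ.1]
    have hS' : ∀ τ ∈ Icc (1:ℝ) t, 0 < 0 + τ := fun τ hτ => by linarith [hτ.1]
    have key := hC F 1 t (fun τ z => c * Gk (-(1 / 2) + τ) z.1 + -(H (0 + τ) z q)) hF.pos h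
      ?_ ?_ ?_ ?_ ?_ t ⟨ht, le_rfl⟩ p
    · linarith
    · exact (continuousOn_const.mul (Gk_continuousOn _ hS)).add (hH.contOn q 0 hS').neg
    · intro τ hτ z
      have e1 : H (0 + τ) (g0 z) q = H (0 + τ) z q := hH.inv _ (hS' τ hτ) q z
      show c * Gk (-(1 / 2) + τ) (-z.1) + -(H (0 + τ) (g0 z) q) = _
      rw [Gk_neg, e1]
    · intro ε hε
      refine ⟨max 1 (c * 4 / ε), fun τ hτ z hz => ?_⟩
      have hz1 : 1 ≤ |z.1| := (le_max_left _ _).trans hz
      have hz2 : c * 4 / ε ≤ |z.1| := (le_max_right _ _).trans hz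
      have hz0 : z.1 ≠ 0 := by
        intro h; rw [h, abs_zero] at hz1; linarith
      have e1 := Gk_le (hS τ hτ) hz0
      have e3 := hH.nn _ (hS' τ hτ) z q
      have e5 : c * (4 / z.1 ^ 2) ≤ ε := by
        rw [div_le_iff₀ hε] at hz2
        have : |z.1| * ε ≤ z.1 ^ 2 * ε := by
          apply mul_le_mul_of_nonneg_right _ hε.le
          rw [← sq_abs]; nlinarith
        have h0 : (0:ℝ) < z.1 ^ 2 := by positivity
        calc c * (4 / z.1 ^ 2) = (c * 4) / z.1 ^ 2 := by ring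
          _ ≤ ε := by rw [div_le_iff₀ h0]; linarith
      have e6 := mul_le_mul_of_nonneg_left e1 hcp.le
      show c * Gk (-(1 / 2) + τ) z.1 + -(H (0 + τ) z q) ≤ ε
      linarith
    · intro z
      have := one z q hq
      show c * Gk (-(1 / 2) + 1) z.1 + -(H (0 + 1) z q) ≤ 0
      have e : (-(1 / 2) + 1 : ℝ) = 1 / 2 := by norm_num
      rw [e, zero_add]
      linarith
    · intro τ hτ z _
      refine ⟨0, ?_⟩
      rw [gk_zero]
      have hτ' : τ ∈ Icc 1 t := ⟨hτ.1.le, hτ.2⟩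
      exact hJ.add F _ _ τ z (hJ.smul F _ c τ z hcp.le (Gk_subJet hJ hF hB _ τ (hS τ hτ') z))
        (hH.negJet hJ q 0 τ (hS' τ hτ') z)
  rw [zero_add] at key
  refine le_trans ?_ key
  unfold Gk
  have e : -(1 / 2) + t = t - 1 / 2 := by ring
  rw [e]
  have e2 : t⁻¹ ≤ (t - 1 / 2)⁻¹ := inv_anti₀ (by linarith) (by linarith)
  calc c / t * Real.exp (-(p.1 ^ 2 / (4 * (t - 1 / 2))))
      = c * (t⁻¹ * Real.exp (-(p.1 ^ 2 / (4 * (t - 1 / 2))))) := by ring
    _ ≤ _ := by gcongr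

end Pool.Agent.H96.HK
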