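import Mathlib

/-!
# MP_e94f6f_an: Riemannian manifolds covered by `ℝ^d`, their distance and their heat kernel

A complete Riemannian manifold whose universal cover is diffeomorphic to `ℝ^d` is
`M = (ℝ^d, g) / Γ`, where `g` is a smooth Riemannian metric on `ℝ^d` and `Γ` is a group of smooth
isometries acting freely and properly discontinuously.  Functions on `M` are the `Γ`-invariant
functions on `ℝ^d`.
-/

open MeasureTheory Set Filter Topology
open scoped ContDiff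

namespace Pool.Agent.H96.HK

/-- Euclidean space `ℝ^d` -/
abbrev E (d : ℕ) := EuclideanSpace ℝ (Fin d)

/-- partial derivative -/
noncomputable def pd {d : ℕ} (i : Fin d) (f : E d → ℝ) (x : E d) : ℝ :=
  fderiv ℝ f x (EuclideanSpace.single i 1)

/-- `g` is a smooth Riemannian metric on `ℝ^d`, given by its matrix in the standard
coordinates -/
structure IsMetric {d : ℕ} (g : E d → Matrix (Fin d) (Fin d) ℝ) : Prop where
  smooth : ∀ i j, ContDiff ℝ ∞ (fun x => g x i j)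
  pos : ∀ x, (g x).PosDef

/-- `g_x(v, v)` -/
noncomputable def sq {d : ℕ} (g : E d → Matrix (Fin d) (Fin d) ℝ) (x v : E d) : ℝ :=
  ∑ i, ∑ j, g x i j * v i * v j

/-- `Γ` consists of smooth isometries of `(ℝ^d, g)` and acts freely and properly
discontinuously, so that `M = (ℝ^d, g) / Γ` is a connected Riemannian manifold of dimension `d` -/
structure IsDeck {d : ℕ} (g : E d → Matrix (Fin d) (Fin d) ℝ) (Γ : Subgroup (E d ≃ₜ E d)) :
    Prop where
  smooth : ∀ γ ∈ Γ, ContDiff ℝ ∞ (γ : E d → E d)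
  isom : ∀ γ ∈ Γ, ∀ x v : E d, sq g (γ x) (fderiv ℝ (γ : E d → E d) x v) = sq g x v
  free : ∀ γ ∈ Γ, ∀ x, γ x = x → γ = 1
  proper : ∀ K : Set (E d), IsCompact K → {γ | γ ∈ Γ ∧ (γ '' K ∩ K).Nonempty}.Finite

/-- the Riemannian distance of `M` between the points covered by `x` and `y`: infimum of the
lengths of the `C¹` curves from `x` to a point of the orbit of `y` -/
noncomputable def dM {d : ℕ} (g : E d → Matrix (Fin d) (Fin d) ℝ) (Γ : Subgroup (E d ≃ₜ E d))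
    (x y : E d) : ℝ :=
  sInf {L | ∃ c : ℝ → E d, ContDiff ℝ 1 c ∧ c 0 = x ∧ (∃ γ ∈ Γ, c 1 = γ y) ∧
    L = ∫ t in (0 : ℝ)..1, √(sq g (c t) (deriv c t))}

/-- `M` with its Riemannian distance is complete -/
def IsCompleteM {d : ℕ} (g : E d → Matrix (Fin d) (Fin d) ℝ) (Γ : Subgroup (E d ≃ₜ E d)) :
    Prop :=
  ∀ u : ℕ → E d, (∀ ε > 0, ∃ N, ∀ m ≥ N, ∀ n ≥ N, dM g Γ (u m) (u n) < ε) →
    ∃ x, Tendsto (fun n => dM g Γ (u n) x) atTop (𝓝 0)

/-- `M` is isometric to the flat space `ℝ^d` -/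
def IsFlatSpace {d : ℕ} (g : E d → Matrix (Fin d) (Fin d) ℝ) (Γ : Subgroup (E d ≃ₜ E d)) :
    Prop :=
  ∃ f : E d → E d, Function.Surjective f ∧ ∀ x y, dist (f x) (f y) = dM g Γ x y

/-- the Riemannian density `√det g` -/
noncomputable def vol {d : ℕ} (g : E d → Matrix (Fin d) (Fin d) ℝ) (x : E d) : ℝ :=
  √(g x).det

/-- the Laplace-Beltrami operator of `g` -/
noncomputable def lap {d : ℕ} (g : E d → Matrix (Fin d) (Fin d) ℝ) (f : E d → ℝ) (x : E d) : ℝ :=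
  (vol g x)⁻¹ * ∑ i, pd i (fun y => vol g y * ∑ j, (g y)⁻¹ i j * pd j f y) x

/-- `u` (lifted to `ℝ^d`) is a positive fundamental solution of `∂_t u = Δ_g u` on `M` with pole
at the point covered by `y` -/
structure IsFund {d : ℕ} (g : E d → Matrix (Fin d) (Fin d) ℝ) (Γ : Subgroup (E d ≃ₜ E d))
    (y : E d) (u : ℝ → E d → ℝ) : Prop where
  pos : ∀ t > 0, ∀ x, 0 < u t x
  inv : ∀ t > 0, ∀ γ ∈ Γ, ∀ x, u t (γ x) = u t x
  cont : ContinuousOn (fun p : ℝ × E d => u p.1 p.2) (Ioi 0 ×ˢ univ)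
  c2 : ∀ t > 0, ContDiff ℝ 2 (u t)
  heat : ∀ t > 0, ∀ x, HasDerivAt (fun τ => u τ x) (lap g (u t) x) t
  init : ∀ ψ : E d → ℝ, Continuous ψ → HasCompactSupport ψ →
    Tendsto (fun t => ∫ x, u t x * ψ x * vol g x) (𝓝[>] 0) (𝓝 (∑' γ : Γ, ψ (γ.1 y)))

/-- `H` is the heat kernel of `M`: the minimal positive fundamental solution -/
structure IsHeatKernel {d : ℕ} (g : E d → Matrix (Fin d) (Fin d) ℝ)
    (Γ : Subgroup (E d ≃ₜ E d)) (H : ℝ → E d → E d → ℝ) : Prop where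
  fund : ∀ y, IsFund g Γ y (fun t x => H t x y)
  minimal : ∀ y u, IsFund g Γ y u → ∀ t > 0, ∀ x, H t x y ≤ u t x

/-- the Euclidean heat kernel at distance `r` -/
noncomputable def Eu (d : ℕ) (t r : ℝ) : ℝ :=
  (4 * Real.pi * t) ^ (-(d : ℝ) / 2) * Real.exp (-r ^ 2 / (4 * t))

/-- the theorem: in every dimension `d ≥ 2` there is a complete Riemannian manifold, not
isometric to `ℝ^d`, whose heat kernel is comparable to the Euclidean one -/
def T_FINAL : Prop :=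
  ∀ d : ℕ, 2 ≤ d → ∃ (g : E d → Matrix (Fin d) (Fin d) ℝ) (Γ : Subgroup (E d ≃ₜ E d)),
    IsMetric g ∧ IsDeck g Γ ∧ IsCompleteM g Γ ∧ ¬ IsFlatSpace g Γ ∧
    ∃ H, IsHeatKernel g Γ H ∧ ∃ C : ℝ, 1 ≤ C ∧ ∀ t > 0, ∀ x y,
      C⁻¹ * Eu d t (dM g Γ x y) ≤ H t x y ∧ H t x y ≤ C * Eu d t (dM g Γ x y)

end Pool.Agent.H96.HK
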